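import Pool.Agent.Lib.MP_0e3b4a_gt.Asm5
import Pool.Agent.Lib.MP_0e3b4a_gt.H1.Expa
import Pool.Agent.Lib.MP_0e3b4a_gt.H1.Mini
import Pool.Agent.Lib.MP_0e3b4a_gt.H1.Weak
import Pool.Agent.Lib.MP_0e3b4a_gt.H16.Flow
import Pool.Agent.Lib.MP_0e3b4a_gt.H16.Repa
import Pool.Agent.Lib.MP_0e3b4a_gt.H22.Struc
import Pool.Agent.Lib.MP_0e3b4a_gt.H23.Linx
import Pool.Agent.Lib.MP_0e3b4a_gt.H28.Drop
import Pool.Agent.Lib.MP_0e3b4a_gt.H28.Supg
import Pool.Agent.Lib.MP_0e3b4a_gt.H28.Vinv
import Pool.Agent.Lib.MP_0e3b4a_gt.H30.Gron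
import Pool.Agent.Lib.MP_0e3b4a_gt.H30.Noba
import Pool.Agent.Lib.MP_0e3b4a_gt.H30.Prod
import Pool.Agent.Lib.MP_0e3b4a_gt.H30.Triv
import Pool.Agent.Lib.MP_0e3b4a_gt.H38.Chow
import Pool.Agent.Lib.MP_0e3b4a_gt.H38.Dila
import Pool.Agent.Lib.MP_0e3b4a_gt.H38.Line
import Pool.Agent.Lib.MP_0e3b4a_gt.H52.Crit
import Pool.Agent.Lib.MP_0e3b4a_gt.H52.Mult
import Pool.Agent.Lib.MP_0e3b4a_gt.H57.Data
import Pool.Agent.Lib.MP_0e3b4a_gt.H57.Inv
import Pool.Agent.Lib.MP_0e3b4a_gt.H57.Null
import Pool.Agent.Lib.MP_0e3b4a_gt.H57.Para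
import Pool.Agent.Lib.MP_0e3b4a_gt.H57.Resc
import Pool.Agent.Lib.MP_0e3b4a_gt.H57.Uniq
import Pool.Agent.Lib.MP_0e3b4a_gt.H59.Lin
import Pool.Agent.Lib.MP_0e3b4a_gt.H59.Rank
import Pool.Agent.Lib.MP_0e3b4a_gt.H65.Bad
import Pool.Agent.Lib.MP_0e3b4a_gt.H65.Cubz
import Pool.Agent.Lib.MP_0e3b4a_gt.H65.Detz
import Pool.Agent.Lib.MP_0e3b4a_gt.H65.Nuni
import Pool.Agent.Lib.MP_0e3b4a_gt.H70.Char
import Pool.Agent.Lib.MP_0e3b4a_gt.H70.Grade
import Pool.Agent.Lib.MP_0e3b4a_gt.H70.Nilp
import Pool.Agent.Lib.MP_0e3b4a_gt.H70.Phi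
import Pool.Agent.Lib.MP_0e3b4a_gt.H71.SPAN
import Pool.Agent.Lib.MP_0e3b4a_gt.H72.Expb
import Pool.Agent.Lib.MP_0e3b4a_gt.H72.Nmap
import Pool.Agent.Lib.MP_0e3b4a_gt.H75.Ndif
import Pool.Agent.Lib.MP_0e3b4a_gt.H75.Nvec
import Pool.Agent.Lib.MP_0e3b4a_gt.H75.Strd
import Pool.Agent.Lib.MP_0e3b4a_gt.H76.Lims
import Pool.Agent.Lib.MP_0e3b4a_gt.H76.Loca
import Pool.Agent.Lib.MP_0e3b4a_gt.H78.Bili
import Pool.Agent.Lib.MP_0e3b4a_gt.H78.Spee
import Pool.Agent.Lib.MP_0e3b4a_gt.H82.Conc
import Pool.Agent.Lib.MP_0e3b4a_gt.H83.Cubn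
import Pool.Agent.Lib.MP_0e3b4a_gt.H92.Poly

/-! # The modules together -/

set_option autoImplicit false

namespace Pool.Agent.CutLoci.All

open MeasureTheory Set

theorem uniq : UniqStatement := H57.uniq H30.gron

theorem inv : InvStatement := H57.inv H30.gron H30.prod H16.flow_thm

theorem resc : RescStatement := H57.resc H16.flow_thm uniq inv

theorem line : LineStatement := H38.line H30.prod H16.flow_thm uniq resc

theorem expa : ExpaStatement := H1.expa H16.flow_thm

section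

variable (g : Type) [NormedAddCommGroup g] [NormedSpace ℝ g] [FiniteDimensional ℝ g] (r : ℕ)

theorem grade : GradeStatement g r := H70.grade g r

theorem nilp : NilpStatement g r := H70.nilp g r (grade g r)

theorem kappa : KappaStatement g r := H70.kappa g r (grade g r)

theorem struc : StrucStatement g r :=
  H22.struc (nilp g r) (grade g r) H16.flow_thm uniq H30.prod inv

theorem bili : BiliStatement g r := H78.bili g r (struc g r)

theorem expb : ExpbStatement g r :=
  H72.expb g r expa H16.flow_thm (struc g r) uniq H30.prod (nilp g r)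

theorem strd : StrdStatement g r := H75.strd expa (nilp g r) (expb g r)

theorem range : RangeStatement g r := H75.range (struc g r)

theorem nfun : NfunStatement g r := H75.nfun (struc g r) (bili g r)

theorem conc : ConcStatement g r := H82.conc g r H16.flow_thm uniq inv resc (nilp g r)

theorem dila : DilaStatement g r := H38.dila (grade g r) (struc g r) uniq

theorem span : SpanStatement g r :=
  H71.span (conc g r) (struc g r) (grade g r) (range g r) (bili g r)

theorem chow : ChowStatement g r :=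
  H38.chow (conc g r) (dila g r) (span g r) (strd g r) (kappa g r) (struc g r)

theorem bad : BadStatement g r := H65.bad g r (bili g r)

theorem mult : MultStatement g r := H52.mult (bili g r) (struc g r)

theorem lims : LimsStatement g r := H76.lims g r (struc g r)

theorem loca : LocaStatement g r :=
  H76.loca g r (mult g r) (range g r) (bili g r) (struc g r) (lims g r)

theorem nuni : NuniStatement g r := H65.nuni g r (struc g r) H30.gron

theorem nmap : NmapStatement g r :=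
  H72.nmap g r expa H16.flow_thm (struc g r) uniq H30.prod (nilp g r)

theorem ndif : NdifStatement g r := H75.ndif (nmap g r) H28.vinv (nuni g r) (strd g r)

theorem crit : CritStatement g r := H52.crit (ndif g r) (nuni g r)

theorem repa : RepaStatement g r := H16.repa g r

theorem spee : SpeeStatement g r := H78.spee g r (repa g r)

theorem noba : NobaStatement g r := H30.noba uniq line (nilp g r)

theorem char : CharStatement g r := H70.char g r (struc g r) (grade g r) (nilp g r)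

theorem phi : PhiStatement g r := H70.phi g r (grade g r) (nilp g r)

theorem triv : TrivStatement g := H30.triv (struc g 2)

theorem para : ParaStatement g := H57.para g H30.prod

theorem mini : MiniStatement g r := H1.mini H1.weak (chow g r)

theorem poly : PolyStatement g r := H92.poly g r

theorem data : DataStatement g := H57.data g (triv g) (struc g 2) (grade g 2)

theorem dicho : Dicho g r := by
  intro _ _ _ μ _ C
  exact dichotomy (bad g r) (loca g r) (lims g r) (struc g r) (bili g r) (expb g r) (kappa g r)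
    (range g r) (nfun g r) H28.drop H59.rank (strd g r) H28.supg (nuni g r) (mini g r) (crit g r)
    H59.lina H59.linb μ C

theorem curveHyp : CurveHyp g r :=
  ⟨H16.flow_thm, uniq, nilp g r, struc g r, repa g r, spee g r, mini g r, char g r, phi g r⟩

end

section

variable {g : Type} [NormedAddCommGroup g] [NormedSpace ℝ g] [FiniteDimensional ℝ g] {r : ℕ}

/-- Theorem A. -/
theorem thm_A [Nontrivial g] [MeasurableSpace g] [BorelSpace g] (μ : Measure g)
    [μ.IsAddHaarMeasure] (C : Carnot g r) :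
    ∀ᵐ x ∂μ, C.Smooth x ∨ ∃ u, C.IsMin u x ∧ (¬ ∃ l, C.IsNormal u l) ∧ ∃ l, C.Third u l :=
  main_A (curveHyp g r) (nuni g r) (dicho g r) μ C

/-- Theorem B. -/
theorem thm_B [Nontrivial g] [MeasurableSpace g] [BorelSpace g]
    (μ : Measure g) [μ.IsAddHaarMeasure] (C : Carnot g r)
    (hU : ∃ x, (C.V 1 ⊔ C.V 2) ⊔ (C.V 1 ⊔ C.V 2).map (Carnot.lin (C.pt x)).toLinearMap = ⊤) :
    μ C.cut = 0 :=
  main_B (curveHyp g r) (nuni g r) (dicho g r) (poly g r) μ C hU

/-- Theorem C. -/
theorem thm_C [MeasurableSpace g] [BorelSpace g] (μ : Measure g) [μ.IsAddHaarMeasure]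
    (C : Carnot g 2) (hU : ∃ x, (C.V 1 ⊔ C.V 2 ⊔ C.V 3) ⊔
      (C.V 1 ⊔ C.V 2 ⊔ C.V 3).map (Carnot.lin (C.pt x)).toLinearMap = ⊤) :
    μ C.cut = 0 :=
  main_C (curveHyp g 2) (nuni g 2) (dicho g 2) (poly g 2) (triv g) μ C hU

/-- Theorem D. -/
theorem thm_D [MeasurableSpace g] [BorelSpace g] (μ : Measure g) [μ.IsAddHaarMeasure]
    (C : Carnot g 2) (hs : C.s ≤ 5) : μ C.cut = 0 :=
  main_D (curveHyp g 2) (nuni g 2) (dicho g 2) μ C
    (rank_two H16.flow_thm (nilp g 2) line (spee g 2) (noba g 2) (data g) (para g) (H57.null g)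
      H65.detz H65.cubz linx (H83.cubn H65.detz) μ C hs)

end

end Pool.Agent.CutLoci.All
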