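import Pool.Agent.Lib.MP_0e3b4a_gt.Asm6

/-! # Assembly 7: rank two, second derived algebra in degrees at most six -/

set_option autoImplicit false
set_option linter.unusedSectionVars false

namespace Pool.Agent.CutLoci

open MeasureTheory Set Filter Topology

section

variable {g : Type} [NormedAddCommGroup g] [NormedSpace ℝ g] [FiniteDimensional ℝ g]

/-- `al` as a linear map. -/
noncomputable def alL (C : Carnot g 2) (l : g →L[ℝ] ℝ) : EE 2 →ₗ[ℝ] ℝ :=
  (l.comp ((C.br (ww C)).comp ((C.br.flip (ww C)).comp C.X))).toLinearMap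

theorem alL_apply (C : Carnot g 2) (l : g →L[ℝ] ℝ) (b : EE 2) : alL C l b = al C l b := rfl

/-- `sg` as a bilinear map. -/
noncomputable def sgL (C : Carnot g 2) (l : g →L[ℝ] ℝ) : EE 2 →ₗ[ℝ] EE 2 →ₗ[ℝ] ℝ :=
  LinearMap.mk₂ ℝ (sg C l) (fun a b c => by simp [sg]) (fun a b c => by simp [sg])
    (fun a b c => by simp [sg]) (fun a b c => by simp [sg])

theorem sgL_apply (C : Carnot g 2) (l : g →L[ℝ] ℝ) (a b : EE 2) :
    sgL C l a b = sg C l a b := rfl

/-- Layers above a zero layer are zero. -/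
theorem layer_zero {r : ℕ} (C : Carnot g r) (N : ℕ) (hN : 1 ≤ N) (h : C.V N = ⊥) :
    ∀ j, N ≤ j → C.V j = ⊥ := by
  intro j hj
  induction j, hj using Nat.le_induction with
  | base => exact h
  | succ j hj ih =>
    rw [C.gen j (hN.trans hj), Submodule.span_eq_bot]
    rintro _ ⟨x, _, y, hy, rfl⟩
    rw [ih, Submodule.mem_bot] at hy
    rw [hy, map_zero]

/-- Quadratic functions along a path. -/
theorem quad_path (hProd : ProdStatement) (u : ℝ → EE 2) (hu : IntegrableOn u (Ioc 0 1))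
    (β : EE 2 →ₗ[ℝ] ℝ) (S : EE 2 →ₗ[ℝ] EE 2 →ₗ[ℝ] ℝ) (hS : ∀ a b, S a b = S b a)
    (h : ∀ᵐ t ∂(volume.restrict (Ioc (0 : ℝ) 1)), β (u t) + S (∫ s in (0 : ℝ)..t, u s) (u t) = 0) :
    ∀ t ∈ Icc (0 : ℝ) 1, β (∫ s in (0 : ℝ)..t, u s) +
      S (∫ s in (0 : ℝ)..t, u s) (∫ s in (0 : ℝ)..t, u s) / 2 = 0 := by
  intro t ht
  have hut : IntervalIntegrable u volume 0 t := by
    rw [intervalIntegrable_iff_integrableOn_Ioc_of_le ht.1]
    exact hu.mono_set (Ioc_subset_Ioc_right ht.2)
  have hui : IntervalIntegrable u volume 0 1 :=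
    (intervalIntegrable_iff_integrableOn_Ioc_of_le zero_le_one).2 hu
  have hcont : ContinuousOn (fun t => ∫ s in (0 : ℝ)..t, u s) (Icc 0 1) := by
    have h2 := intervalIntegral.continuousOn_primitive_interval' hui left_mem_uIcc
    rwa [uIcc_of_le zero_le_one] at h2
  let Sc : EE 2 →L[ℝ] EE 2 →L[ℝ] ℝ := S.toContinuousBilinearMap
  have hSc : ∀ a b, Sc a b = S a b := fun a b => rfl
  let βc : EE 2 →L[ℝ] ℝ := LinearMap.toContinuousLinearMap β
  have hβc : ∀ a, βc a = β a := fun a => rfl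
  have h1 := hProd (EE 2) (EE 2) ℝ Sc u u 0 0 hu hu t ht
  simp only [zero_add, map_zero, hSc] at h1
  have h3 : ∀ᵐ s ∂(volume.restrict (Ioc 0 t)),
      S (u s) (∫ p in (0 : ℝ)..s, u p) + S (∫ p in (0 : ℝ)..s, u p) (u s) = -2 * β (u s) := by
    filter_upwards [ae_restrict_of_ae_restrict_of_subset (Ioc_subset_Ioc_right ht.2) h] with s hs
    rw [hS (u s)]
    linarith
  have h4 : ∫ s in (0 : ℝ)..t, (S (u s) (∫ p in (0 : ℝ)..s, u p) +
      S (∫ p in (0 : ℝ)..s, u p) (u s)) = ∫ s in (0 : ℝ)..t, -2 * β (u s) := by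
    rw [intervalIntegral.integral_of_le ht.1, intervalIntegral.integral_of_le ht.1]
    exact integral_congr_ae h3
  have h5 : ∫ s in (0 : ℝ)..t, β (u s) = β (∫ s in (0 : ℝ)..t, u s) :=
    βc.intervalIntegral_comp_comm hut
  rw [h4, intervalIntegral.integral_const_mul, h5] at h1
  linarith [h1]

/-- Endpoints of degenerate minimisers, rank two. -/
theorem rank_two7 (hFlow : FlowStatement) (hProd : ProdStatement) (hGrade : GradeStatement g 2)
    (hNilp : NilpStatement g 2) (hLine : LineStatement) (hSpee : SpeeStatement g 2)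
    (hNoba : NobaStatement g 2) (hTriv : TrivStatement g) (hNull : NullStatement g)
    (hLinx : LinxStatement) (hNsec : NsecStatement g) (hSixa : SixaStatement g)
    (hSixt : SixtStatement g) (hMeta : MetaStatement g) (hMulq : MulqStatement)
    (hQuad : QuadStatement) (hConi : ConiStatement) (hCasr : CasrStatement)
    (hTraj : TrajStatement g) (hNull2 : Null2Statement g) (hSevn : SevnStatement g)
    [MeasurableSpace g] [BorelSpace g] (μ : Measure g) [μ.IsAddHaarMeasure] (C : Carnot g 2)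
    (hD : Deg6 C) :
    μ {b | ∃ u : Ctl 2, C.EMin u ∧ C.End u = b ∧ ∃ l, C.NPrime u l ∧ Iso C u l} = 0 := by
  obtain ⟨hn1, -, -⟩ := hNull μ C
  obtain ⟨hs7, hs3⟩ := hSevn C
  obtain ⟨hz1, hz2, hz3, hlin⟩ := hSixa C hD
  obtain ⟨hgr, -, -, hsum, hanti⟩ := hGrade C
  have hnt : Nontrivial g := by
    refine ⟨C.X (EuclideanSpace.single 0 1), 0, fun h => ?_⟩
    have h1 := C.X_inj (h.trans (map_zero C.X).symm)
    have h2 := congrArg (fun v : EE 2 => v 0) h1
    simp at h2
  let A1 : Set g := {b | ∃ c : EE 2, b = Carnot.org (NormedSpace.exp (C.R c))}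
  let A5 : Set g := {b | ∃ c c' c'' : EE 2, b = Carnot.org (NormedSpace.exp (C.R c) *
      NormedSpace.exp (C.R c') * NormedSpace.exp (C.R c''))}
  let A6 : Set g := {b | ∃ (M : EE 2 →L[ℝ] EE 2) (v : EE 2),
      b = C.End (fun s => NormedSpace.exp (s • M) v)}
  have hX1 : ∀ a, C.X a ∈ C.V 1 := by
    intro a
    rw [← C.X_range]
    exact ⟨a, rfl⟩
  have hw2 : ww C ∈ C.V 2 := hgr 1 1 _ (hX1 _) _ (hX1 _)
  have hw3 : ∀ b, C.br (C.X b) (ww C) ∈ C.V 3 := fun b => hgr 1 2 _ (hX1 _) _ hw2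
  have hw5 : ∀ b, C.br (ww C) (C.br (C.X b) (ww C)) ∈ C.V 5 := fun b =>
    hgr 2 3 _ hw2 _ (hw3 b)
  have hw6 : ∀ a b, C.br (C.X a) (C.br (ww C) (C.br (C.X b) (ww C))) ∈ C.V 6 := fun a b =>
    hgr 1 5 _ (hX1 a) _ (hw5 b)
  have hw6' : ∀ a b, C.br (C.br (C.X a) (ww C)) (C.br (C.X b) (ww C)) ∈ C.V 6 := fun a b =>
    hgr 3 3 _ (hw3 a) _ (hw3 b)
  have hstraight : ∀ u : Ctl 2, (∃ p : EE 2, ∀ᵐ t ∂(volume.restrict (Ioc (0 : ℝ) 1)),
      ∃ c : ℝ, u t = c • p) → C.End u ∈ A1 := by
    rintro u ⟨p, hp⟩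
    refine ⟨∫ t in (0 : ℝ)..1, u t, ?_⟩
    have h1 := gam_line hNilp hLine C u (ctl_int u) 0 1 p le_rfl zero_le_one le_rfl hp
    rw [gam_zero hFlow hNilp C u (ctl_int u), one_mul] at h1
    show Carnot.org (C.Gam u 1) = _
    rw [h1]
  have hpieces : ∀ u : Ctl 2, Pieces u → C.End u ∈ A5 := by
    rintro u ⟨a, b, p, q, q', ha, hab, hb, h1, h2, h3⟩
    refine ⟨∫ t in (0 : ℝ)..a, u t, ∫ t in a..b, u t, ∫ t in b..1, u t, ?_⟩
    have e1 := gam_line hNilp hLine C u (ctl_int u) 0 a p le_rfl ha (hab.trans hb) h1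
    have e2 := gam_line hNilp hLine C u (ctl_int u) a b q ha hab hb h2
    have e3 := gam_line hNilp hLine C u (ctl_int u) b 1 q' (ha.trans hab) hb le_rfl h3
    rw [gam_zero hFlow hNilp C u (ctl_int u), one_mul] at e1
    show Carnot.org (C.Gam u 1) = _
    rw [e3, e2, e1]
  have key : ∀ u : Ctl 2, C.EMin u → (∃ l, C.NPrime u l ∧ Iso C u l) → C.End u = 0 ∨
      (3 ≤ Module.finrank ℝ g ∧ C.End u ∈ A1) ∨
      (7 ≤ Module.finrank ℝ g ∧ C.End u ∈ A5 ∪ A6) := by
    rintro u hu ⟨l, hl, hI⟩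
    have hsp := hSpee C u hu
    by_cases hu0 : ‖u‖ = 0
    · left
      have h1 : ∀ᵐ t ∂(volume.restrict (Ioc (0 : ℝ) 1)), ∃ c : ℝ, u t = c • (0 : EE 2) := by
        filter_upwards [hsp] with t ht
        rw [hu0, norm_eq_zero] at ht
        exact ⟨0, by rw [ht, smul_zero]⟩
      have h2 := gam_line hNilp hLine C u (ctl_int u) 0 1 0 le_rfl zero_le_one le_rfl h1
      obtain ⟨c, hc⟩ := int_line u 0 1 zero_le_one 0 h1
      rw [gam_zero hFlow hNilp C u (ctl_int u), one_mul, hc, smul_zero, map_zero,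
        NormedSpace.exp_zero] at h2
      show Carnot.org (C.Gam u 1) = 0
      rw [h2]; rfl
    right
    have hne : ∀ᵐ t ∂(volume.restrict (Ioc (0 : ℝ) 1)), u t ≠ 0 := by
      filter_upwards [hsp] with t ht h0
      rw [h0, norm_zero] at ht
      exact hu0 ht.symm
    have hnb : Noback u := by
      intro a b p ha hab hb hp h0
      have h1 := hNoba C u hu a b p ha hab.le hb hp h0
      have h2 : ∀ᵐ t ∂(volume.restrict (Ioc a b)), u t ≠ 0 :=
        ae_restrict_of_ae_restrict_of_subset (Ioc_subset_Ioc ha hb) hne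
      have h3 : ∀ᵐ t ∂(volume.restrict (Ioc a b)), False := by
        filter_upwards [h1, h2] with t h4 h5
        exact h5 h4
      rw [ae_iff] at h3
      simp at h3
      linarith
    have ht3 := hTriv C u l hl hne
    obtain ⟨⟨hl0, hl1⟩, hl2, -⟩ := hl
    have h01 : (0 : ℝ) ∈ Icc (0 : ℝ) 1 := ⟨le_rfl, zero_le_one⟩
    have hAd0 : ∀ z, C.Ad u 0 z = z := by
      intro z
      show (C.Gam u 0 (z, 0)).1 = z
      rw [gam_zero hFlow hNilp C u (ctl_int u)]
      rfl
    have hlX : ∀ a, l (C.X a) = 0 := by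
      intro a
      have h := hl1 0 h01 a
      rwa [hAd0] at h
    have hlXX : ∀ a b, l (C.br (C.X a) (C.X b)) = 0 := by
      intro a b
      have h := hl2 0 h01 a b
      rwa [hAd0] at h
    -- the third layer does not vanish
    have hV3 : C.V 3 ≠ ⊥ := by
      intro h3
      refine hl0 (ContinuousLinearMap.ext fun z => ?_)
      obtain ⟨y, hy, rfl⟩ := hsum z
      rw [map_sum]
      refine Finset.sum_eq_zero fun j hj => ?_
      have hj1 : 1 ≤ j := (Finset.mem_Icc.1 hj).1
      rcases Nat.lt_or_ge j 3 with hj3 | hj3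
      · interval_cases j
        · have h4 := hy 1
          rw [← C.X_range] at h4
          obtain ⟨a, ha⟩ := h4
          rw [← ha]
          exact hlX a
        · have h4 := hy 2
          rw [C.gen 1 le_rfl] at h4
          refine Submodule.span_induction ?_ ?_ ?_ ?_ h4
          · rintro _ ⟨a, ha, b, hb, rfl⟩
            rw [← C.X_range] at ha hb
            obtain ⟨a, rfl⟩ := ha
            obtain ⟨b, rfl⟩ := hb
            exact hlXX a b
          · exact map_zero l
          · intro a b _ _ ha hb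
            rw [map_add, ha, hb, add_zero]
          · intro c a _ ha
            rw [map_smul, ha, smul_zero]
      · have h4 := hy j
        rw [layer_zero C 3 (by norm_num) h3 j hj3, Submodule.mem_bot] at h4
        rw [h4, map_zero]
    have hn3 : 3 ≤ Module.finrank ℝ g := hs3 hV3
    obtain ⟨hN1, hN2⟩ := hNsec C u l hI hne
    have hT := hSixt C hD u l
    obtain ⟨hl4, hl5, hl6⟩ := hlin l
    -- the first order condition
    have hF : ∀ᵐ t ∂(volume.restrict (Ioc (0 : ℝ) 1)),
        alL C l (u t) + sgL C l (∫ s in (0 : ℝ)..t, u s) (u t) = 0 := by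
      filter_upwards [hN1, ae_restrict_mem measurableSet_Ioc] with t ht ht1
      rw [(hT t (Ioc_subset_Icc_self ht1)).1] at ht
      exact ht
    have hx0 : ∀ τ : EE 2 →ₗ[ℝ] ℝ, τ ≠ 0 →
        (∀ t ∈ Icc (0 : ℝ) 1, τ (∫ s in (0 : ℝ)..t, u s) = 0) → C.End u ∈ A1 :=
      fun τ hτ h => hstraight u (hLinx u τ (ctl_int u) hτ h)
    have hcont : ContinuousOn (fun t => ∫ s in (0 : ℝ)..t, (u : ℝ → EE 2) s) (Icc 0 1) := by
      have h1 : IntervalIntegrable (u : ℝ → EE 2) volume 0 1 :=
        (intervalIntegrable_iff_integrableOn_Ioc_of_le zero_le_one).2 (ctl_int u)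
      have h2 := intervalIntegral.continuousOn_primitive_interval' h1 left_mem_uIcc
      rwa [uIcc_of_le zero_le_one] at h2
    -- the metabelian case
    have hmet : ∀ N, 2 ≤ N → N ≤ 7 → (∀ j, N < j → C.V j = ⊥) → (∀ b, al C l b = 0) →
        (∀ a b, sg C l a b = 0) → rh C l = 0 →
        ∃ (β : EE 2 →ₗ[ℝ] ℝ) (S : EE 2 →ₗ[ℝ] EE 2 →ₗ[ℝ] ℝ), (∀ a b, S a b = S b a) ∧
          (β ≠ 0 ∨ S ≠ 0) ∧ (N ≤ 5 → S = 0) ∧ ∀ t ∈ Icc (0 : ℝ) 1,
            β (∫ s in (0 : ℝ)..t, u s) +
              S (∫ s in (0 : ℝ)..t, u s) (∫ s in (0 : ℝ)..t, u s) / 2 = 0 := by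
      intro N hN hN7 hNV ha hs hr
      obtain ⟨F, hF0, hFd, hFx⟩ := hMeta C N hN hNV u l hl0 hlX (hl6 ha hs hr)
      have hc1 : ContinuousOn (fun t => fun i : Fin 2 => (∫ s in (0 : ℝ)..t, (u : ℝ → EE 2) s) i)
          (Icc 0 1) := by
        have h1 : Continuous fun v : EE 2 => fun i : Fin 2 => v i := by fun_prop
        exact h1.comp_continuousOn hcont
      have hnc : ∃ s ∈ Icc (0 : ℝ) 1, ∃ t ∈ Icc (0 : ℝ) 1,
          (fun i : Fin 2 => (∫ s in (0 : ℝ)..s, (u : ℝ → EE 2) s) i) ≠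
            fun i : Fin 2 => (∫ s in (0 : ℝ)..t, (u : ℝ → EE 2) s) i := by
        by_contra hcon
        push Not at hcon
        have h1 : ∀ t ∈ Icc (0 : ℝ) 1, ∫ s in (0 : ℝ)..t, (u : ℝ → EE 2) s = 0 := by
          intro t ht
          have h2 := hcon t ht 0 h01
          rw [intervalIntegral.integral_same] at h2
          ext i
          exact congrFun h2 i
        obtain ⟨p, hp⟩ := hLinx u (LinearMap.mk₂ ℝ (fun a b : ℝ => a * b)
          (by intro a b c; ring) (by intro a b c; simp; ring) (by intro a b c; ring)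
          (by intro a b c; simp; ring) 1 ∘ₗ (EuclideanSpace.proj (0 : Fin 2) : EE 2 →L[ℝ] ℝ).toLinearMap)
          (ctl_int u) (by
            intro h3
            have h4 := LinearMap.congr_fun h3 (EuclideanSpace.single 0 1)
            simp at h4) (by
            intro t ht
            rw [h1 t ht, map_zero])
        exact hnb 0 1 p le_rfl one_pos le_rfl hp (h1 1 ⟨zero_le_one, le_rfl⟩)
      obtain ⟨Q, hQ0, hQd, hQx⟩ := hMulq _ F hc1 hnc hF0 (by
        intro t ht
        obtain ⟨e1, e2⟩ := hFx t ht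
        refine ⟨?_, fun j => ?_⟩
        · rw [e1]
          exact hl2 t ht _ _
        · rw [e2 j]
          have h5 := ht3 t ht (EuclideanSpace.single 0 1) (EuclideanSpace.single 1 1)
            (EuclideanSpace.single j 1)
          rw [hanti, map_neg, map_neg, neg_eq_zero]
          exact h5)
      obtain ⟨β, S, hS, hne', hd1, hev⟩ := hQuad Q hQ0 (by omega) (by
        have h6 := hQx 0 h01
        simp only [intervalIntegral.integral_same] at h6
        exact h6)
      refine ⟨β, S, hS, hne', fun h5 => hd1 (by omega), fun t ht => ?_⟩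
      rw [← hev]
      exact hQx t ht
    by_cases hV6 : C.V 6 = ⊥
    · -- everything is linear
      left
      refine ⟨hn3, ?_⟩
      have hs0 : ∀ a b, sg C l a b = 0 := by
        intro a b
        have h1 := hw6 a b
        rw [hV6, Submodule.mem_bot] at h1
        show l _ = 0
        rw [h1, map_zero]
      have hr0 : rh C l = 0 := by
        have h1 := hw6' (EuclideanSpace.single 0 1) (EuclideanSpace.single 1 1)
        rw [hV6, Submodule.mem_bot] at h1
        show l _ = 0
        rw [h1, map_zero]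
      by_cases ha : ∀ b, al C l b = 0
      · obtain ⟨β, S, hS, hne', hd1, hx⟩ := hmet 5 (by norm_num) (by norm_num)
          (fun j hj => layer_zero C 6 (by norm_num) hV6 j hj) ha hs0 hr0
        have hS0 := hd1 le_rfl
        have hβ : β ≠ 0 := by
          rcases hne' with h | h
          · exact h
          · exact absurd hS0 h
        refine hx0 β hβ fun t ht => ?_
        have h1 := hx t ht
        rw [hS0] at h1
        simpa using h1
      · push Not at ha
        obtain ⟨b, hb⟩ := ha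
        have hα : alL C l ≠ 0 := by
          intro h
          exact hb (LinearMap.congr_fun h b)
        refine hx0 _ hα fun t ht => ?_
        have h1 := quad_path hProd u (ctl_int u) (alL C l) 0 (fun a b => rfl) (by
          filter_upwards [hF] with t ht
          have h2 : sgL C l = 0 := by
            ext a b
            exact hs0 _ _
          rw [h2] at ht
          exact ht) t ht
        simpa using h1
    · right
      refine ⟨hs7 hV6, ?_⟩
      -- paths in conics
      have hcon : ∀ (β : EE 2 →ₗ[ℝ] ℝ) (S : EE 2 →ₗ[ℝ] EE 2 →ₗ[ℝ] ℝ), (∀ a b, S a b = S b a) →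
          (β ≠ 0 ∨ S ≠ 0) → (∀ t ∈ Icc (0 : ℝ) 1, β (∫ s in (0 : ℝ)..t, u s) +
              S (∫ s in (0 : ℝ)..t, u s) (∫ s in (0 : ℝ)..t, u s) / 2 = 0) →
          C.End u ∈ A5 ∪ A6 := by
        intro β S hS hne' hx
        rcases hConi u β S (ctl_int u) hne hnb hS hne' hx with h | ⟨Y, N, h1, h2⟩
        · exact Or.inl (hpieces u h)
        · obtain ⟨M, v, h3⟩ := hTraj C u Y N h1 h2
          refine Or.inr ⟨M, v, ?_⟩
          show Carnot.org (C.Gam u 1) = Carnot.org (C.Gam _ 1)
          rw [h3]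
      by_cases hr : rh C l = 0
      · by_cases has : (∀ b, al C l b = 0) ∧ ∀ a b, sg C l a b = 0
        · obtain ⟨β, S, hS, hne', -, hx⟩ := hmet 7 (by norm_num) (by norm_num)
            (fun j hj => C.V_big j (lt_of_le_of_lt hD.1 hj)) has.1 has.2 hr
          exact hcon β S hS hne' hx
        · have hsy : ∀ a b, sgL C l a b = sgL C l b a := by
            intro a b
            have h1 := hl5 a b
            rw [hr, mul_zero, zero_mul] at h1
            exact sub_eq_zero.1 h1
          refine hcon (alL C l) (sgL C l) hsy ?_ (quad_path hProd u (ctl_int u) _ _ hsy hF)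
          by_contra hcon'
          push Not at hcon'
          exact has ⟨fun b => LinearMap.congr_fun hcon'.1 b,
            fun a b => LinearMap.congr_fun (LinearMap.congr_fun hcon'.2 a) b⟩
      · left
        refine hpieces u (hCasr u (alL C l) (sgL C l) (rh C l) (ctl_int u) hne hnb hr
          (fun a b => hl5 a b) hF ?_)
        intro a b k k' ha hab hb hk' hk huk
        filter_upwards [hN2 a b k k' ha hab hb hk' hk huk,
          ae_restrict_mem measurableSet_Ioc] with t ht ht1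
        have ht2 : t ∈ Icc (0 : ℝ) 1 := ⟨ha.trans ht1.1.le, ht1.2.trans hb⟩
        rw [map_add, map_add, map_add, (hT t ht2).2.1, (hT t ht2).2.2, add_zero] at ht
        rcases mul_eq_zero.1 ht with h | h
        · exact absurd h hr
        · exact h
  have hsub : {b | ∃ u : Ctl 2, C.EMin u ∧ C.End u = b ∧ ∃ l, C.NPrime u l ∧ Iso C u l} ⊆
      {0} ∪ ({b | 3 ≤ Module.finrank ℝ g ∧ b ∈ A1} ∪
        {b | 7 ≤ Module.finrank ℝ g ∧ b ∈ A5 ∪ A6}) := by
    rintro b ⟨u, hu, rfl, hl⟩
    rcases key u hu hl with h | h | h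
    · exact Or.inl h
    · exact Or.inr (Or.inl h)
    · exact Or.inr (Or.inr h)
  refine measure_mono_null hsub ?_
  rw [measure_union_null_iff, measure_union_null_iff]
  refine ⟨measure_singleton 0, ?_, ?_⟩
  · by_cases h : 3 ≤ Module.finrank ℝ g
    · exact measure_mono_null (fun b hb => hb.2) (hn1 h)
    · have h1 : {b | 3 ≤ Module.finrank ℝ g ∧ b ∈ A1} = ∅ := by
        ext b; simp [h]
      rw [h1, measure_empty]
  · by_cases h : 7 ≤ Module.finrank ℝ g
    · obtain ⟨h5, h6⟩ := hNull2 μ C h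
      exact measure_mono_null (fun b hb => hb.2) (measure_union_null h5 h6)
    · have h1 : {b | 7 ≤ Module.finrank ℝ g ∧ b ∈ A5 ∪ A6} = ∅ := by
        ext b; simp [h]
      rw [h1, measure_empty]

end

end Pool.Agent.CutLoci
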