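import Pool.Agent.Lib.MP_0e3b4a_gt.Iface2

/-! # Statements of the modules, third part: isotropy, rank two and step six -/

set_option autoImplicit false

namespace Pool.Agent.CutLoci

open MeasureTheory Set Filter Topology

section

variable (g : Type) [NormedAddCommGroup g] [NormedSpace ℝ g] [FiniteDimensional ℝ g] (r : ℕ)

/-- The local spans are isotropic at all but finitely many times. -/
def Iso {g : Type} [NormedAddCommGroup g] [NormedSpace ℝ g] [FiniteDimensional ℝ g] {r : ℕ}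
    (C : Carnot g r) (u : Ctl r) (l : g →L[ℝ] ℝ) : Prop :=
  ∃ Z : Finset ℝ, ∀ t ∈ Ioo (0 : ℝ) 1, t ∉ Z → ∀ y ∈ leftS C u t ⊓ rightS C u t,
    ∀ z ∈ leftS C u t ⊔ rightS C u t, l (C.br y z) = 0

/-- LOCA2 (helper91 does this one). -/
def Loca2Statement : Prop :=
  ∀ C : Carnot g r, ∀ (u : Ctl r) (l : g →L[ℝ] ℝ) (t : ℝ), Good C u l t →
    ∀ y ∈ leftS C u t ⊓ rightS C u t, ∀ z ∈ leftS C u t ⊔ rightS C u t, l (C.br y z) = 0

/-- PROPA (150 lines, uses STRUC, PROD). Propagation: if `Ad_t z(t)` is in both local spans for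
almost all `t` in `(a, b)`, then so is its derivative `Ad_t (z' + [u, z])`. Proof: fix `t` and
`η`; for almost all `s` in `(t - η, t)` the vector `Ad_s z(s)` is in `rightS` at `s`, hence in the
span `S` of `Ad_p V₁`, `p ∈ (t - η, t)`; by continuity for all such `s` and for `s = t`. At a point
of differentiability (almost every one, `Ad_t z(t)` is a primitive of `Ad_t (z' + [u, z])`) the
derivative is in the closed space `S`. The same on the right side with `leftS`. Compare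
`H76/Lims.lean`. -/
def PropaStatement : Prop :=
  ∀ C : Carnot g r, ∀ (u : Ctl r) (a b : ℝ) (z z' : ℝ → g), 0 ≤ a → a < b → b ≤ 1 →
    IntegrableOn z' (Ioc a b) → (∀ t ∈ Icc a b, z t = z a + ∫ s in a..t, z' s) →
    (∀ᵐ t ∂(volume.restrict (Ioc a b)), C.Ad u t (z t) ∈ leftS C u t ⊓ rightS C u t) →
    ∀ᵐ t ∂(volume.restrict (Ioc a b)),
      C.Ad u t (z' t + C.br (C.X (u t)) (z t)) ∈ leftS C u t ⊓ rightS C u t

end

section

variable {g : Type} [NormedAddCommGroup g] [NormedSpace ℝ g] [FiniteDimensional ℝ g]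

/-- The generator of the second layer in rank two. -/
noncomputable def ww (C : Carnot g 2) : g :=
  C.br (C.X (EuclideanSpace.single 0 1)) (C.X (EuclideanSpace.single 1 1))

/-- The cross product in the plane. -/
def cr (a b : EE 2) : ℝ := a 0 * b 1 - a 1 * b 0

/-- `l [w, [b, w]]`. -/
noncomputable def al (C : Carnot g 2) (l : g →L[ℝ] ℝ) (b : EE 2) : ℝ :=
  l (C.br (ww C) (C.br (C.X b) (ww C)))

/-- `l [a, [w, [b, w]]]`. -/
noncomputable def sg (C : Carnot g 2) (l : g →L[ℝ] ℝ) (a b : EE 2) : ℝ :=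
  l (C.br (C.X a) (C.br (ww C) (C.br (C.X b) (ww C))))

/-- `l [[e₁, w], [e₂, w]]`. -/
noncomputable def rh (C : Carnot g 2) (l : g →L[ℝ] ℝ) : ℝ :=
  l (C.br (C.br (C.X (EuclideanSpace.single 0 1)) (ww C))
    (C.br (C.X (EuclideanSpace.single 1 1)) (ww C)))

/-- The second derived algebra has no component of degree seven or more. -/
def Deg6 (C : Carnot g 2) : Prop :=
  C.s ≤ 7 ∧ (∀ x ∈ C.V 2, ∀ y ∈ C.V 5, C.br x y = 0) ∧ ∀ x ∈ C.V 3, ∀ y ∈ C.V 4, C.br x y = 0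

end

section

variable (g : Type) [NormedAddCommGroup g] [NormedSpace ℝ g] [FiniteDimensional ℝ g]

/-- NSEC (120 lines, uses PROPA, LIMS, TRIV-like algebra). In rank two, for almost every `t`:
`Ad_t w` is in both local spans (LIMS: `Ad_t [u, c]` is, and `u(t) ≠ 0`), hence (PROPA with
`z = w`) so is `Ad_t [u, w]`, and isotropy gives the first claim. If `u` is a multiple of `k` then
`Ad_t [k, w]` is in both local spans (`u = θ k` with `θ ≠ 0`) and (PROPA with `z = [k, w]`) so is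
`Ad_t ([k', w] + [u, [k, w]])`. -/
def NsecStatement : Prop :=
  ∀ C : Carnot g 2, ∀ (u : Ctl 2) (l : g →L[ℝ] ℝ), Iso C u l →
    (∀ᵐ t ∂(volume.restrict (Ioc (0 : ℝ) 1)), u t ≠ 0) →
    (∀ᵐ t ∂(volume.restrict (Ioc (0 : ℝ) 1)),
      l (C.Ad u t (C.br (ww C) (C.br (C.X (u t)) (ww C)))) = 0) ∧
    ∀ (a b : ℝ) (k k' : ℝ → EE 2), 0 ≤ a → a < b → b ≤ 1 → IntegrableOn k' (Ioc a b) →
      (∀ t ∈ Icc a b, k t = k a + ∫ s in a..t, k' s) →
      (∀ᵐ t ∂(volume.restrict (Ioc a b)), ∃ c : ℝ, u t = c • k t) →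
      ∀ᵐ t ∂(volume.restrict (Ioc a b)), l (C.Ad u t (C.br (C.br (C.X (k t)) (ww C))
        (C.br (C.X (k' t)) (ww C) + C.br (C.X (u t)) (C.br (C.X (k t)) (ww C))))) = 0

/-- SIXA (150 lines, uses GRADE). Algebra: `[a, [w, [b, w]]] = [[a, w], [b, w]] + [w, [a, [b, w]]]`,
`[a, [b, w]] = [b, [a, w]]` (since `[a, b]` is a multiple of `w`), everything of degree at least
seven in the second derived algebra is zero: degree 7 elements used are `[[a, w], [b, [c, w]]]`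
(in `[V₃, V₄]`), `[a, [w, ...]]` with four letters more (Jacobi: sum of `[V₃, V₄]`,
`[V₂, V₅]`). The last claim: if `l` kills `[w, [b, w]]`, `[a, [w, [b, w]]]`, `[[a, w], [b, w]]`
then it kills `[V_j, V_k]`, `j, k ≥ 2` (degree 4: `[w, w] = 0`; degree 5: `[V₂, V₃]`;
degree 6: `[V₂, V₄]`, `[V₃, V₃]`; degree 7: zero; degree at least 8: `V_j = ⊥`). -/
def SixaStatement : Prop :=
  ∀ C : Carnot g 2, Deg6 C →
    (∀ a b c, C.br (C.X a) (C.br (C.X b) (C.br (ww C) (C.br (C.X c) (ww C)))) = 0) ∧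
    (∀ a b c, C.br (C.br (C.X a) (ww C)) (C.br (C.X b) (C.br (C.X c) (ww C))) = 0) ∧
    (∀ a b c, C.br (C.X a) (C.br (C.br (C.X b) (ww C)) (C.br (C.X c) (ww C))) = 0) ∧
    ∀ l : g →L[ℝ] ℝ,
      (∀ a b, l (C.br (C.br (C.X a) (ww C)) (C.br (C.X b) (ww C))) = rh C l * cr a b) ∧
      (∀ a b, sg C l a b - sg C l b a = 2 * rh C l * cr a b) ∧
      ((∀ b, al C l b = 0) → (∀ a b, sg C l a b = 0) → rh C l = 0 →
        ∀ j k, 2 ≤ j → 2 ≤ k → ∀ x ∈ C.V j, ∀ y ∈ C.V k, l (C.br x y) = 0)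

/-- SIXT (100 lines, uses STRUC, SIXA). Time evolution: `Ad_t z = z + ∫ Ad_s [u, z]`. -/
def SixtStatement : Prop :=
  ∀ C : Carnot g 2, Deg6 C → ∀ (u : Ctl 2) (l : g →L[ℝ] ℝ), ∀ t ∈ Icc (0 : ℝ) 1,
    (∀ b, l (C.Ad u t (C.br (ww C) (C.br (C.X b) (ww C)))) =
      al C l b + sg C l (∫ s in (0 : ℝ)..t, u s) b) ∧
    (∀ a b, l (C.Ad u t (C.br (C.br (C.X a) (ww C)) (C.br (C.X b) (ww C)))) =
      rh C l * cr a b) ∧
    ∀ a b c, l (C.Ad u t (C.br (C.br (C.X a) (ww C)) (C.br (C.X b) (C.br (C.X c) (ww C))))) = 0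

/-- META (250 lines, uses STRUC, GRADE). If `l` kills the second derived algebra, then with
`Z_ij = ad(e₁)^i ad(e₂)^j w`, `F = ∑ l(Z_ij) X^i Y^j / (i! j!)` (`i + j + 2 ≤ N`) one has
`l(Ad_t Z_ij) = (∂₁^i ∂₂^j F)(x(t))`: both sides satisfy
`y_ij(t) = l(Z_ij) + ∫ (u₁ y_(i+1,j) + u₂ y_(i,j+1))`, induct downwards on `i + j`;
`[e₂, Z_ij] - Z_(i,j+1)` is in the second derived algebra, which is `Ad`-invariant. `F ≠ 0` since
`l` kills `V₁`, the second derived algebra, and is not zero (the `Z_ij` and the second derived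
algebra span the derived algebra). -/
def MetaStatement : Prop :=
  ∀ (C : Carnot g 2) (N : ℕ), 2 ≤ N → (∀ j, N < j → C.V j = ⊥) →
    ∀ (u : Ctl 2) (l : g →L[ℝ] ℝ), l ≠ 0 → (∀ a, l (C.X a) = 0) →
    (∀ j k, 2 ≤ j → 2 ≤ k → ∀ x ∈ C.V j, ∀ y ∈ C.V k, l (C.br x y) = 0) →
    ∃ F : MvPolynomial (Fin 2) ℝ, F ≠ 0 ∧ F.totalDegree ≤ N - 2 ∧ ∀ t ∈ Icc (0 : ℝ) 1,
      MvPolynomial.eval (fun i => (∫ s in (0 : ℝ)..t, u s) i) F = l (C.Ad u t (ww C)) ∧
      ∀ j, MvPolynomial.eval (fun i => (∫ s in (0 : ℝ)..t, u s) i) (MvPolynomial.pderiv j F) =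
        l (C.Ad u t (C.br (C.X (EuclideanSpace.single j 1)) (ww C)))

end

/-- BEZO (200 lines). Polynomials in two variables without common factor have finitely many common
zeros: in `ℝ[x][y]`, by Gauss' lemma they are coprime in `ℝ(x)[y]`, so `a p + b q = c(x) ≠ 0`;
hence finitely many first coordinates, and by symmetry finitely many second coordinates. -/
def BezoStatement : Prop :=
  ∀ p q : MvPolynomial (Fin 2) ℝ, p ≠ 0 → (∀ d, d ∣ p → d ∣ q → IsUnit d) →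
    {x : Fin 2 → ℝ | MvPolynomial.eval x p = 0 ∧ MvPolynomial.eval x q = 0}.Finite

/-- MULQ (200 lines, uses BEZO). `F` vanishes to second order along a path. Let `T` be the set of
irreducible factors of `F` (up to units) which vanish at infinitely many points of the image of
the path. Such a factor `p` has multiplicity at least two: if `F = p G` with `p` not dividing `G`,
then at the zeros of `p` on the path `G ∇p = ∇F = 0`, and `G = 0` only at finitely many of them,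
so `∂_i p = 0` at infinitely many zeros of `p`, `p ∣ ∂_i p`, `∂_i p = 0` for both `i`, `p` is a
constant. `Q = ∏_T p`: the points of the image where `Q ≠ 0` are finitely many, hence none (the
image is connected and infinite). `Q² ∣ F` gives the degree. (A strong induction on the degree of
`F` is also possible.) -/
def MulqStatement : Prop :=
  ∀ (x : ℝ → Fin 2 → ℝ) (F : MvPolynomial (Fin 2) ℝ), ContinuousOn x (Icc 0 1) →
    (∃ s ∈ Icc (0 : ℝ) 1, ∃ t ∈ Icc (0 : ℝ) 1, x s ≠ x t) → F ≠ 0 →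
    (∀ t ∈ Icc (0 : ℝ) 1, MvPolynomial.eval (x t) F = 0 ∧
      ∀ j, MvPolynomial.eval (x t) (MvPolynomial.pderiv j F) = 0) →
    ∃ Q : MvPolynomial (Fin 2) ℝ, Q ≠ 0 ∧ 2 * Q.totalDegree ≤ F.totalDegree ∧
      ∀ t ∈ Icc (0 : ℝ) 1, MvPolynomial.eval (x t) Q = 0

/-- QUAD (100 lines). A polynomial of degree at most two without constant term. -/
def QuadStatement : Prop :=
  ∀ Q : MvPolynomial (Fin 2) ℝ, Q ≠ 0 → Q.totalDegree ≤ 2 → MvPolynomial.eval 0 Q = 0 →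
    ∃ (β : EE 2 →ₗ[ℝ] ℝ) (S : EE 2 →ₗ[ℝ] EE 2 →ₗ[ℝ] ℝ), (∀ a b, S a b = S b a) ∧
      (β ≠ 0 ∨ S ≠ 0) ∧ (Q.totalDegree ≤ 1 → S = 0) ∧
      ∀ x : EE 2, MvPolynomial.eval (fun i => x i) Q = β x + S x x / 2

/-- At most three straight pieces. -/
def Pieces (u : ℝ → EE 2) : Prop :=
  ∃ (a b : ℝ) (p q q' : EE 2), 0 ≤ a ∧ a ≤ b ∧ b ≤ 1 ∧
    (∀ᵐ t ∂(volume.restrict (Ioc 0 a)), ∃ c : ℝ, u t = c • p) ∧
    (∀ᵐ t ∂(volume.restrict (Ioc a b)), ∃ c : ℝ, u t = c • q) ∧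
    (∀ᵐ t ∂(volume.restrict (Ioc b 1)), ∃ c : ℝ, u t = c • q')

/-- No backtracking. -/
def Noback (u : ℝ → EE 2) : Prop :=
  ∀ (a b : ℝ) (p : EE 2), 0 ≤ a → a < b → b ≤ 1 →
    (∀ᵐ t ∂(volume.restrict (Ioc a b)), ∃ c : ℝ, u t = c • p) → ∫ t in a..b, u t ≠ 0

/-- CONI (250 lines). A path in a conic `β(x) + S(x, x) / 2 = 0` through the origin. If
`β + S(x(t), ·) ≠ 0` for all `t` we are in the second case (differentiate). Otherwise let
`p = x(t₀)` be the singular point; `y = x - p` satisfies `S(y, y) = 0`, `S ≠ 0`. If `S` is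
degenerate, `S = ± κ ⊗ κ`, then `κ(y) = 0` and `u ∈ ker κ`: one straight piece. If it is definite
then `y = 0`, `u = 0`, impossible. If it is indefinite, the path is in a union of two lines; on a
component of `{y ≠ 0}` it is in one of them; a component with both ends in `{y = 0}` is excluded by
`Noback`; so `{y = 0}` is one point (or `u = 0` on an interval). -/
def ConiStatement : Prop :=
  ∀ (u : ℝ → EE 2) (β : EE 2 →ₗ[ℝ] ℝ) (S : EE 2 →ₗ[ℝ] EE 2 →ₗ[ℝ] ℝ), IntegrableOn u (Ioc 0 1) →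
    (∀ᵐ t ∂(volume.restrict (Ioc (0 : ℝ) 1)), u t ≠ 0) → Noback u → (∀ a b, S a b = S b a) →
    (β ≠ 0 ∨ S ≠ 0) →
    (∀ t ∈ Icc (0 : ℝ) 1, β (∫ s in (0 : ℝ)..t, u s) +
      S (∫ s in (0 : ℝ)..t, u s) (∫ s in (0 : ℝ)..t, u s) / 2 = 0) →
    Pieces u ∨ ∃ (Y : EE 2) (N : EE 2 →L[ℝ] EE 2),
      (∀ t ∈ Icc (0 : ℝ) 1, Y + N (∫ s in (0 : ℝ)..t, u s) ≠ 0) ∧
      ∀ᵐ t ∂(volume.restrict (Ioc (0 : ℝ) 1)), ∃ c : ℝ,
        u t = c • (Y + N (∫ s in (0 : ℝ)..t, u s))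

/-- CASR (300 lines). The non-closed case: `α(x) = α₀ + σ(x, ·)` with `σ` not symmetric,
`α(x)(u) = 0` almost everywhere. `k = (- α(x)(e₂), α(x)(e₁))` satisfies `α(x)(k) = 0`, and
`u ∈ ℝ k` where `α(x) ≠ 0`; the hypothesis gives `cr k k' = 0`, so on an interval where
`α(x) ≠ 0` the direction of `k` is constant (`h(t) = cr (k t₀) (k t)` satisfies `h' = c h`,
`c = ⟨k', k⟩ / |k|²`). So the path is straight on each component of `{α(x(t)) ≠ 0}`. Let
`T₀ = {α(x(t)) = 0}`. If `σ` is nondegenerate then `x(t)` is a fixed point for `t ∈ T₀`, a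
component with both ends in `T₀` is excluded by `Noback`, `T₀` contains no interval: at most two
pieces. If `σ` is degenerate, `σ(a, b) = β₁(a) β₂(b)` with `β₁`, `β₂` independent. If `α₀` is not
a multiple of `β₂` then `α(x) ≠ 0` always: one piece. If `α₀ = c β₂` then
`α(x) = (c + β₁(x)) β₂`, `u ∈ ker β₂` outside `T₀`, `β₁(u) = 0` almost everywhere on `T₀`; a
component with both ends in `T₀` has `∫ u ∈ ker β₂ ∩ ker β₁ = 0`, so `T₀` is an interval: three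
pieces. -/
def CasrStatement : Prop :=
  ∀ (u : ℝ → EE 2) (α : EE 2 →ₗ[ℝ] ℝ) (σ : EE 2 →ₗ[ℝ] EE 2 →ₗ[ℝ] ℝ) (ρ : ℝ),
    IntegrableOn u (Ioc 0 1) → (∀ᵐ t ∂(volume.restrict (Ioc (0 : ℝ) 1)), u t ≠ 0) → Noback u →
    ρ ≠ 0 → (∀ a b, σ a b - σ b a = 2 * ρ * cr a b) →
    (∀ᵐ t ∂(volume.restrict (Ioc (0 : ℝ) 1)), α (u t) + σ (∫ s in (0 : ℝ)..t, u s) (u t) = 0) →
    (∀ (a b : ℝ) (k k' : ℝ → EE 2), 0 ≤ a → a < b → b ≤ 1 → IntegrableOn k' (Ioc a b) →
      (∀ t ∈ Icc a b, k t = k a + ∫ s in a..t, k' s) →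
      (∀ᵐ t ∂(volume.restrict (Ioc a b)), ∃ c : ℝ, u t = c • k t) →
      ∀ᵐ t ∂(volume.restrict (Ioc a b)), cr (k t) (k' t) = 0) → Pieces u

section

variable (g : Type) [NormedAddCommGroup g] [NormedSpace ℝ g] [FiniteDimensional ℝ g]

/-- TRAJ (250 lines, uses PROD, FLOW, NILP or only `iter`). Trajectories of affine vector fields.
`θ = ⟨u, Y(x)⟩ / |Y(x)|²` is integrable (`|Y(x(t))|` is bounded below), `φ = ∫ θ`; then
`Y(x(t)) = exp(φ(t) N) Y` (both sides solve `z' = θ N z`, uniqueness by GRON), so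
`u(t) = θ(t) c(φ(t))` with `c(τ) = exp(τ N) Y`. By induction on `k`,
`iter R u k t = J_k(φ(t))`, `J_(k+1)(τ) = ∫_0^τ J_k R(c)` (substitution for the absolutely
continuous `φ`; compare `H57/Para.lean`), hence `Γ_u(1)` is the flow of
`s ↦ φ(1) c(φ(1) s) = exp(s M) v`, `M = φ(1) N`, `v = φ(1) Y` at time `1`. -/
def TrajStatement : Prop :=
  ∀ C : Carnot g 2, ∀ (u : Ctl 2) (Y : EE 2) (N : EE 2 →L[ℝ] EE 2),
    (∀ t ∈ Icc (0 : ℝ) 1, Y + N (∫ s in (0 : ℝ)..t, u s) ≠ 0) →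
    (∀ᵐ t ∂(volume.restrict (Ioc (0 : ℝ) 1)), ∃ c : ℝ,
      u t = c • (Y + N (∫ s in (0 : ℝ)..t, u s))) →
    ∃ (M : EE 2 →L[ℝ] EE 2) (v : EE 2),
      C.Gam u 1 = C.Gam (fun s => NormedSpace.exp (s • M) v) 1

/-- NULL2 (150 lines, uses STRD; compare `H57/Null.lean`, `null_range`). The images of
`(ℝ²)³` and of `{(M, v)}` (dimension `6`) are null in dimension at least `7`: the second map is
the composition of the `C¹` map `End` on `Ctl 2` with the locally Lipschitz map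
`(M, v) ↦ (s ↦ exp(s M) v)`; or show directly that `(M, v) ↦ iter R (exp(· M) v) k t` is
locally Lipschitz, uniformly in `t ∈ [0, 1]`, by induction. -/
def Null2Statement : Prop :=
  ∀ [MeasurableSpace g] [BorelSpace g] (μ : Measure g) [μ.IsAddHaarMeasure] (C : Carnot g 2),
    7 ≤ Module.finrank ℝ g →
    μ {b | ∃ c c' c'' : EE 2, b = Carnot.org (NormedSpace.exp (C.R c) *
      NormedSpace.exp (C.R c') * NormedSpace.exp (C.R c''))} = 0 ∧
    μ {b | ∃ (M : EE 2 →L[ℝ] EE 2) (v : EE 2),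
      b = C.End (fun s => NormedSpace.exp (s • M) v)} = 0

/-- SEVN (80 lines, uses GRADE). Dimensions: the layers are independent (eigenspaces of `D`),
`dim V₁ = 2`, and `V_j ≠ 0` for `j ≤ 6` if `V₆ ≠ 0`. Compare the end of `H57/Data.lean`. -/
def SevnStatement : Prop :=
  ∀ C : Carnot g 2, (C.V 6 ≠ ⊥ → 7 ≤ Module.finrank ℝ g) ∧
    (C.V 3 ≠ ⊥ → 3 ≤ Module.finrank ℝ g)

end

end Pool.Agent.CutLoci
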