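import Pool.Agent.Lib.MP_0e3b4a_gt.All
import Pool.Agent.Lib.MP_0e3b4a_gt.Asm7
import Pool.Agent.Lib.MP_0e3b4a_gt.H91.Loca2
import Pool.Agent.Lib.MP_0e3b4a_gt.H21.Metab
import Pool.Agent.Lib.MP_0e3b4a_gt.H21.Quad
import Pool.Agent.Lib.MP_0e3b4a_gt.H57.Propa
import Pool.Agent.Lib.MP_0e3b4a_gt.H65.Mulq
import Pool.Agent.Lib.MP_0e3b4a_gt.H70.Sevn
import Pool.Agent.Lib.MP_0e3b4a_gt.H72.Nsec
import Pool.Agent.Lib.MP_0e3b4a_gt.H72.Sixt
import Pool.Agent.Lib.MP_0e3b4a_gt.H74.Sixa
import Pool.Agent.Lib.MP_0e3b4a_gt.H75.Traj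
import Pool.Agent.Lib.MP_0e3b4a_gt.H97.Casr
import Pool.Agent.Lib.MP_0e3b4a_gt.H97.Null2

/-! # The modules together, part 3 -/

set_option autoImplicit false

namespace Pool.Agent.CutLoci.All

open MeasureTheory Set

section

variable (g : Type) [NormedAddCommGroup g] [NormedSpace ℝ g] [FiniteDimensional ℝ g] (r : ℕ)

theorem loca2 : Loca2Statement g r :=
  H91.loca2 g r (mult g r) (range g r) (bili g r) (struc g r)

theorem dicho2 : Dicho2 g r := by
  intro _ _ _ μ _ C
  exact dichotomy2 (bad g r) (loca g r) (loca2 g r) (lims g r) (struc g r) (bili g r) (expb g r)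
    (kappa g r) (range g r) (nfun g r) H28.drop H59.rank (strd g r) H28.supg (nuni g r) (mini g r)
    (crit g r) H59.lina H59.linb μ C

theorem sevn : SevnStatement g := H70.sevn g

theorem propa : PropaStatement g r := H57.propa g r (struc g r)

theorem nsec : NsecStatement g := H72.nsec (struc g 2) (propa g 2) (lims g 2)

theorem sixa : SixaStatement g := H74.sixa g (grade g 2)

theorem sixt : SixtStatement g := H72.sixt (struc g 2) (sixa g)

theorem metab : MetaStatement g := H21.metab (struc g 2) (grade g 2)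

theorem null2 : Null2Statement g := H97.null2 g

end

section

variable {g : Type} [NormedAddCommGroup g] [NormedSpace ℝ g] [FiniteDimensional ℝ g] {r : ℕ}

/-- Theorem A, with isotropy. -/
theorem thm_A2 [Nontrivial g] [MeasurableSpace g] [BorelSpace g] (μ : Measure g)
    [μ.IsAddHaarMeasure] (C : Carnot g r) :
    ∀ᵐ x ∂μ, C.Smooth x ∨
      ∃ u, C.IsMin u x ∧ (¬ ∃ l, C.IsNormal u l) ∧ ∃ l, C.Degenerate u l :=
  main_A2 (curveHyp g r) (nuni g r) (dicho2 g r) μ C

/-- Theorem D for step at most seven. -/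
theorem thm_D7 [MeasurableSpace g] [BorelSpace g] (μ : Measure g)
    [μ.IsAddHaarMeasure] (C : Carnot g 2) (hD : Deg6 C) : μ C.cut = 0 := by
  have hnt : Nontrivial g := by
    refine ⟨C.X (EuclideanSpace.single 0 1), 0, fun h => ?_⟩
    have h1 := C.X_inj (h.trans (map_zero C.X).symm)
    have h2 := congrArg (fun v : EE 2 => v 0) h1
    simp at h2
  exact main_E (curveHyp g 2) (nuni g 2) (dicho2 g 2) μ C
    (rank_two7 H16.flow_thm H30.prod (grade g 2) (nilp g 2) line (spee g 2) (noba g 2) (triv g)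
      (H57.null g) linx (nsec g) (sixa g) (sixt g) (metab g) H65.mulq H21.quad H97.coni H97.casr
      (H75T.traj g) (null2 g) (sevn g) μ C hD)

/-- Step at most six. -/
theorem deg6_of_le (C : Carnot g 2) (hs : C.s ≤ 6) : Deg6 C := by
  obtain ⟨hgr, -⟩ := grade g 2 C
  have h7 : C.V 7 = ⊥ := C.V_big 7 (by omega)
  refine ⟨by omega, fun x hx y hy => ?_, fun x hx y hy => ?_⟩
  · have h := hgr 2 5 x hx y hy
    rw [h7, Submodule.mem_bot] at h
    exact h
  · have h := hgr 3 4 x hx y hy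
    rw [h7, Submodule.mem_bot] at h
    exact h

end

end Pool.Agent.CutLoci.All
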