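import Pool.Agent.Lib.MP_0e3b4a_gt.Iface

/-! # Assembly 1: the dichotomy in the chart -/

set_option autoImplicit false
set_option linter.unusedSectionVars false

namespace Pool.Agent.CutLoci

open MeasureTheory Set Filter Topology

section

variable {g : Type} [NormedAddCommGroup g] [NormedSpace ℝ g] [FiniteDimensional ℝ g] {r : ℕ}

theorem f_nonneg (C : Carnot g r) (b : g) : 0 ≤ C.f b := by
  refine Real.sInf_nonneg ?_
  rintro c ⟨u, _, rfl⟩
  positivity

theorem f_le (C : Carnot g r) (u : Ctl r) : C.f (C.End u) ≤ ‖u‖ ^ 2 / 2 := by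
  refine csInf_le ⟨0, ?_⟩ ⟨u, rfl, rfl⟩
  rintro c ⟨v, _, rfl⟩
  positivity

theorem f_eq (C : Carnot g r) (u : Ctl r) (hu : C.EMin u) : C.f (C.End u) = ‖u‖ ^ 2 / 2 := by
  refine le_antisymm (f_le C u) (le_csInf ⟨_, u, rfl, rfl⟩ ?_)
  rintro c ⟨v, hv, rfl⟩
  have h1 := hu v hv
  have h2 := norm_nonneg u
  nlinarith

/-- FINITE: a form of finite rank on the kernel gives the conditions N'. -/
theorem finite_nprime (hBad : BadStatement g r) (hLoca : LocaStatement g r)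
    (hLims : LimsStatement g r) (hStruc : StrucStatement g r) (C : Carnot g r) (u : Ctl r)
    (l : g →L[ℝ] ℝ) (hl : C.Sing u l) (N : Submodule ℝ (Ctl r)) (n : ℕ)
    (h1 : ∀ x : Fin (n + 1) → Ctl r, (∀ i, C.Ker u (x i)) → ∃ c : Fin (n + 1) → ℝ, c ≠ 0 ∧
      ∑ i, c i • x i ∈ N)
    (h2 : ∀ x ∈ N, ∀ k : Ctl r, C.Ker u x → C.Ker u k → l (C.Q u k x) = 0) : C.NPrime u l := by
  have hint : IntegrableOn (u : ℝ → EE r) (Ioc 0 1) :=
    (Lp.memLp u).integrable (by norm_num)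
  obtain ⟨_, hc, hst⟩ := hStruc C u hint
  obtain ⟨Z, hZ⟩ := hBad C u l N n h1 h2
  obtain ⟨hL1, hL2⟩ := hLims C u
  -- good times
  have h3 : ∀ t ∈ Ioo (0 : ℝ) 1, t ∉ Z → ∀ y ∈ leftS C u t ⊓ rightS C u t, ∀ c,
      l (C.br y (C.Ad u t (C.X c))) = 0 := fun t ht htZ y hy c =>
    hLoca C u l t (hZ t ht htZ) y hy c
  have h4 : ∀ t ∈ Ioo (0 : ℝ) 1, t ∉ Z → ∀ a b, l (C.Ad u t (C.br (C.X a) (C.X b))) = 0 := by
    intro t ht htZ a b
    rw [(hst t (Ioo_subset_Icc_self ht)).2.1]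
    exact h3 t ht htZ _ (hL1 t ht a) b
  refine ⟨hl, ?_, ?_⟩
  · -- continuity
    intro t ht a b
    have hcont : ContinuousOn (fun t => l (C.Ad u t (C.br (C.X a) (C.X b)))) (Icc 0 1) :=
      l.continuous.comp_continuousOn (hc.clm_apply continuousOn_const)
    have hdense : Icc (0 : ℝ) 1 ⊆ closure (Ioo (0 : ℝ) 1 \ (Z : Set ℝ)) := by
      have h5 : Dense ((Z : Set ℝ)ᶜ) := Z.countable_toSet.dense_compl ℝ
      have h6 : Ioo (0 : ℝ) 1 ⊆ closure (Ioo (0 : ℝ) 1 ∩ (Z : Set ℝ)ᶜ) :=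
        h5.open_subset_closure_inter isOpen_Ioo
      rw [← closure_Ioo (by norm_num : (0 : ℝ) ≠ 1)]
      exact closure_minimal h6 isClosed_closure
    have hcl : t ∈ closure (Ioo (0 : ℝ) 1 \ (Z : Set ℝ)) := hdense ht
    have h7 : ContinuousWithinAt (fun t => l (C.Ad u t (C.br (C.X a) (C.X b))))
        (Ioo (0 : ℝ) 1 \ (Z : Set ℝ)) t :=
      (hcont t ht).mono (fun s hs => Ioo_subset_Icc_self hs.1)
    have h8 := h7.mem_closure (s := (Ioo (0 : ℝ) 1 \ (Z : Set ℝ))) (t := {0}) hcl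
      (fun s hs => h4 s hs.1 (by simpa using hs.2) a b)
    simpa using h8
  · -- almost every time
    have hae : ∀ᵐ t ∂(volume.restrict (Ioc (0 : ℝ) 1)), t ∈ Ioo (0 : ℝ) 1 ∧ t ∉ Z := by
      have h5 : ∀ᵐ t ∂(volume.restrict (Ioc (0 : ℝ) 1)), t ∈ Ioc (0 : ℝ) 1 :=
        ae_restrict_mem measurableSet_Ioc
      have h6 : ∀ᵐ t ∂(volume.restrict (Ioc (0 : ℝ) 1)), t ∉ (insert 1 (Z : Set ℝ)) := by
        refine ae_restrict_of_ae ?_
        have h7 : volume (insert 1 (Z : Set ℝ)) = 0 :=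
          (Z.countable_toSet.insert 1).measure_zero _
        exact measure_eq_zero_iff_ae_notMem.1 h7
      filter_upwards [h5, h6] with t ht1 ht2
      rw [mem_insert_iff, not_or] at ht2
      exact ⟨⟨ht1.1, lt_of_le_of_ne ht1.2 ht2.1⟩, by simpa using ht2.2⟩
    filter_upwards [hae, hL2] with t ht1 ht2 a b
    rw [(hst t (Ioo_subset_Icc_self ht1.1)).2.1]
    exact h3 t ht1.1 ht1.2 _ (ht2 a) b

/-- STRICT: for a minimiser, the energy drops at the endpoint, or the control is normal, or the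
conditions N' hold. -/
theorem strict (hBad : BadStatement g r) (hLoca : LocaStatement g r)
    (hLims : LimsStatement g r) (hStruc : StrucStatement g r) (hBili : BiliStatement g r)
    (hExpb : ExpbStatement g r) (hKappa : KappaStatement g r) (hRange : RangeStatement g r)
    (hNfun : NfunStatement g r) (hDrop : DropStatement) (hRank : RankStatement)
    (C : Carnot g r) (u : Ctl r) (hu : C.EMin u) :
    DropAt C.f (C.End u) ∨ (∃ l, C.Normal u l) ∨ ∃ l, C.NPrime u l := by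
  obtain ⟨⟨Lf, hLf⟩, ⟨B, hB⟩, _, _⟩ := hBili C u
  have hL1 : ∀ x : Ctl r, Lf 1 x = C.W u x 1 := hLf 1 ⟨zero_le_one, le_rfl⟩
  let K : Submodule ℝ (Ctl r) := LinearMap.ker (Lf 1).toLinearMap
  have hK : ∀ x : Ctl r, x ∈ K ↔ C.Ker u x := by
    intro x
    rw [LinearMap.mem_ker]
    show Lf 1 x = 0 ↔ C.W u x 1 = 0
    rw [hL1]
  by_cases hφ : ∀ x : Ctl r, C.Ker u x → inner ℝ u x = (0 : ℝ)
  · exact Or.inr (Or.inl ((hNfun C u).1 hφ))
  push Not at hφ
  obtain ⟨x0, hx0, hne⟩ := hφ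
  -- the functional
  let φ : K →ₗ[ℝ] ℝ := (innerSL ℝ u).toLinearMap ∘ₗ K.subtype
  have hφv : ∀ v : K, φ v = inner ℝ u (v : Ctl r) := fun v => rfl
  have hneg : ∃ v : K, φ v < 0 := by
    rcases lt_or_gt_of_ne hne with h | h
    · exact ⟨⟨x0, (hK x0).2 hx0⟩, h⟩
    · refine ⟨-⟨x0, (hK x0).2 hx0⟩, ?_⟩
      rw [map_neg]
      show -(inner ℝ u x0 : ℝ) < 0
      linarith
  let BK : K →ₗ[ℝ] K →ₗ[ℝ] g :=
    { toFun := fun v => (B (v : Ctl r)).toLinearMap ∘ₗ K.subtype
      map_add' := fun v w => by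
        ext k
        show B ((v : Ctl r) + w) k = B v k + B w k
        rw [map_add]; rfl
      map_smul' := fun c v => by
        ext k
        show B (c • (v : Ctl r)) k = c • B v k
        rw [map_smul]; rfl }
  have hBK : ∀ v k : K, BK v k = C.Q u (v : Ctl r) (k : Ctl r) := fun v k => hB v k
  have hend : C.f (C.End u) = ‖u‖ ^ 2 / 2 := f_eq C u hu
  rcases hRank K g BK φ (LinearMap.range (Lf 1).toLinearMap) hneg with h | h
  · -- drop
    left
    obtain ⟨v, hv, hon⟩ := h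
    obtain ⟨G, hG1, hG2, hG3⟩ := hExpb C u
    let Bd : Ctl r →L[ℝ] g := (C.kap (C.End u)).comp (Lf 1)
    have hBd : ∀ x, Bd x = C.kap (C.End u) (C.W u x 1) := by
      intro x
      show C.kap (C.End u) (Lf 1 x) = _
      rw [hL1]
    have hker : ∀ x : Ctl r, Bd x = 0 ↔ C.Ker u x := by
      intro x
      rw [hBd]
      constructor
      · intro h
        exact (hKappa C (C.End u)).1 (by rw [h, map_zero])
      · intro h
        have h' : C.W u x 1 = 0 := h
        rw [h', map_zero]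
    obtain ⟨O, c, s0, hO, hOne, hc, hs0, hd⟩ := hDrop (Ctl r) g (fun v => C.End v) u Bd G hG1
      (fun δ x => by rw [hBd]; exact hG2 δ x) (v : Ctl r) ((hker _).2 ((hK _).1 v.2)) hv (by
        intro e
        obtain ⟨e', he'⟩ := (hKappa C (C.End u)).2 e
        obtain ⟨k, i, ⟨h', hh'⟩, hki⟩ := hon e'
        refine ⟨k, h', (hker _).2 ((hK _).1 k.2), ?_⟩
        rw [hG3 _ _ ((hK _).1 v.2) ((hK _).1 k.2), hBd, ← map_add, ← he']
        congr 1
        rw [← hki, hBK, ← hh']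
        congr 1
        exact (hL1 h').symm)
    refine ⟨O, c, s0, hO, hOne, hc, hs0, fun ξ hξ s hs => ?_⟩
    obtain ⟨u', hu', hle⟩ := hd ξ hξ s hs
    rw [hend, ← hu']
    exact (f_le C u').trans hle
  · -- finite rank
    right; right
    obtain ⟨l0, hl0, hlI, N, hN1, hN2⟩ := h
    let l : g →L[ℝ] ℝ := LinearMap.toContinuousLinearMap l0
    have hll : ∀ x, l x = l0 x := fun x => rfl
    have hlne : l ≠ 0 := by
      intro h
      refine hl0 (LinearMap.ext fun x => ?_)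
      rw [← hll, h]; rfl
    have hsing : C.Sing u l := by
      refine ⟨hlne, ?_⟩
      refine (hRange C u l 0 1 le_rfl one_pos le_rfl).1 fun x _ => ?_
      rw [hll, ← hL1]
      exact hlI _ ⟨x, rfl⟩
    refine ⟨l, finite_nprime hBad hLoca hLims hStruc C u l hsing (N.map K.subtype)
      (Module.finrank ℝ (K ⧸ N)) ?_ ?_⟩
    · intro x hx
      have h3 : ¬ LinearIndependent ℝ (fun i => N.mkQ ⟨x i, (hK _).2 (hx i)⟩) := by
        intro hli
        have := hli.fintype_card_le_finrank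
        simp at this
      rw [Fintype.not_linearIndependent_iff] at h3
      obtain ⟨c, hc, i, hi⟩ := h3
      refine ⟨c, fun h => hi (congrFun h i), ?_⟩
      refine ⟨∑ i, c i • ⟨x i, (hK _).2 (hx i)⟩, ?_, ?_⟩
      · have h5 : N.mkQ (∑ i, c i • (⟨x i, (hK _).2 (hx i)⟩ : K)) = 0 := by
          rw [map_sum, ← hc]
          exact Finset.sum_congr rfl fun i _ => map_smul _ _ _
        exact (Submodule.Quotient.mk_eq_zero N).1 h5
      · rw [map_sum]
        exact Finset.sum_congr rfl fun i _ => rfl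
    · rintro _ ⟨x, hx, rfl⟩ k _ hk
      rw [hll]
      have h4 := hN2 x hx ⟨k, (hK _).2 hk⟩
      rw [hBK] at h4
      exact h4

end

end Pool.Agent.CutLoci
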