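import Pool.Agent.Lib.MP_0e3b4a_gt.Asm1

/-! # Assembly 2: almost every point is smooth or has a strictly abnormal minimiser with N' -/

set_option autoImplicit false
set_option linter.unusedSectionVars false

namespace Pool.Agent.CutLoci

open MeasureTheory Set Filter Topology

section

variable {g : Type} [NormedAddCommGroup g] [NormedSpace ℝ g] [FiniteDimensional ℝ g] {r : ℕ}

/-- A control which is not singular has surjective first variation. -/
theorem surj_of_not_sing (hBili : BiliStatement g r) (hRange : RangeStatement g r)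
    (C : Carnot g r) (u : Ctl r) (h : ¬ ∃ l, C.Sing u l) (w : g) : ∃ x : Ctl r, C.W u x 1 = w := by
  obtain ⟨⟨Lf, hLf⟩, _⟩ := hBili C u
  have hL1 : ∀ x : Ctl r, Lf 1 x = C.W u x 1 := hLf 1 ⟨zero_le_one, le_rfl⟩
  by_contra hw
  have h1 : LinearMap.range (Lf 1).toLinearMap ≠ ⊤ := by
    intro h2
    have h3 : w ∈ LinearMap.range (Lf 1).toLinearMap := h2 ▸ Submodule.mem_top
    obtain ⟨x, hx⟩ := h3
    exact hw ⟨x, by rw [← hL1]; exact hx⟩
  obtain ⟨l0, hl0, hl1⟩ := Submodule.exists_le_ker_of_lt_top _ (lt_top_iff_ne_top.2 h1)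
  refine h ⟨LinearMap.toContinuousLinearMap l0, ?_, ?_⟩
  · intro h2
    refine hl0 (LinearMap.ext fun x => ?_)
    have h3 : LinearMap.toContinuousLinearMap l0 x = 0 := by rw [h2]; rfl
    exact h3
  · refine (hRange C u _ 0 1 le_rfl one_pos le_rfl).1 fun x _ => ?_
    rw [← hL1]
    exact hl1 ⟨x, rfl⟩

/-- Supergradients at normal regular minimisers. -/
theorem super (hBili : BiliStatement g r) (hRange : RangeStatement g r)
    (hKappa : KappaStatement g r) (hStrd : StrdStatement g r) (hNfun : NfunStatement g r)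
    (hSupg : SupgStatement) (C : Carnot g r) (u : Ctl r) (hu : C.EMin u) (l : g →L[ℝ] ℝ)
    (hl : C.Normal u l) (hs : ¬ ∃ l, C.Sing u l) :
    ∃ p : g →L[ℝ] ℝ, (∀ w, p (C.kap (C.End u) w) = l w) ∧ SuperAt C.f (C.End u) p := by
  obtain ⟨L, hL1, hL2⟩ := (hStrd C).2 u
  let e : g ≃ₗ[ℝ] g := LinearEquiv.ofBijective (C.kap (C.End u)).toLinearMap
    (hKappa C (C.End u))
  have he : ∀ w, e.symm (C.kap (C.End u) w) = w := fun w => e.symm_apply_apply w
  let p : g →L[ℝ] ℝ := LinearMap.toContinuousLinearMap (l.toLinearMap ∘ₗ e.symm.toLinearMap)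
  have hp : ∀ w, p (C.kap (C.End u) w) = l w := by
    intro w
    show l (e.symm (C.kap (C.End u) w)) = l w
    rw [he]
  refine ⟨p, hp, fun ξ ε hε => ?_⟩
  obtain ⟨s0, hs0, h⟩ := hSupg (Ctl r) g (fun v => C.End v) u L p hL1 (by
      intro e
      obtain ⟨w, hw⟩ := (hKappa C (C.End u)).2 e
      obtain ⟨x, hx⟩ := surj_of_not_sing hBili hRange C u hs w
      exact ⟨x, by rw [hL2, hx, hw]⟩) (by
      intro x
      rw [hL2, hp]
      exact (hNfun C u).2 l hl x) ξ ε hε
  refine ⟨s0, hs0, fun s hss => ?_⟩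
  obtain ⟨u', hu', hle⟩ := h s hss
  rw [f_eq C u hu, ← hu']
  exact (f_le C u').trans hle

/-- The value of the normal exponential map. -/
theorem nexpE_eq (hNuni : NuniStatement g r) (C : Carnot g r) (u : Ctl r) (l : g →L[ℝ] ℝ)
    (hl : C.Normal u l) : C.nexpE l = C.End u := by
  have h : ∃ u : Ctl r, C.Normal u l := ⟨u, hl⟩
  unfold Carnot.nexpE
  rw [dif_pos h, hNuni C _ _ l h.choose_spec hl]

/-- Singular normal controls are conjugate. -/
theorem conj_of_sing (hNuni : NuniStatement g r) (C : Carnot g r) (u : Ctl r)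
    (l : g →L[ℝ] ℝ) (hl : C.Normal u l) (hs : ∃ l, C.Sing u l) : C.ConjE u := by
  obtain ⟨m, hm0, hm⟩ := hs
  refine ⟨l, hl, ?_⟩
  rintro ⟨A, hA⟩
  have h1 : ∀ s : ℝ, C.nexpE (l + s • m) = C.End u := by
    intro s
    refine nexpE_eq hNuni C u _ ?_
    have hmem : ∀ᵐ t ∂(volume.restrict (Ioc (0 : ℝ) 1)), t ∈ Ioc (0 : ℝ) 1 :=
      ae_restrict_mem measurableSet_Ioc
    filter_upwards [hl, hmem] with t ht ht1 a
    rw [ht a]
    show l _ = l _ + s • m _
    rw [hm t (Ioc_subset_Icc_self ht1), smul_zero, add_zero]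
  have h2 : HasDerivAt (fun s : ℝ => C.nexpE (l + s • m)) (A m) 0 := by
    have h3 : HasDerivAt (fun s : ℝ => l + s • m) m 0 := by
      simpa using ((hasDerivAt_id (0 : ℝ)).smul_const m).const_add l
    have h4 : HasFDerivAt C.nexpE (A : (g →L[ℝ] ℝ) →L[ℝ] g) (l + (0 : ℝ) • m) := by
      simpa using hA
    exact h4.comp_hasDerivAt 0 h3
  have h5 : (fun s : ℝ => C.nexpE (l + s • m)) = fun _ => C.End u := funext h1
  rw [h5] at h2
  have h6 : A m = 0 := h2.unique (hasDerivAt_const _ _)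
  exact hm0 (A.injective (by rw [h6, map_zero]))

/-- THE DICHOTOMY in the chart. -/
theorem dichotomy (hBad : BadStatement g r) (hLoca : LocaStatement g r)
    (hLims : LimsStatement g r) (hStruc : StrucStatement g r) (hBili : BiliStatement g r)
    (hExpb : ExpbStatement g r) (hKappa : KappaStatement g r) (hRange : RangeStatement g r)
    (hNfun : NfunStatement g r) (hDrop : DropStatement) (hRank : RankStatement)
    (hStrd : StrdStatement g r) (hSupg : SupgStatement) (hNuni : NuniStatement g r)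
    (hMini : MiniStatement g r) (hCrit : CritStatement g r) (hLina : LinaStatement)
    (hLinb : LinbStatement) [Nontrivial g] [MeasurableSpace g] [BorelSpace g] (μ : Measure g)
    [μ.IsAddHaarMeasure] (C : Carnot g r) :
    ∀ᵐ b ∂μ, C.SmoothE b ∨ ∃ u : Ctl r, C.EMin u ∧ C.End u = b ∧ (¬ ∃ l, C.Normal u l) ∧
      ∃ l, C.NPrime u l := by
  obtain ⟨hmin, hlsc⟩ := hMini C
  have h1 : ∀ᵐ b ∂μ, ¬ DropAt C.f b :=
    measure_eq_zero_iff_ae_notMem.1 (hLina g μ C.f hlsc (f_nonneg C))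
  have h2 : ∀ᵐ b ∂μ, ¬ ∃ p p' : g →L[ℝ] ℝ, p ≠ p' ∧ SuperAt C.f b p ∧ SuperAt C.f b p' :=
    measure_eq_zero_iff_ae_notMem.1 (hLinb g μ C.f hlsc)
  have h3 : ∀ᵐ b ∂μ, ¬ ∃ u : Ctl r, C.End u = b ∧ C.ConjE u :=
    measure_eq_zero_iff_ae_notMem.1 (hCrit μ C)
  have h4 : ∀ᵐ b ∂μ, b ≠ 0 := by
    have h5 : μ {(0 : g)} = 0 := measure_singleton 0
    exact measure_eq_zero_iff_ae_notMem.1 h5
  filter_upwards [h1, h2, h3, h4] with b hb1 hb2 hb3 hb4
  by_cases hN : ∃ u : Ctl r, C.EMin u ∧ C.End u = b ∧ (¬ ∃ l, C.Normal u l) ∧ ∃ l, C.NPrime u l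
  · exact Or.inr hN
  left
  -- every minimiser is normal
  have hnor : ∀ u : Ctl r, C.EMin u → C.End u = b → ∃ l, C.Normal u l := by
    intro u hu hub
    by_contra hnn
    rcases strict hBad hLoca hLims hStruc hBili hExpb hKappa hRange hNfun hDrop hRank C u hu
      with h | h | h
    · rw [hub] at h
      exact hb1 h
    · exact hnn h
    · exact hN ⟨u, hu, hub, hnn, h⟩
  have hnc : ∀ u : Ctl r, C.End u = b → ¬ C.ConjE u := fun u hub hc => hb3 ⟨u, hub, hc⟩
  have hns : ∀ u : Ctl r, C.EMin u → C.End u = b → ¬ ∃ l, C.Sing u l := by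
    intro u hu hub hs
    obtain ⟨l, hl⟩ := hnor u hu hub
    exact hnc u hub (conj_of_sing hNuni C u l hl hs)
  obtain ⟨u, hu, hub⟩ := hmin b
  refine ⟨hb4, u, hu, hub, ?_, hns u hu hub, hnc u hub⟩
  intro v hv hvb
  obtain ⟨l, hl⟩ := hnor u hu hub
  obtain ⟨m, hm⟩ := hnor v hv hvb
  obtain ⟨p, hp1, hp2⟩ := super hBili hRange hKappa hStrd hNfun hSupg C u hu l hl (hns u hu hub)
  obtain ⟨q, hq1, hq2⟩ := super hBili hRange hKappa hStrd hNfun hSupg C v hv m hm (hns v hv hvb)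
  rw [hub] at hp1 hp2
  rw [hvb] at hq1 hq2
  by_cases hpq : p = q
  · have hlm : l = m := by
      ext w
      rw [← hp1, ← hq1, hpq]
    subst hlm
    exact hNuni C v u l hm hl
  · exact absurd ⟨p, q, hpq, hp2, hq2⟩ hb2

end

end Pool.Agent.CutLoci
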