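import Pool.Agent.Lib.MP_0e3b4a_gt.Iface

/-! # Statements of the modules, second part: rank two, and exponential coordinates -/

set_option autoImplicit false

namespace Pool.Agent.CutLoci

open MeasureTheory Set Filter Topology

/-! ## S. Speed -/

section

variable (g : Type) [NormedAddCommGroup g] [NormedSpace ℝ g] [FiniteDimensional ℝ g] (r : ℕ)

/-- REPA (180 lines, uses FLOW, UNIQ). Reparametrisation by arc length. `L = ∫‖u‖`,
`σ(t) = ∫_0^t ‖u‖ / L`. The vector measure `σ_*(u dt)` is absolutely continuous with respect to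
`σ_*(‖u‖ dt) = L ds` on `[0, 1]` with density `w`, `‖w‖ ≤ L` (or: represent the functional
`φ ↦ ∫ φ(σ(t)) ⟨a, u(t)⟩ dt` on `L²(0, 1)`). The flow `G` of `w` satisfies
`G(σ(t)) = 1 + ∫_0^{σ(t)} G R(w) = 1 + ∫_0^t G(σ) R(u)`, so it is the flow of `u` at time `t`. -/
def RepaStatement : Prop :=
  ∀ C : Carnot g r, ∀ u : ℝ → EE r, IntegrableOn u (Ioc 0 1) → ∃ w : Ctl r,
    (∀ᵐ t ∂(volume.restrict (Ioc (0 : ℝ) 1)), ‖w t‖ ≤ ∫ s in (0 : ℝ)..1, ‖u s‖) ∧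
    C.Gam w 1 = C.Gam u 1

/-- SPEE (80 lines, uses REPA). Energy minimisers have constant speed (equality in the
Cauchy-Schwarz inequality). -/
def SpeeStatement : Prop :=
  ∀ C : Carnot g r, ∀ u : Ctl r, C.EMin u →
    ∀ᵐ t ∂(volume.restrict (Ioc (0 : ℝ) 1)), ‖u t‖ = ‖u‖

/-- NOBA (120 lines, uses FLOW, UNIQ, RESC, LINE, NILP). No backtracking: if `u ∈ ℝ p` on
`(a, b)` and `∫_a^b u = 0` then the minimiser `u` vanishes there: otherwise replace it by `0` on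
`(a, b)`. -/
def NobaStatement : Prop :=
  ∀ C : Carnot g r, ∀ u : Ctl r, C.EMin u → ∀ (a b : ℝ) (p : EE r), 0 ≤ a → a ≤ b → b ≤ 1 →
    (∀ᵐ t ∂(volume.restrict (Ioc a b)), ∃ c : ℝ, u t = c • p) → ∫ t in a..b, u t = 0 →
    ∀ᵐ t ∂(volume.restrict (Ioc a b)), u t = 0

/-! ## T. Rank two -/

/-- TRIV (80 lines, uses STRUC). In rank two the covector also kills `Ad_t V₃`:
`[X a, X b]` is a multiple of `w = [X e₁, X e₂]`, and for `u(t) ≠ 0` there is `a` with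
`[X u(t), X a] = w`; continuity. -/
def TrivStatement : Prop :=
  ∀ C : Carnot g 2, ∀ (u : Ctl 2) (l : g →L[ℝ] ℝ), C.NPrime u l →
    (∀ᵐ t ∂(volume.restrict (Ioc (0 : ℝ) 1)), u t ≠ 0) →
    ∀ t ∈ Icc (0 : ℝ) 1, ∀ a b c, l (C.Ad u t (C.br (C.br (C.X a) (C.X b)) (C.X c))) = 0

/-- DATA (200 lines, uses TRIV, STRUC, GRADE). The planar problem:
`S0(a, b) = l [a, [b, w]]`, `T(c, a, b) = l [c, [a, [b, w]]]`, `w = [X e₁, X e₂]`; with
`l(Ad_t [b, w]) = 0` for all `t` and `Ad_t = 1 + ∫ Ad_s ad(X u)` the form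
`S_t(a, b) = l(Ad_t [a, [b, w]])` is `S0 + T(∫_0^t u)` (`V_5` is central), and `S_t(u(t), b) = 0`.
If `S0 = 0` and `T = 0` then `l = 0`. If `S0 ≠ 0` or `T ≠ 0` then `V_4 ≠ 0` (so the dimension is
at least `2 + 1 + 1 + 1`), and if `T ≠ 0` then `V_5 ≠ 0`. -/
def DataStatement : Prop :=
  ∀ C : Carnot g 2, C.s ≤ 5 → ∀ (u : Ctl 2) (l : g →L[ℝ] ℝ), C.NPrime u l →
    (∀ᵐ t ∂(volume.restrict (Ioc (0 : ℝ) 1)), u t ≠ 0) →
    ∃ (S0 : EE 2 →ₗ[ℝ] EE 2 →ₗ[ℝ] ℝ) (T : EE 2 →ₗ[ℝ] EE 2 →ₗ[ℝ] EE 2 →ₗ[ℝ] ℝ),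
      (∀ a b, S0 a b = S0 b a) ∧ (∀ c a b, T c a b = T c b a) ∧ (S0 ≠ 0 ∨ T ≠ 0) ∧
      5 ≤ Module.finrank ℝ g ∧ (T ≠ 0 → 6 ≤ Module.finrank ℝ g) ∧
      ∀ᵐ t ∂(volume.restrict (Ioc (0 : ℝ) 1)), ∀ b,
        S0 (u t) b + T (∫ s in (0 : ℝ)..t, u s) (u t) b = 0

/-- PARA (200 lines, uses FLOW, UNIQ, PROD, NILP). The endpoint over a path in a parabola
depends only on the last parameter: `Γ_u(t) = Π(τ(x(t)))` where `Π` is the flow of
`σ ↦ p + 2 σ q` (for all real `σ`), by the chain rule; then rescale time. -/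
def ParaStatement : Prop :=
  ∀ C : Carnot g 2, ∀ (u : Ctl 2) (τ : EE 2 →ₗ[ℝ] ℝ) (p q : EE 2),
    (∀ t ∈ Icc (0 : ℝ) 1, ∫ s in (0 : ℝ)..t, u s =
      τ (∫ s in (0 : ℝ)..t, u s) • p + (τ (∫ s in (0 : ℝ)..t, u s)) ^ 2 • q) →
    ∃ P Q : EE 2, C.Gam u 1 = C.Gam (fun t => P + (2 * t) • Q) 1

/-- NULL (150 lines, uses NILP, FLOW, STRD). The sets of possible endpoints are images of `C¹` (in fact
polynomial) maps from `ℝ²`, `ℝ⁵`, `ℝ⁴`; such images are null in dimension at least `3`, `6`, `5`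
(compose with a linear surjection `g → ℝ^k` and use
`addHaar_image_eq_zero_of_det_fderivWithin_eq_zero`). The second set is the union of the images of
`(p, q, r) ↦ (p, q, r p)` and `(q, p) ↦ (0, q, p)`. -/
def NullStatement : Prop :=
  ∀ [MeasurableSpace g] [BorelSpace g] (μ : Measure g) [μ.IsAddHaarMeasure] (C : Carnot g 2),
    (3 ≤ Module.finrank ℝ g → μ {b | ∃ c : EE 2, b = Carnot.org (NormedSpace.exp (C.R c))} = 0) ∧
    (6 ≤ Module.finrank ℝ g → μ {b | ∃ (p c2 : EE 2) (r r' : ℝ), b = Carnot.org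
      (NormedSpace.exp (C.R (r • p)) * NormedSpace.exp (C.R c2) *
        NormedSpace.exp (C.R (r' • p)))} = 0) ∧
    (6 ≤ Module.finrank ℝ g → μ {b | ∃ P Q : EE 2, b = C.End (fun t => P + (2 * t) • Q)} = 0)

end

/-- The determinant of a bilinear form on the plane. -/
noncomputable def det2 (S : EE 2 →ₗ[ℝ] EE 2 →ₗ[ℝ] ℝ) : ℝ :=
  S (EuclideanSpace.single 0 1) (EuclideanSpace.single 0 1) *
    S (EuclideanSpace.single 1 1) (EuclideanSpace.single 1 1) -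
  S (EuclideanSpace.single 0 1) (EuclideanSpace.single 1 1) *
    S (EuclideanSpace.single 1 1) (EuclideanSpace.single 0 1)

/-- DETZ (150 lines). With `S(t) = S0 + T(x(t))`, `x(t) = ∫_0^t u`: `det S(t) = 0` for all `t`
(continuity), and almost everywhere `T(u, u, u) = 0`, and `T(u, ·, ·) = 0` where `S(t) = 0`.
Differentiate `det S = 0`: `tr(adj(S) S') = 0`, and `adj(S) = tr(S) u uᵀ / |u|²` if
`S ≠ 0`, `S u = 0`. Where `S(t) = 0` and `t` is an accumulation point of the zero set (all but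
countably many) the derivative `T(u(t), ·, ·)` of `S` vanishes. -/
def DetzStatement : Prop :=
  ∀ (u : ℝ → EE 2) (S0 : EE 2 →ₗ[ℝ] EE 2 →ₗ[ℝ] ℝ) (T : EE 2 →ₗ[ℝ] EE 2 →ₗ[ℝ] EE 2 →ₗ[ℝ] ℝ),
    IntegrableOn u (Ioc 0 1) → (∀ᵐ t ∂(volume.restrict (Ioc (0 : ℝ) 1)), u t ≠ 0) →
    (∀ a b, S0 a b = S0 b a) → (∀ c a b, T c a b = T c b a) →
    (∀ᵐ t ∂(volume.restrict (Ioc (0 : ℝ) 1)), ∀ b,
      S0 (u t) b + T (∫ s in (0 : ℝ)..t, u s) (u t) b = 0) →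
    (∀ t ∈ Icc (0 : ℝ) 1, det2 (S0 + T (∫ s in (0 : ℝ)..t, u s)) = 0) ∧
    (∀ᵐ t ∂(volume.restrict (Ioc (0 : ℝ) 1)), T (u t) (u t) (u t) = 0) ∧
    (∀ᵐ t ∂(volume.restrict (Ioc (0 : ℝ) 1)), S0 + T (∫ s in (0 : ℝ)..t, u s) = 0 →
      T (u t) = 0)

/-- CUBZ (100 lines). If the cubic form of `T` vanishes then `x(t)` moves on a parabola or a line.
In coordinates `T(x) = [[-2 m x₂, m x₁ + n x₂], [m x₁ + n x₂, -2 n x₁]]`, `S0 = [[α, β], [β, γ]]`,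
`αγ = β²`, and `det = 0` reads `τ(x)² = -2 σ(x)` with `τ(x) = m x₁ - n x₂`,
`σ(x) = (nα + mβ) x₁ + (mγ + nβ) x₂`. If `σ`, `τ` are independent: a parabola; if `σ = κ τ` then
`τ(x) ∈ {0, -2κ}`, so `τ(x(t)) = 0` by continuity. -/
def CubzStatement : Prop :=
  ∀ (x : ℝ → EE 2) (S0 : EE 2 →ₗ[ℝ] EE 2 →ₗ[ℝ] ℝ) (T : EE 2 →ₗ[ℝ] EE 2 →ₗ[ℝ] EE 2 →ₗ[ℝ] ℝ),
    ContinuousOn x (Icc 0 1) → x 0 = 0 → (∀ a b, S0 a b = S0 b a) →
    (∀ c a b, T c a b = T c b a) → T ≠ 0 → (∀ v, T v v v = 0) →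
    (∀ t ∈ Icc (0 : ℝ) 1, det2 (S0 + T (x t)) = 0) →
    (∃ τ : EE 2 →ₗ[ℝ] ℝ, τ ≠ 0 ∧ ∀ t ∈ Icc (0 : ℝ) 1, τ (x t) = 0) ∨
    (∃ (τ : EE 2 →ₗ[ℝ] ℝ) (p q : EE 2), ∀ t ∈ Icc (0 : ℝ) 1,
      x t = τ (x t) • p + (τ (x t)) ^ 2 • q)

/-- LINX (50 lines). A path in a line of the plane has its velocity in this line (almost
everywhere derivative of the primitive). -/
def LinxStatement : Prop :=
  ∀ (u : ℝ → EE 2) (τ : EE 2 →ₗ[ℝ] ℝ), IntegrableOn u (Ioc 0 1) → τ ≠ 0 →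
    (∀ t ∈ Icc (0 : ℝ) 1, τ (∫ s in (0 : ℝ)..t, u s) = 0) →
    ∃ p : EE 2, ∀ᵐ t ∂(volume.restrict (Ioc (0 : ℝ) 1)), ∃ c : ℝ, u t = c • p

/-- CUBN (250 lines, uses DETZ). If the cubic form does not vanish: at most three straight pieces,
the first and the third with the same direction. `u` is almost everywhere in the union of at most
three lines. On an interval where `S(t) ≠ 0` the kernel line is continuous
(`u uᵀ / |u|² = 1 - S / tr S`), hence constant. If `S ≠ 0` on `(a, b)`, `S(a) = S(b) = 0`, then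
`S(t) = θ(t) T(p)`, `x(t) - x(a) = θ(t) p`, and `θ(b) = 0` contradicts the absence of
backtracking. So `{S = 0}` is an interval `[α, β]` (or empty), where `T(u) = 0`, `u ∈ ℝ q`. If
`0 < α < β < 1`: `T(c) = c_⊥ S*`, the directions `p`, `p'` of the outer pieces satisfy
`T(p)(p, ·) = 0`, `T(p) ≠ 0`, so both span the kernel of `S*`. If `α = β` there are two pieces. -/
def CubnStatement : Prop :=
  ∀ (u : ℝ → EE 2) (S0 : EE 2 →ₗ[ℝ] EE 2 →ₗ[ℝ] ℝ) (T : EE 2 →ₗ[ℝ] EE 2 →ₗ[ℝ] EE 2 →ₗ[ℝ] ℝ),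
    IntegrableOn u (Ioc 0 1) → (∀ᵐ t ∂(volume.restrict (Ioc (0 : ℝ) 1)), u t ≠ 0) →
    (∀ a b, S0 a b = S0 b a) → (∀ c a b, T c a b = T c b a) → (∃ v, T v v v ≠ 0) →
    (∀ᵐ t ∂(volume.restrict (Ioc (0 : ℝ) 1)), ∀ b,
      S0 (u t) b + T (∫ s in (0 : ℝ)..t, u s) (u t) b = 0) →
    (∀ (a b : ℝ) (p : EE 2), 0 ≤ a → a < b → b ≤ 1 →
      (∀ᵐ t ∂(volume.restrict (Ioc a b)), ∃ c : ℝ, u t = c • p) → ∫ t in a..b, u t ≠ 0) →
    ∃ (a b : ℝ) (p q : EE 2), 0 ≤ a ∧ a ≤ b ∧ b ≤ 1 ∧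
      (∀ᵐ t ∂(volume.restrict (Ioc 0 a)), ∃ c : ℝ, u t = c • p) ∧
      (∀ᵐ t ∂(volume.restrict (Ioc a b)), ∃ c : ℝ, u t = c • q) ∧
      (∀ᵐ t ∂(volume.restrict (Ioc b 1)), ∃ c : ℝ, u t = c • p)

/-! ## X. Exponential coordinates -/

section

variable (g : Type) [NormedAddCommGroup g] [NormedSpace ℝ g] [FiniteDimensional ℝ g] (r : ℕ)

/-- CHAR (200 lines, uses STRUC, GRADE, NILP, UNIQ, FLOW). The chart separates points of the
group. For a transformation `T = (z, c) ↦ (α z + c b, c)` of the form `Γ_u(1)` or `exp (rep x)`: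
`α D = (D - ad b) α` (both sides satisfy the same linear equation along the curve, along
`exp (t rep x)` with `u` replaced by the constant `x`), and `α - 1` maps `F_j = V_j + ... + V_s` to
`F_(j+1)`. If `(α, b)` and `(α', b)` are of this kind then `β = α - α'` satisfies
`(D - j) β v = [b, β v]` for `v ∈ V_j`, `β v ∈ F_(j+1)`, and comparing the lowest component gives
`β v = 0`. -/
def CharStatement : Prop :=
  ∀ C : Carnot g r, ∀ u : ℝ → EE r, IntegrableOn u (Ioc 0 1) → ∀ x : g,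
    Carnot.org (C.Gam u 1) = Carnot.org (C.pt x) → C.Gam u 1 = C.pt x

/-- PHI (200 lines, uses GRADE, NILP). `Φ(x) = org (exp rep x) = ∑ (ad x)^k D x / (k+1)!` is a
bijection of `g` and its inverse is differentiable with invertible derivative. It is polynomial;
`Φ(x) = D x + ` (terms whose `V_j` component depends only on the components of `x` in `V_i`,
`i < j`): injectivity and surjectivity degree by degree, the derivative is `D` plus a map raising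
degrees (graded nilpotent), so invertible; then the inverse function theorem and
`HasFDerivAt.of_local_left_inverse`. -/
def PhiStatement : Prop :=
  ∀ C : Carnot g r, Carnot.org (C.pt 0) = 0 ∧
    ∃ Ψ : g → g, (∀ x, Ψ (Carnot.org (C.pt x)) = x) ∧ (∀ b, Carnot.org (C.pt (Ψ b)) = b) ∧
      ∀ b, ∃ A : g ≃L[ℝ] g, HasFDerivAt Ψ (A : g →L[ℝ] g) b

/-- POLY (120 lines, uses NILP). `U + exp(ad x) U = g` for one `x` implies it for almost all `x`:
`lin (exp (rep x))` is polynomial in `x`; some maximal minor is a nonzero polynomial function, and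
its zero set is null (on lines: `ae_mem_of_ae_add_linearMap_mem`, or analytic functions). -/
def PolyStatement : Prop :=
  ∀ [MeasurableSpace g] [BorelSpace g] (μ : Measure g) [μ.IsAddHaarMeasure] (C : Carnot g r)
    (U : Submodule ℝ g), (∃ x, U ⊔ U.map (Carnot.lin (C.pt x)).toLinearMap = ⊤) →
    ∀ᵐ x ∂μ, U ⊔ U.map (Carnot.lin (C.pt x)).toLinearMap = ⊤

end

end Pool.Agent.CutLoci
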