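import Pool.Agent.Lib.MP_0e3b4a_gt.Asm2
import Pool.Agent.Lib.MP_0e3b4a_gt.Iface2

/-! # Assembly 3: rank two, step at most five -/

set_option autoImplicit false
set_option linter.unusedSectionVars false

namespace Pool.Agent.CutLoci

open MeasureTheory Set Filter Topology

section

variable {g : Type} [NormedAddCommGroup g] [NormedSpace ℝ g] [FiniteDimensional ℝ g]

theorem ctl_int {r : ℕ} (u : Ctl r) : IntegrableOn (u : ℝ → EE r) (Ioc 0 1) :=
  (Lp.memLp u).integrable (by norm_num)

/-- The integral of a function with values in a line. -/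
theorem int_line {r : ℕ} (u : ℝ → EE r) (a b : ℝ) (hab : a ≤ b) (p : EE r)
    (h : ∀ᵐ t ∂(volume.restrict (Ioc a b)), ∃ c : ℝ, u t = c • p) :
    ∃ c : ℝ, ∫ t in a..b, u t = c • p := by
  by_cases hp : p = 0
  · refine ⟨0, ?_⟩
    rw [intervalIntegral.integral_of_le hab, zero_smul]
    refine integral_eq_zero_of_ae ?_
    filter_upwards [h] with t ht
    obtain ⟨c, hc⟩ := ht
    rw [hc, hp, smul_zero]; rfl
  · refine ⟨∫ t in a..b, (inner ℝ p (u t) / ‖p‖ ^ 2), ?_⟩
    rw [← intervalIntegral.integral_smul_const, intervalIntegral.integral_of_le hab,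
      intervalIntegral.integral_of_le hab]
    refine integral_congr_ae ?_
    filter_upwards [h] with t ht
    obtain ⟨c, hc⟩ := ht
    have hp2 : ‖p‖ ^ 2 ≠ 0 := pow_ne_zero _ (norm_ne_zero_iff.2 hp)
    rw [hc, inner_smul_right, real_inner_self_eq_norm_sq, mul_div_assoc, div_self hp2, mul_one]

theorem gam_zero {r : ℕ} (hFlow : FlowStatement) (hNilp : NilpStatement g r) (C : Carnot g r)
    (u : ℝ → EE r) (hu : IntegrableOn u (Ioc 0 1)) : C.Gam u 0 = 1 := by
  have h1 := (hFlow r (Carnot.Aff g) C.R (C.s + 1) (hNilp C).1 u hu).2 0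
    ⟨le_rfl, zero_le_one⟩
  rw [intervalIntegral.integral_same, add_zero] at h1
  exact h1

theorem gam_line {r : ℕ} (hNilp : NilpStatement g r) (hLine : LineStatement)
    (C : Carnot g r) (u : ℝ → EE r) (hu : IntegrableOn u (Ioc 0 1)) (a b : ℝ) (p : EE r)
    (ha : 0 ≤ a) (hab : a ≤ b) (hb : b ≤ 1)
    (h : ∀ᵐ t ∂(volume.restrict (Ioc a b)), ∃ c : ℝ, u t = c • p) :
    C.Gam u b = C.Gam u a * NormedSpace.exp (C.R (∫ t in a..b, u t)) :=
  hLine r (Carnot.Aff g) C.R (C.s + 1) (hNilp C).1 u hu a b p ha hab hb h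

/-- The kernel of a nonzero form on the plane lies in a line. -/
theorem ker_line (S0 : EE 2 →ₗ[ℝ] EE 2 →ₗ[ℝ] ℝ) (h : S0 ≠ 0) :
    ∃ p : EE 2, ∀ v, S0 v = 0 → ∃ c : ℝ, v = c • p := by
  have h1 : Module.finrank ℝ (LinearMap.ker S0) ≤ 1 := by
    have h2 : LinearMap.ker S0 < ⊤ := by
      rw [lt_top_iff_ne_top]
      intro h3
      exact h (LinearMap.ker_eq_top.1 h3)
    have h3 := Submodule.finrank_lt (K := ℝ) h2.ne
    rw [finrank_euclideanSpace_fin] at h3
    omega
  obtain ⟨p, hp⟩ := finrank_le_one_iff.1 h1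
  refine ⟨p, fun v hv => ?_⟩
  obtain ⟨c, hc⟩ := hp ⟨v, hv⟩
  exact ⟨c, by rw [← Submodule.coe_smul, hc]⟩

/-- Endpoints of minimisers with the conditions N', rank two, step at most five. -/
theorem rank_two (hFlow : FlowStatement) (hNilp : NilpStatement g 2) (hLine : LineStatement)
    (hSpee : SpeeStatement g 2) (hNoba : NobaStatement g 2) (hData : DataStatement g)
    (hPara : ParaStatement g) (hNull : NullStatement g) (hDetz : DetzStatement)
    (hCubz : CubzStatement) (hLinx : LinxStatement) (hCubn : CubnStatement)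
    [MeasurableSpace g] [BorelSpace g] (μ : Measure g) [μ.IsAddHaarMeasure] (C : Carnot g 2)
    (hs : C.s ≤ 5) :
    μ {b | ∃ u : Ctl 2, C.EMin u ∧ C.End u = b ∧ ∃ l, C.NPrime u l} = 0 := by
  obtain ⟨hn1, hn2, hn3⟩ := hNull μ C
  have hnt : Nontrivial g := by
    refine ⟨C.X (EuclideanSpace.single 0 1), 0, fun h => ?_⟩
    have h1 := C.X_inj (h.trans (map_zero C.X).symm)
    have h2 := congrArg (fun v : EE 2 => v 0) h1
    simp at h2
  let A1 : Set g := {b | ∃ c : EE 2, b = Carnot.org (NormedSpace.exp (C.R c))}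
  let A2 : Set g := {b | ∃ (p c2 : EE 2) (r r' : ℝ), b = Carnot.org
      (NormedSpace.exp (C.R (r • p)) * NormedSpace.exp (C.R c2) *
        NormedSpace.exp (C.R (r' • p)))}
  let A3 : Set g := {b | ∃ P Q : EE 2, b = C.End (fun t => P + (2 * t) • Q)}
  have hstraight : ∀ u : Ctl 2, (∃ p : EE 2, ∀ᵐ t ∂(volume.restrict (Ioc (0 : ℝ) 1)),
      ∃ c : ℝ, u t = c • p) → C.End u ∈ A1 := by
    rintro u ⟨p, hp⟩
    refine ⟨∫ t in (0 : ℝ)..1, u t, ?_⟩
    have h1 := gam_line hNilp hLine C u (ctl_int u) 0 1 p le_rfl zero_le_one le_rfl hp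
    rw [gam_zero hFlow hNilp C u (ctl_int u), one_mul] at h1
    show Carnot.org (C.Gam u 1) = _
    rw [h1]
  have key : ∀ u : Ctl 2, C.EMin u → (∃ l, C.NPrime u l) → C.End u = 0 ∨
      (3 ≤ Module.finrank ℝ g ∧ C.End u ∈ A1) ∨
      (6 ≤ Module.finrank ℝ g ∧ C.End u ∈ A2 ∪ A3) := by
    rintro u hu ⟨l, hl⟩
    have hsp := hSpee C u hu
    by_cases hu0 : ‖u‖ = 0
    · left
      have h1 : ∀ᵐ t ∂(volume.restrict (Ioc (0 : ℝ) 1)), ∃ c : ℝ, u t = c • (0 : EE 2) := by
        filter_upwards [hsp] with t ht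
        rw [hu0, norm_eq_zero] at ht
        exact ⟨0, by rw [ht, smul_zero]⟩
      have h2 := gam_line hNilp hLine C u (ctl_int u) 0 1 0 le_rfl zero_le_one le_rfl h1
      obtain ⟨c, hc⟩ := int_line u 0 1 zero_le_one 0 h1
      rw [gam_zero hFlow hNilp C u (ctl_int u), one_mul, hc, smul_zero, map_zero,
        NormedSpace.exp_zero] at h2
      show Carnot.org (C.Gam u 1) = 0
      rw [h2]; rfl
    have hne : ∀ᵐ t ∂(volume.restrict (Ioc (0 : ℝ) 1)), u t ≠ 0 := by
      filter_upwards [hsp] with t ht h0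
      rw [h0, norm_zero] at ht
      exact hu0 ht.symm
    obtain ⟨S0, T, hS0, hT, hST, hd5, hd6, hrel⟩ := hData C hs u l hl hne
    right
    by_cases hT0 : T = 0
    · left
      refine ⟨by omega, hstraight u ?_⟩
      have hS : S0 ≠ 0 := by
        rcases hST with h | h
        · exact h
        · exact absurd hT0 h
      obtain ⟨p, hp⟩ := ker_line S0 hS
      refine ⟨p, ?_⟩
      filter_upwards [hrel] with t ht
      refine hp _ (LinearMap.ext fun b => ?_)
      have h1 := ht b
      rw [hT0] at h1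
      simpa using h1
    · have hd := hd6 hT0
      by_cases hcub : ∃ v, T v v v ≠ 0
      · right
        refine ⟨hd, Or.inl ?_⟩
        obtain ⟨a, b, p, q, ha, hab, hb, h1, h2, h3⟩ := hCubn u S0 T (ctl_int u) hne hS0 hT hcub
          hrel (by
            intro a b p ha hab hb hp h0
            have h1 := hNoba C u hu a b p ha hab.le hb hp h0
            have h2 : ∀ᵐ t ∂(volume.restrict (Ioc a b)), u t ≠ 0 :=
              ae_restrict_of_ae_restrict_of_subset (Ioc_subset_Ioc ha hb) hne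
            have h3 : ∀ᵐ t ∂(volume.restrict (Ioc a b)), False := by
              filter_upwards [h1, h2] with t h4 h5
              exact h5 h4
            rw [ae_iff] at h3
            simp at h3
            linarith)
        obtain ⟨r, hr⟩ := int_line u 0 a ha p h1
        obtain ⟨r', hr'⟩ := int_line u b 1 hb p h3
        refine ⟨p, ∫ t in a..b, u t, r, r', ?_⟩
        have e1 := gam_line hNilp hLine C u (ctl_int u) 0 a p le_rfl ha (hab.trans hb) h1
        have e2 := gam_line hNilp hLine C u (ctl_int u) a b q ha hab hb h2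
        have e3 := gam_line hNilp hLine C u (ctl_int u) b 1 p (ha.trans hab) hb le_rfl h3
        rw [gam_zero hFlow hNilp C u (ctl_int u), one_mul] at e1
        show Carnot.org (C.Gam u 1) = _
        rw [e3, e2, e1, hr, hr']
      · push Not at hcub
        obtain ⟨hdet, _, _⟩ := hDetz u S0 T (ctl_int u) hne hS0 hT hrel
        have hcont : ContinuousOn (fun t => ∫ s in (0 : ℝ)..t, (u : ℝ → EE 2) s) (Icc 0 1) := by
          have h1 : IntervalIntegrable (u : ℝ → EE 2) volume 0 1 :=
            (intervalIntegrable_iff_integrableOn_Ioc_of_le zero_le_one).2 (ctl_int u)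
          have h2 := intervalIntegral.continuousOn_primitive_interval' h1 left_mem_uIcc
          rwa [uIcc_of_le zero_le_one] at h2
        rcases hCubz (fun t => ∫ s in (0 : ℝ)..t, (u : ℝ → EE 2) s) S0 T hcont
          (intervalIntegral.integral_same) hS0 hT hT0 hcub hdet with h | h
        · left
          obtain ⟨τ, hτ, h⟩ := h
          exact ⟨by omega, hstraight u (hLinx u τ (ctl_int u) hτ h)⟩
        · right
          obtain ⟨τ, p, q, h⟩ := h
          obtain ⟨P, Q, hPQ⟩ := hPara C u τ p q h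
          refine ⟨hd, Or.inr ⟨P, Q, ?_⟩⟩
          show Carnot.org (C.Gam u 1) = Carnot.org (C.Gam _ 1)
          rw [hPQ]
  have hsub : {b | ∃ u : Ctl 2, C.EMin u ∧ C.End u = b ∧ ∃ l, C.NPrime u l} ⊆
      {0} ∪ ({b | 3 ≤ Module.finrank ℝ g ∧ b ∈ A1} ∪
        {b | 6 ≤ Module.finrank ℝ g ∧ b ∈ A2 ∪ A3}) := by
    rintro b ⟨u, hu, rfl, hl⟩
    rcases key u hu hl with h | h | h
    · exact Or.inl h
    · exact Or.inr (Or.inl h)
    · exact Or.inr (Or.inr h)
  refine measure_mono_null hsub ?_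
  rw [measure_union_null_iff, measure_union_null_iff]
  refine ⟨measure_singleton 0, ?_, ?_⟩
  · by_cases h : 3 ≤ Module.finrank ℝ g
    · exact measure_mono_null (fun b hb => hb.2) (hn1 h)
    · have h1 : {b | 3 ≤ Module.finrank ℝ g ∧ b ∈ A1} = ∅ := by
        ext b; simp [h]
      rw [h1, measure_empty]
  · by_cases h : 6 ≤ Module.finrank ℝ g
    · exact measure_mono_null (fun b hb => hb.2) (measure_union_null (hn2 h) (hn3 h))
    · have h1 : {b | 6 ≤ Module.finrank ℝ g ∧ b ∈ A2 ∪ A3} = ∅ := by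
        ext b; simp [h]
      rw [h1, measure_empty]

end

end Pool.Agent.CutLoci
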