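import Pool.Agent.Lib.MP_0e3b4a_gt.Asm3

/-! # Assembly 4: exponential coordinates and length-minimising curves -/

set_option autoImplicit false
set_option linter.unusedSectionVars false

namespace Pool.Agent.CutLoci

open MeasureTheory Set Filter Topology

namespace Carnot

variable {g : Type} [NormedAddCommGroup g] [NormedSpace ℝ g] [FiniteDimensional ℝ g] {r : ℕ}

/-- The conditions N' for a horizontal curve: `l ≠ 0` annihilates `Ad_{γ(t)} V₁`, `Ad_{γ(t)} V₂`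
for all `t` and `Ad_{γ(t)} [[u(t), V₁], V₁]` for almost all `t`. -/
def Third (C : Carnot g r) (u : ℝ → EE r) (l : g →L[ℝ] ℝ) : Prop :=
  l ≠ 0 ∧ ∃ γ, C.IsCurve u γ ∧ (∀ t ∈ Icc (0 : ℝ) 1, ∀ a, l (lin (γ t) (C.X a)) = 0) ∧
    (∀ t ∈ Icc (0 : ℝ) 1, ∀ a b, l (lin (γ t) (C.br (C.X a) (C.X b))) = 0) ∧
    ∀ᵐ t ∂(volume.restrict (Ioc (0 : ℝ) 1)), ∀ a b,
      l (lin (γ t) (C.br (C.br (C.X (u t)) (C.X a)) (C.X b))) = 0

end Carnot

section

variable {g : Type} [NormedAddCommGroup g] [NormedSpace ℝ g] [FiniteDimensional ℝ g] {r : ℕ}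

/-- The hypotheses on curves. -/
structure CurveHyp (g : Type) [NormedAddCommGroup g] [NormedSpace ℝ g] [FiniteDimensional ℝ g]
    (r : ℕ) : Prop where
  flow : FlowStatement
  uniq : UniqStatement
  nilp : NilpStatement g r
  struc : StrucStatement g r
  repa : RepaStatement g r
  spee : SpeeStatement g r
  mini : MiniStatement g r
  char : CharStatement g r
  phi : PhiStatement g r

variable (H : CurveHyp g r) (C : Carnot g r)

include H

theorem sol_unique (u : ℝ → EE r) (hu : IntegrableOn u (Ioc 0 1)) {γ γ' : ℝ → Carnot.Aff g}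
    (h : Sol C.R u γ) (h' : Sol C.R u γ') : EqOn γ γ' (Icc 0 1) := by
  have hk : IntegrableOn (fun t => C.R (u t)) (Ioc 0 1) := C.R.integrable_comp hu
  have hint : ∀ {δ : ℝ → Carnot.Aff g}, ContinuousOn δ (Icc 0 1) → ∀ t ∈ Icc (0 : ℝ) 1,
      IntervalIntegrable (fun s => δ s * C.R (u s)) volume 0 t := by
    intro δ hδ t ht
    rw [intervalIntegrable_iff_integrableOn_Ioc_of_le ht.1]
    have h1 : IntegrableOn (fun s => δ s * C.R (u s)) (Ioc 0 1) := by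
      obtain ⟨M, hM⟩ := isCompact_Icc.exists_bound_of_continuousOn hδ
      refine Integrable.bdd_mul (c := M) hk
        ((hδ.mono Ioc_subset_Icc_self).aestronglyMeasurable measurableSet_Ioc) ?_
      filter_upwards [ae_restrict_mem measurableSet_Ioc] with s hs
      exact hM s (Ioc_subset_Icc_self hs)
    exact h1.mono_set (Ioc_subset_Ioc_right ht.2)
  intro t ht
  have h1 := H.uniq (Carnot.Aff g) (fun t => C.R (u t)) (fun t => γ t - γ' t) hk
    (h.1.sub h'.1) (Or.inl fun t ht => by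
      rw [h.2 t ht, h'.2 t ht, add_sub_add_left_eq_sub, ← intervalIntegral.integral_sub
        (hint h.1 t ht) (hint h'.1 t ht)]
      refine intervalIntegral.integral_congr fun s _ => ?_
      show γ s * C.R (u s) - γ' s * C.R (u s) = (γ s - γ' s) * C.R (u s)
      rw [sub_mul]) t ht
  exact sub_eq_zero.1 h1

theorem gam_sol (u : ℝ → EE r) (hu : IntegrableOn u (Ioc 0 1)) : Sol C.R u (C.Gam u) :=
  H.flow r (Carnot.Aff g) C.R (C.s + 1) (H.nilp C).1 u hu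

theorem curve_iff (u : ℝ → EE r) (γ : ℝ → Carnot.Aff g) (h : C.IsCurve u γ) :
    EqOn γ (C.Gam u) (Icc 0 1) :=
  sol_unique H C u h.1 h.2 (gam_sol H C u h.1)

theorem gam_congr (u v : ℝ → EE r) (hu : IntegrableOn u (Ioc 0 1))
    (h : u =ᵐ[volume.restrict (Ioc (0 : ℝ) 1)] v) : EqOn (C.Gam u) (C.Gam v) (Icc 0 1) := by
  have hv : IntegrableOn v (Ioc 0 1) := hu.congr_fun_ae h
  refine sol_unique H C u hu (gam_sol H C u hu) ?_
  obtain ⟨h1, h2⟩ := gam_sol H C v hv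
  refine ⟨h1, fun t ht => ?_⟩
  rw [h2 t ht]
  congr 1
  rw [intervalIntegral.integral_of_le ht.1, intervalIntegral.integral_of_le ht.1]
  refine integral_congr_ae ?_
  have h3 : u =ᵐ[volume.restrict (Ioc (0 : ℝ) t)] v :=
    ae_restrict_of_ae_restrict_of_subset (Ioc_subset_Ioc_right ht.2) h
  filter_upwards [h3] with s hs
  rw [hs]

theorem joins_iff (u : ℝ → EE r) (x : g) :
    C.Joins u x ↔ IntegrableOn u (Ioc 0 1) ∧
      Carnot.org (C.Gam u 1) = Carnot.org (C.pt x) := by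
  constructor
  · rintro ⟨γ, hγ, h1⟩
    refine ⟨hγ.1, ?_⟩
    rw [← curve_iff H C u γ hγ ⟨zero_le_one, le_rfl⟩, h1]
  · rintro ⟨hu, h1⟩
    exact ⟨C.Gam u, ⟨hu, gam_sol H C u hu⟩, H.char C u hu x h1⟩

theorem gam_zero_eq (u : ℝ → EE r) (hu : IntegrableOn u (Ioc 0 1)) : C.Gam u 0 = 1 := by
  have h1 := (gam_sol H C u hu).2 0 ⟨le_rfl, zero_le_one⟩
  rw [intervalIntegral.integral_same, add_zero] at h1
  exact h1

omit H in
theorem norm_sq_eq (v : Ctl r) : ‖v‖ ^ 2 = ∫ t in Ioc (0 : ℝ) 1, ‖v t‖ ^ 2 := by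
  rw [← real_inner_self_eq_norm_sq, L2.inner_def]
  refine integral_congr_ae (Eventually.of_forall fun t => ?_)
  exact real_inner_self_eq_norm_sq _

omit H in
theorem norm_of_ae (v : Ctl r) (c : ℝ) (hc : 0 ≤ c)
    (h : ∀ᵐ t ∂(volume.restrict (Ioc (0 : ℝ) 1)), ‖v t‖ = c) : ‖v‖ = c := by
  have h1 : ‖v‖ ^ 2 = c ^ 2 := by
    rw [norm_sq_eq]
    have h2 : ∫ t in Ioc (0 : ℝ) 1, ‖v t‖ ^ 2 = ∫ t in Ioc (0 : ℝ) 1, c ^ 2 := by
      refine integral_congr_ae ?_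
      filter_upwards [h] with t ht
      rw [ht]
    rw [h2]
    simp
  exact (sq_eq_sq₀ (norm_nonneg _) hc).1 h1

omit H in
theorem norm_le_of_ae (v : Ctl r) (c : ℝ) (hc : 0 ≤ c)
    (h : ∀ᵐ t ∂(volume.restrict (Ioc (0 : ℝ) 1)), ‖v t‖ ≤ c) : ‖v‖ ≤ c := by
  have h1 : ‖v‖ ^ 2 ≤ c ^ 2 := by
    rw [norm_sq_eq]
    have h2 : ∫ t in Ioc (0 : ℝ) 1, ‖v t‖ ^ 2 ≤ ∫ t in Ioc (0 : ℝ) 1, c ^ 2 := by
      refine integral_mono_ae ?_ (integrable_const _) ?_
      · exact (Lp.memLp v).integrable_norm_pow (by norm_num)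
      · filter_upwards [h] with t ht
        exact pow_le_pow_left₀ (norm_nonneg _) ht 2
    refine h2.trans (le_of_eq ?_)
    simp
  exact (sq_le_sq₀ (norm_nonneg _) hc).1 h1

/-- The distance is the norm of an energy minimiser. -/
theorem dist_eq (x : g) (u0 : Ctl r) (h1 : C.EMin u0)
    (h2 : C.End u0 = Carnot.org (C.pt x)) : C.dist x = ‖u0‖ := by
  have hlen : ∫ t in (0 : ℝ)..1, ‖u0 t‖ = ‖u0‖ := by
    rw [intervalIntegral.integral_of_le zero_le_one]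
    have h3 : ∫ t in Ioc (0 : ℝ) 1, ‖u0 t‖ = ∫ t in Ioc (0 : ℝ) 1, ‖u0‖ :=
      integral_congr_ae (H.spee C u0 h1)
    rw [h3]
    simp
  have hj : C.Joins u0 x := (joins_iff H C u0 x).2 ⟨ctl_int u0, h2⟩
  have hlow : ∀ ℓ ∈ {ℓ | ∃ u, C.Joins u x ∧ ℓ = ∫ t in (0 : ℝ)..1, ‖u t‖}, ‖u0‖ ≤ ℓ := by
    rintro ℓ ⟨u, hu, rfl⟩
    obtain ⟨hui, hux⟩ := (joins_iff H C u x).1 hu
    obtain ⟨w, hw1, hw2⟩ := H.repa C u hui
    have h3 : C.End w = C.End u0 := by
      show Carnot.org (C.Gam w 1) = _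
      rw [hw2, hux, h2]
    refine (h1 w h3).trans (norm_le_of_ae w _ ?_ hw1)
    exact intervalIntegral.integral_nonneg zero_le_one fun t _ => norm_nonneg _
  refine le_antisymm ?_ (le_csInf ⟨_, u0, hj, rfl⟩ hlow)
  exact csInf_le ⟨_, hlow⟩ ⟨u0, hj, hlen.symm⟩

/-- Energy minimisers are length minimisers with constant speed. -/
theorem isMin_of_eMin (x : g) (u0 : Ctl r) (h1 : C.EMin u0)
    (h2 : C.End u0 = Carnot.org (C.pt x)) : C.IsMin u0 x := by
  refine ⟨(joins_iff H C u0 x).2 ⟨ctl_int u0, h2⟩, ?_⟩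
  rw [dist_eq H C x u0 h1 h2]
  exact H.spee C u0 h1

/-- And conversely. -/
theorem eMin_of_isMin (x : g) (u : ℝ → EE r) (h : C.IsMin u x) :
    ∃ v : Ctl r, v =ᵐ[volume.restrict (Ioc (0 : ℝ) 1)] u ∧ C.EMin v ∧
      C.End v = Carnot.org (C.pt x) := by
  obtain ⟨hj, hsp⟩ := h
  obtain ⟨hui, hux⟩ := (joins_iff H C u x).1 hj
  obtain ⟨u0, hu0, hu0b⟩ := (H.mini C).1 (Carnot.org (C.pt x))
  have hd := dist_eq H C x u0 hu0 hu0b
  have hmem : MemLp u 2 ((volume : Measure ℝ).restrict (Ioc (0 : ℝ) 1)) := by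
    refine MemLp.of_bound hui.aestronglyMeasurable (C.dist x) ?_
    filter_upwards [hsp] with t ht
    exact ht.le
  let v : Ctl r := hmem.toLp u
  have hv : v =ᵐ[volume.restrict (Ioc (0 : ℝ) 1)] u := hmem.coeFn_toLp
  have hEnd : C.End v = Carnot.org (C.pt x) := by
    rw [← hux]
    show Carnot.org (C.Gam v 1) = _
    rw [gam_congr H C v u (ctl_int v) hv ⟨zero_le_one, le_rfl⟩]
  have hnorm : ‖v‖ = C.dist x := by
    refine norm_of_ae v _ (by rw [hd]; exact norm_nonneg _) ?_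
    filter_upwards [hv, hsp] with t h1 h2
    rw [h1, h2]
  refine ⟨v, hv, fun w hw => ?_, hEnd⟩
  rw [hnorm, hd]
  exact hu0 w (by rw [hw, hEnd, hu0b])

theorem abnormal_imp (u : ℝ → EE r) (h : C.Abnormal u) : ∃ l, C.Sing u l := by
  obtain ⟨γ, hγ, l, hl, h1⟩ := h
  refine ⟨l, hl, fun t ht a => ?_⟩
  have h2 := h1 t ht a
  rw [curve_iff H C u γ hγ ht] at h2
  exact h2

theorem isNormal_iff (u : ℝ → EE r) (l : g →L[ℝ] ℝ) :
    C.IsNormal u l ↔ IntegrableOn u (Ioc 0 1) ∧ C.Normal u l := by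
  constructor
  · rintro ⟨γ, hγ, h1⟩
    refine ⟨hγ.1, ?_⟩
    filter_upwards [h1, ae_restrict_mem measurableSet_Ioc] with t ht hmem a
    rw [ht a, curve_iff H C u γ hγ (Ioc_subset_Icc_self hmem)]
    rfl
  · rintro ⟨hu, h1⟩
    exact ⟨C.Gam u, ⟨hu, gam_sol H C u hu⟩, h1⟩

/-- Normality depends on the class of the control only. -/
theorem normal_congr (u v : ℝ → EE r) (l : g →L[ℝ] ℝ) (hu : IntegrableOn u (Ioc 0 1))
    (h : u =ᵐ[volume.restrict (Ioc (0 : ℝ) 1)] v) (hn : C.Normal u l) : C.Normal v l := by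
  filter_upwards [h, hn, ae_restrict_mem measurableSet_Ioc] with t h1 h2 h3 a
  rw [← h1, h2 a]
  show l (Carnot.lin (C.Gam u t) _) = l (Carnot.lin (C.Gam v t) _)
  rw [gam_congr H C u v hu h (Ioc_subset_Icc_self h3)]

/-- Normal controls are square integrable. -/
theorem normal_memLp (u : ℝ → EE r) (l : g →L[ℝ] ℝ) (hu : IntegrableOn u (Ioc 0 1))
    (hn : C.Normal u l) : ∃ v : Ctl r, v =ᵐ[volume.restrict (Ioc (0 : ℝ) 1)] u ∧
      C.Normal v l := by
  obtain ⟨_, hc, _⟩ := H.struc C u hu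
  obtain ⟨M, hM⟩ := isCompact_Icc.exists_bound_of_continuousOn hc
  have hmem : MemLp u 2 ((volume : Measure ℝ).restrict (Ioc (0 : ℝ) 1)) := by
    refine MemLp.of_bound hu.aestronglyMeasurable (‖l‖ * (M * ‖C.X‖)) ?_
    filter_upwards [hn, ae_restrict_mem measurableSet_Ioc] with t h1 h2
    have h3 : ‖u t‖ ^ 2 ≤ ‖l‖ * (M * ‖C.X‖) * ‖u t‖ := by
      rw [← real_inner_self_eq_norm_sq, h1 (u t)]
      refine (le_abs_self _).trans ?_
      rw [← Real.norm_eq_abs]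
      refine (l.le_opNorm _).trans ?_
      rw [mul_assoc]
      refine mul_le_mul_of_nonneg_left ?_ (norm_nonneg _)
      refine ((C.Ad u t).le_opNorm _).trans ?_
      rw [mul_assoc]
      exact mul_le_mul (hM t (Ioc_subset_Icc_self h2)) (C.X.le_opNorm _) (norm_nonneg _)
        ((norm_nonneg _).trans (hM t (Ioc_subset_Icc_self h2)))
    by_cases h0 : ‖u t‖ = 0
    · rw [h0]
      have hM0 : 0 ≤ M := (norm_nonneg _).trans (hM t (Ioc_subset_Icc_self h2))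
      positivity
    · have hpos : 0 < ‖u t‖ := lt_of_le_of_ne (norm_nonneg _) (Ne.symm h0)
      rw [sq] at h3
      exact le_of_mul_le_mul_right h3 hpos
  refine ⟨hmem.toLp u, hmem.coeFn_toLp, ?_⟩
  exact normal_congr H C u _ l hu hmem.coeFn_toLp.symm hn

/-- The two normal exponential maps. -/
theorem nexp_eq (hNuni : NuniStatement g r) (l : g →L[ℝ] ℝ) :
    C.nexpE l = Carnot.org (C.pt (C.nexp l)) := by
  by_cases h : ∃ u : Ctl r, C.Normal u l
  · obtain ⟨u, hu⟩ := h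
    obtain ⟨hp0, Ψ, hΨ1, hΨ2, _⟩ := H.phi C
    have hx : ∃ x, ∃ u, C.IsNormal u l ∧ C.Joins u x := by
      refine ⟨Ψ (C.End u), u, (isNormal_iff H C u l).2 ⟨ctl_int u, hu⟩, ?_⟩
      exact (joins_iff H C u _).2 ⟨ctl_int u, (hΨ2 _).symm⟩
    have h1 : C.nexp l = hx.choose := by
      unfold Carnot.nexp
      rw [dif_pos hx]
    obtain ⟨v, hv1, hv2⟩ := hx.choose_spec
    obtain ⟨hvi, hvn⟩ := (isNormal_iff H C v l).1 hv1
    obtain ⟨_, hvx⟩ := (joins_iff H C v _).1 hv2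
    obtain ⟨w, hw1, hw2⟩ := normal_memLp H C v l hvi hvn
    rw [nexpE_eq hNuni C w l hw2, h1, ← hvx]
    show Carnot.org (C.Gam w 1) = _
    rw [gam_congr H C w v (ctl_int w) hw1 ⟨zero_le_one, le_rfl⟩]
  · have h1 : C.nexpE l = 0 := by
      unfold Carnot.nexpE
      rw [dif_neg h]
    have h2 : ¬ ∃ x, ∃ u, C.IsNormal u l ∧ C.Joins u x := by
      rintro ⟨x, u, hu, _⟩
      obtain ⟨hui, hun⟩ := (isNormal_iff H C u l).1 hu
      obtain ⟨w, _, hw⟩ := normal_memLp H C u l hui hun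
      exact h ⟨w, hw⟩
    have h3 : C.nexp l = 0 := by
      unfold Carnot.nexp
      rw [dif_neg h2]
    rw [h1, h3, (H.phi C).1]

theorem not_conjugate (hNuni : NuniStatement g r) (u : Ctl r) (h : ¬ C.ConjE u) :
    ¬ C.Conjugate u := by
  rintro ⟨l, hl, hn⟩
  obtain ⟨_, hun⟩ := (isNormal_iff H C u l).1 hl
  obtain ⟨_, Ψ, hΨ1, hΨ2, hΨ3⟩ := H.phi C
  have h1 : ∃ A : (g →L[ℝ] ℝ) ≃L[ℝ] g,
      HasFDerivAt C.nexpE (A : (g →L[ℝ] ℝ) →L[ℝ] g) l := by
    by_contra h2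
    exact h ⟨l, hun, h2⟩
  obtain ⟨A, hA⟩ := h1
  obtain ⟨B, hB⟩ := hΨ3 (C.nexpE l)
  refine hn ⟨A.trans B, ?_⟩
  have h3 : C.nexp = Ψ ∘ C.nexpE := by
    funext m
    rw [Function.comp_apply, nexp_eq H C hNuni m, hΨ1]
  rw [h3]
  exact hB.comp l hA

/-- Smooth points in the chart and in exponential coordinates. -/
theorem smooth_of (hNuni : NuniStatement g r) (x : g)
    (h : C.SmoothE (Carnot.org (C.pt x))) : C.Smooth x := by
  obtain ⟨hb, u, hu, hub, huniq, hs, hc⟩ := h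
  refine ⟨fun hx => hb ?_, u, isMin_of_eMin H C x u hu hub, ?_, ?_, not_conjugate H C hNuni u hc⟩
  · rw [hx, (H.phi C).1]
  · intro v hv
    obtain ⟨w, hw1, hw2, hw3⟩ := eMin_of_isMin H C x v hv
    have h1 : w = u := huniq w hw2 hw3
    rw [h1] at hw1
    exact hw1.symm
  · intro ha
    exact hs (abnormal_imp H C u ha)

/-- The conditions N' in the two languages. -/
theorem third_of (u : Ctl r) (l : g →L[ℝ] ℝ) (h : C.NPrime u l) : C.Third u l :=
  ⟨h.1.1, C.Gam u, ⟨ctl_int u, gam_sol H C u (ctl_int u)⟩, h.1.2, h.2.1, h.2.2⟩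

/-- Null sets in the chart and in exponential coordinates. -/
theorem ae_of_chart [MeasurableSpace g] [BorelSpace g] (μ : Measure g) [μ.IsAddHaarMeasure]
    (p : g → Prop) (h : ∀ᵐ b ∂μ, p b) : ∀ᵐ x ∂μ, p (Carnot.org (C.pt x)) := by
  obtain ⟨_, Ψ, hΨ1, _, hΨ3⟩ := H.phi C
  have h1 : μ {b | ¬ p b} = 0 := h
  have h2 : μ (Ψ '' {b | ¬ p b}) = 0 := by
    refine addHaar_image_eq_zero_of_differentiableOn_of_addHaar_eq_zero μ (fun b _ => ?_) h1
    obtain ⟨A, hA⟩ := hΨ3 b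
    exact hA.differentiableAt.differentiableWithinAt
  refine measure_mono_null ?_ h2
  intro x hx
  exact ⟨Carnot.org (C.pt x), hx, hΨ1 x⟩

end

end Pool.Agent.CutLoci
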