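import Pool.Agent.Lib.MP_0e3b4a_gt.Asm4

/-! # Assembly 5: the final theorems -/

set_option autoImplicit false
set_option linter.unusedSectionVars false

namespace Pool.Agent.CutLoci

open MeasureTheory Set Filter Topology

section

variable {g : Type} [NormedAddCommGroup g] [NormedSpace ℝ g] [FiniteDimensional ℝ g] {r : ℕ}

/-- The dichotomy, as a statement. -/
def Dicho (g : Type) [NormedAddCommGroup g] [NormedSpace ℝ g] [FiniteDimensional ℝ g]
    (r : ℕ) : Prop :=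
  ∀ [Nontrivial g] [MeasurableSpace g] [BorelSpace g] (μ : Measure g)
    [μ.IsAddHaarMeasure] (C : Carnot g r),
    ∀ᵐ b ∂μ, C.SmoothE b ∨ ∃ u : Ctl r, C.EMin u ∧ C.End u = b ∧ (¬ ∃ l, C.Normal u l) ∧
      ∃ l, C.NPrime u l

variable (H : CurveHyp g r) (hNuni : NuniStatement g r) (hDic : Dicho g r)

include H hNuni hDic

/-- Almost every point is smooth or has a strictly abnormal minimiser with the conditions N'. -/
theorem main_A [Nontrivial g] [MeasurableSpace g] [BorelSpace g] (μ : Measure g)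
    [μ.IsAddHaarMeasure] (C : Carnot g r) :
    ∀ᵐ x ∂μ, C.Smooth x ∨ ∃ u, C.IsMin u x ∧ (¬ ∃ l, C.IsNormal u l) ∧ ∃ l, C.Third u l := by
  have h1 := ae_of_chart H C μ _ (hDic μ C)
  filter_upwards [h1] with x hx
  rcases hx with hx | ⟨u, hu, hub, hun, l, hl⟩
  · exact Or.inl (smooth_of H C hNuni x hx)
  · refine Or.inr ⟨u, isMin_of_eMin H C x u hu hub, ?_, l, third_of H C u l hl⟩
    rintro ⟨m, hm⟩
    exact hun ⟨m, ((isNormal_iff H C u m).1 hm).2⟩

/-- The same with the class of the control. -/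
theorem main_A' [Nontrivial g] [MeasurableSpace g] [BorelSpace g] (μ : Measure g)
    [μ.IsAddHaarMeasure] (C : Carnot g r) :
    ∀ᵐ x ∂μ, C.Smooth x ∨ ∃ u : Ctl r, C.EMin u ∧ C.End u = Carnot.org (C.pt x) ∧
      ∃ l, C.NPrime u l := by
  have h1 := ae_of_chart H C μ _ (hDic μ C)
  filter_upwards [h1] with x hx
  rcases hx with hx | ⟨u, hu, hub, hun, l, hl⟩
  · exact Or.inl (smooth_of H C hNuni x hx)
  · exact Or.inr ⟨u, hu, hub, l, hl⟩

omit hNuni hDic in
theorem ad_zero (C : Carnot g r) (u : Ctl r) (z : g) : C.Ad u 0 z = z := by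
  show (C.Gam u 0 (z, 0)).1 = z
  rw [gam_zero_eq H C u (ctl_int u)]
  rfl

omit hNuni hDic in
theorem ad_one (C : Carnot g r) (u : Ctl r) (x : g) (h : C.End u = Carnot.org (C.pt x)) :
    C.Ad u 1 = Carnot.lin (C.pt x) := by
  show Carnot.lin (C.Gam u 1) = _
  rw [H.char C u (ctl_int u) x h]

/-- The criterion `g = V₁ + V₂ + Ad_y (V₁ + V₂)`. -/
theorem main_B (hPoly : PolyStatement g r) [Nontrivial g] [MeasurableSpace g] [BorelSpace g]
    (μ : Measure g) [μ.IsAddHaarMeasure] (C : Carnot g r)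
    (hU : ∃ x, (C.V 1 ⊔ C.V 2) ⊔ (C.V 1 ⊔ C.V 2).map (Carnot.lin (C.pt x)).toLinearMap = ⊤) :
    μ C.cut = 0 := by
  have h1 := hPoly μ C (C.V 1 ⊔ C.V 2) hU
  have h2 := main_A' H hNuni hDic μ C
  have h3 : ∀ᵐ x ∂μ, C.Smooth x := by
    filter_upwards [h1, h2] with x hx1 hx2
    rcases hx2 with hx2 | ⟨u, hu, hub, l, hl⟩
    · exact hx2
    exfalso
    obtain ⟨⟨hl0, hs⟩, hg, _⟩ := hl
    have h01 : (0 : ℝ) ∈ Icc (0 : ℝ) 1 := ⟨le_rfl, zero_le_one⟩
    have h11 : (1 : ℝ) ∈ Icc (0 : ℝ) 1 := ⟨zero_le_one, le_rfl⟩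
    have hV1 : ∀ t ∈ Icc (0 : ℝ) 1, ∀ z ∈ C.V 1, l (C.Ad u t z) = 0 := by
      intro t ht z hz
      rw [← C.X_range] at hz
      obtain ⟨a, rfl⟩ := hz
      exact hs t ht a
    have hV2 : ∀ t ∈ Icc (0 : ℝ) 1, ∀ z ∈ C.V 2, l (C.Ad u t z) = 0 := by
      intro t ht z hz
      rw [C.gen 1 le_rfl] at hz
      refine Submodule.span_induction ?_ ?_ ?_ ?_ hz
      · rintro _ ⟨a, ha, b, hb, rfl⟩
        rw [← C.X_range] at ha hb
        obtain ⟨a, rfl⟩ := ha
        obtain ⟨b, rfl⟩ := hb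
        exact hg t ht a b
      · rw [map_zero, map_zero]
      · intro a b _ _ ha hb
        rw [map_add, map_add, ha, hb, add_zero]
      · intro c a _ ha
        rw [map_smul, map_smul, ha, smul_zero]
    have hU : ∀ t ∈ Icc (0 : ℝ) 1, ∀ z ∈ C.V 1 ⊔ C.V 2, l (C.Ad u t z) = 0 := by
      intro t ht z hz
      obtain ⟨a, ha, b, hb, rfl⟩ := Submodule.mem_sup.1 hz
      rw [map_add, map_add, hV1 t ht a ha, hV2 t ht b hb, add_zero]
    refine hl0 (ContinuousLinearMap.ext fun z => ?_)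
    have hz : z ∈ (C.V 1 ⊔ C.V 2) ⊔
        (C.V 1 ⊔ C.V 2).map (Carnot.lin (C.pt x)).toLinearMap := hx1 ▸ Submodule.mem_top
    obtain ⟨a, ha, _, ⟨b, hb, rfl⟩, rfl⟩ := Submodule.mem_sup.1 hz
    rw [map_add]
    have e1 := hU 0 h01 a ha
    rw [ad_zero H] at e1
    have e2 := hU 1 h11 b hb
    rw [ad_one H C u x hub] at e2
    rw [e1]
    show (0 : ℝ) + l (Carnot.lin (C.pt x) b) = 0
    rw [e2, add_zero]
  exact h3

end

section

variable {g : Type} [NormedAddCommGroup g] [NormedSpace ℝ g] [FiniteDimensional ℝ g]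
  (H : CurveHyp g 2) (hNuni : NuniStatement g 2) (hDic : Dicho g 2)

include H hNuni hDic

/-- Rank two: the criterion `g = V₁ + V₂ + V₃ + Ad_y (V₁ + V₂ + V₃)`. -/
theorem main_C (hPoly : PolyStatement g 2) (hTriv : TrivStatement g) [MeasurableSpace g]
    [BorelSpace g] (μ : Measure g) [μ.IsAddHaarMeasure] (C : Carnot g 2)
    (hU : ∃ x, (C.V 1 ⊔ C.V 2 ⊔ C.V 3) ⊔
      (C.V 1 ⊔ C.V 2 ⊔ C.V 3).map (Carnot.lin (C.pt x)).toLinearMap = ⊤) :
    μ C.cut = 0 := by
  have hnt : Nontrivial g := by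
    refine ⟨C.X (EuclideanSpace.single 0 1), 0, fun h => ?_⟩
    have h1 := C.X_inj (h.trans (map_zero C.X).symm)
    have h2 := congrArg (fun v : EE 2 => v 0) h1
    simp at h2
  have h1 := hPoly μ C (C.V 1 ⊔ C.V 2 ⊔ C.V 3) hU
  have h2 := main_A' H hNuni hDic μ C
  have h4 : ∀ᵐ x ∂μ, Carnot.org (C.pt x) ≠ 0 := by
    refine ae_of_chart H C μ (fun b => b ≠ 0) ?_
    have h5 : μ {(0 : g)} = 0 := measure_singleton 0
    exact measure_eq_zero_iff_ae_notMem.1 h5
  have h3 : ∀ᵐ x ∂μ, C.Smooth x := by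
    filter_upwards [h1, h2, h4] with x hx1 hx2 hx4
    rcases hx2 with hx2 | ⟨u, hu, hub, l, hl⟩
    · exact hx2
    exfalso
    have hu0 : ‖u‖ ≠ 0 := by
      intro h0
      rw [norm_eq_zero] at h0
      refine hx4 ?_
      rw [← hub]
      have hz : (u : ℝ → EE 2) =ᵐ[volume.restrict (Ioc (0 : ℝ) 1)] fun _ => 0 := by
        rw [h0]
        exact Lp.coeFn_zero _ _ _
      have h01 : IntegrableOn (fun _ : ℝ => (0 : EE 2)) (Ioc 0 1) := integrable_zero _ _ _
      show Carnot.org (C.Gam u 1) = 0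
      rw [gam_congr H C u _ (ctl_int u) hz ⟨zero_le_one, le_rfl⟩]
      have hs : Sol C.R (fun _ : ℝ => (0 : EE 2)) (fun _ => 1) := by
        refine ⟨continuousOn_const, fun t _ => ?_⟩
        simp
      rw [← sol_unique H C _ h01 hs (gam_sol H C _ h01) ⟨zero_le_one, le_rfl⟩]
      rfl
    have hne : ∀ᵐ t ∂(volume.restrict (Ioc (0 : ℝ) 1)), u t ≠ 0 := by
      filter_upwards [H.spee C u hu] with t ht h0
      rw [h0, norm_zero] at ht
      exact hu0 ht.symm
    have ht3 := hTriv C u l hl hne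
    obtain ⟨⟨hl0, hs⟩, hg, _⟩ := hl
    have h01 : (0 : ℝ) ∈ Icc (0 : ℝ) 1 := ⟨le_rfl, zero_le_one⟩
    have h11 : (1 : ℝ) ∈ Icc (0 : ℝ) 1 := ⟨zero_le_one, le_rfl⟩
    have hV1 : ∀ t ∈ Icc (0 : ℝ) 1, ∀ z ∈ C.V 1, l (C.Ad u t z) = 0 := by
      intro t ht z hz
      rw [← C.X_range] at hz
      obtain ⟨a, rfl⟩ := hz
      exact hs t ht a
    have hV2 : ∀ t ∈ Icc (0 : ℝ) 1, ∀ z ∈ C.V 2, l (C.Ad u t z) = 0 := by
      intro t ht z hz
      rw [C.gen 1 le_rfl] at hz
      refine Submodule.span_induction ?_ ?_ ?_ ?_ hz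
      · rintro _ ⟨a, ha, b, hb, rfl⟩
        rw [← C.X_range] at ha hb
        obtain ⟨a, rfl⟩ := ha
        obtain ⟨b, rfl⟩ := hb
        exact hg t ht a b
      · rw [map_zero, map_zero]
      · intro a b _ _ ha hb
        rw [map_add, map_add, ha, hb, add_zero]
      · intro c a _ ha
        rw [map_smul, map_smul, ha, smul_zero]
    have hanti : ∀ x y : g, C.br x y = - C.br y x := by
      intro x y
      have h := C.br_self (x + y)
      have h2 : C.br (x + y) (x + y) = (C.br x x + C.br x y) + (C.br y x + C.br y y) := by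
        rw [map_add (C.br) x y]
        show C.br x (x + y) + C.br y (x + y) = _
        rw [map_add, map_add]
      rw [h2, C.br_self, C.br_self, zero_add, add_zero] at h
      exact eq_neg_of_add_eq_zero_left h
    have hV3 : ∀ t ∈ Icc (0 : ℝ) 1, ∀ z ∈ C.V 3, l (C.Ad u t z) = 0 := by
      intro t ht z hz
      rw [C.gen 2 (by norm_num)] at hz
      refine Submodule.span_induction ?_ ?_ ?_ ?_ hz
      · rintro _ ⟨c, hc, w, hw, rfl⟩
        rw [← C.X_range] at hc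
        obtain ⟨c, rfl⟩ := hc
        rw [hanti, map_neg, map_neg, neg_eq_zero]
        rw [C.gen 1 le_rfl] at hw
        refine Submodule.span_induction ?_ ?_ ?_ ?_ hw
        · rintro _ ⟨a, ha, b, hb, rfl⟩
          rw [← C.X_range] at ha hb
          obtain ⟨a, rfl⟩ := ha
          obtain ⟨b, rfl⟩ := hb
          exact ht3 t ht a b c
        · rw [map_zero, zero_apply, map_zero, map_zero]
        · intro a b _ _ ha hb
          rw [map_add, add_apply, map_add, map_add, ha, hb, add_zero]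
        · intro d a _ ha
          rw [map_smul, smul_apply, map_smul, map_smul, ha, smul_zero]
      · rw [map_zero, map_zero]
      · intro a b _ _ ha hb
        rw [map_add, map_add, ha, hb, add_zero]
      · intro c a _ ha
        rw [map_smul, map_smul, ha, smul_zero]
    have hU : ∀ t ∈ Icc (0 : ℝ) 1, ∀ z ∈ C.V 1 ⊔ C.V 2 ⊔ C.V 3, l (C.Ad u t z) = 0 := by
      intro t ht z hz
      obtain ⟨ab, hab, c, hc, rfl⟩ := Submodule.mem_sup.1 hz
      obtain ⟨a, ha, b, hb, rfl⟩ := Submodule.mem_sup.1 hab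
      rw [map_add, map_add, map_add, map_add, hV1 t ht a ha, hV2 t ht b hb, hV3 t ht c hc,
        add_zero, add_zero]
    refine hl0 (ContinuousLinearMap.ext fun z => ?_)
    have hz : z ∈ (C.V 1 ⊔ C.V 2 ⊔ C.V 3) ⊔
        (C.V 1 ⊔ C.V 2 ⊔ C.V 3).map (Carnot.lin (C.pt x)).toLinearMap :=
      hx1 ▸ Submodule.mem_top
    obtain ⟨a, ha, _, ⟨b, hb, rfl⟩, rfl⟩ := Submodule.mem_sup.1 hz
    rw [map_add]
    have e1 := hU 0 h01 a ha
    rw [ad_zero H] at e1
    have e2 := hU 1 h11 b hb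
    rw [ad_one H C u x hub] at e2
    rw [e1]
    show (0 : ℝ) + l (Carnot.lin (C.pt x) b) = 0
    rw [e2, add_zero]
  exact h3

/-- Rank two and step at most five. -/
theorem main_D [MeasurableSpace g] [BorelSpace g] (μ : Measure g) [μ.IsAddHaarMeasure]
    (C : Carnot g 2)
    (hR : μ {b | ∃ u : Ctl 2, C.EMin u ∧ C.End u = b ∧ ∃ l, C.NPrime u l} = 0) :
    μ C.cut = 0 := by
  have hnt : Nontrivial g := by
    refine ⟨C.X (EuclideanSpace.single 0 1), 0, fun h => ?_⟩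
    have h1 := C.X_inj (h.trans (map_zero C.X).symm)
    have h2 := congrArg (fun v : EE 2 => v 0) h1
    simp at h2
  have h2 := main_A' H hNuni hDic μ C
  have h4 : ∀ᵐ x ∂μ, ¬ ∃ u : Ctl 2, C.EMin u ∧ C.End u = Carnot.org (C.pt x) ∧
      ∃ l, C.NPrime u l :=
    ae_of_chart H C μ (fun b => ¬ ∃ u : Ctl 2, C.EMin u ∧ C.End u = b ∧ ∃ l, C.NPrime u l)
      (measure_eq_zero_iff_ae_notMem.1 hR)
  have h3 : ∀ᵐ x ∂μ, C.Smooth x := by
    filter_upwards [h2, h4] with x hx2 hx4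
    rcases hx2 with hx2 | hx2
    · exact hx2
    · exact absurd hx2 hx4
  exact h3

end

end Pool.Agent.CutLoci
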