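import Pool.Agent.Lib.MP_0e3b4a_gt.Asm5
import Pool.Agent.Lib.MP_0e3b4a_gt.Iface3

/-! # Assembly 6: the dichotomy with isotropy -/

set_option autoImplicit false
set_option linter.unusedSectionVars false

namespace Pool.Agent.CutLoci

open MeasureTheory Set Filter Topology

section

variable {g : Type} [NormedAddCommGroup g] [NormedSpace ℝ g] [FiniteDimensional ℝ g] {r : ℕ}

/-- STRICT2: for a minimiser, the energy drops at the endpoint, or the control is normal, or the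
conditions N' and isotropy hold. -/
theorem strict2 (hBad : BadStatement g r) (hLoca : LocaStatement g r)
    (hLoca2 : Loca2Statement g r)
    (hLims : LimsStatement g r) (hStruc : StrucStatement g r) (hBili : BiliStatement g r)
    (hExpb : ExpbStatement g r) (hKappa : KappaStatement g r) (hRange : RangeStatement g r)
    (hNfun : NfunStatement g r) (hDrop : DropStatement) (hRank : RankStatement)
    (C : Carnot g r) (u : Ctl r) (hu : C.EMin u) :
    DropAt C.f (C.End u) ∨ (∃ l, C.Normal u l) ∨ ∃ l, C.NPrime u l ∧ Iso C u l := by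
  obtain ⟨⟨Lf, hLf⟩, ⟨B, hB⟩, _, _⟩ := hBili C u
  have hL1 : ∀ x : Ctl r, Lf 1 x = C.W u x 1 := hLf 1 ⟨zero_le_one, le_rfl⟩
  let K : Submodule ℝ (Ctl r) := LinearMap.ker (Lf 1).toLinearMap
  have hK : ∀ x : Ctl r, x ∈ K ↔ C.Ker u x := by
    intro x
    rw [LinearMap.mem_ker]
    show Lf 1 x = 0 ↔ C.W u x 1 = 0
    rw [hL1]
  by_cases hφ : ∀ x : Ctl r, C.Ker u x → inner ℝ u x = (0 : ℝ)
  · exact Or.inr (Or.inl ((hNfun C u).1 hφ))
  push Not at hφ
  obtain ⟨x0, hx0, hne⟩ := hφ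
  -- the functional
  let φ : K →ₗ[ℝ] ℝ := (innerSL ℝ u).toLinearMap ∘ₗ K.subtype
  have hφv : ∀ v : K, φ v = inner ℝ u (v : Ctl r) := fun v => rfl
  have hneg : ∃ v : K, φ v < 0 := by
    rcases lt_or_gt_of_ne hne with h | h
    · exact ⟨⟨x0, (hK x0).2 hx0⟩, h⟩
    · refine ⟨-⟨x0, (hK x0).2 hx0⟩, ?_⟩
      rw [map_neg]
      show -(inner ℝ u x0 : ℝ) < 0
      linarith
  let BK : K →ₗ[ℝ] K →ₗ[ℝ] g :=
    { toFun := fun v => (B (v : Ctl r)).toLinearMap ∘ₗ K.subtype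
      map_add' := fun v w => by
        ext k
        show B ((v : Ctl r) + w) k = B v k + B w k
        rw [map_add]; rfl
      map_smul' := fun c v => by
        ext k
        show B (c • (v : Ctl r)) k = c • B v k
        rw [map_smul]; rfl }
  have hBK : ∀ v k : K, BK v k = C.Q u (v : Ctl r) (k : Ctl r) := fun v k => hB v k
  have hend : C.f (C.End u) = ‖u‖ ^ 2 / 2 := f_eq C u hu
  rcases hRank K g BK φ (LinearMap.range (Lf 1).toLinearMap) hneg with h | h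
  · -- drop
    left
    obtain ⟨v, hv, hon⟩ := h
    obtain ⟨G, hG1, hG2, hG3⟩ := hExpb C u
    let Bd : Ctl r →L[ℝ] g := (C.kap (C.End u)).comp (Lf 1)
    have hBd : ∀ x, Bd x = C.kap (C.End u) (C.W u x 1) := by
      intro x
      show C.kap (C.End u) (Lf 1 x) = _
      rw [hL1]
    have hker : ∀ x : Ctl r, Bd x = 0 ↔ C.Ker u x := by
      intro x
      rw [hBd]
      constructor
      · intro h
        exact (hKappa C (C.End u)).1 (by rw [h, map_zero])
      · intro h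
        have h' : C.W u x 1 = 0 := h
        rw [h', map_zero]
    obtain ⟨O, c, s0, hO, hOne, hc, hs0, hd⟩ := hDrop (Ctl r) g (fun v => C.End v) u Bd G hG1
      (fun δ x => by rw [hBd]; exact hG2 δ x) (v : Ctl r) ((hker _).2 ((hK _).1 v.2)) hv (by
        intro e
        obtain ⟨e', he'⟩ := (hKappa C (C.End u)).2 e
        obtain ⟨k, i, ⟨h', hh'⟩, hki⟩ := hon e'
        refine ⟨k, h', (hker _).2 ((hK _).1 k.2), ?_⟩
        rw [hG3 _ _ ((hK _).1 v.2) ((hK _).1 k.2), hBd, ← map_add, ← he']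
        congr 1
        rw [← hki, hBK, ← hh']
        congr 1
        exact (hL1 h').symm)
    refine ⟨O, c, s0, hO, hOne, hc, hs0, fun ξ hξ s hs => ?_⟩
    obtain ⟨u', hu', hle⟩ := hd ξ hξ s hs
    rw [hend, ← hu']
    exact (f_le C u').trans hle
  · -- finite rank
    right; right
    obtain ⟨l0, hl0, hlI, N, hN1, hN2⟩ := h
    let l : g →L[ℝ] ℝ := LinearMap.toContinuousLinearMap l0
    have hll : ∀ x, l x = l0 x := fun x => rfl
    have hlne : l ≠ 0 := by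
      intro h
      refine hl0 (LinearMap.ext fun x => ?_)
      rw [← hll, h]; rfl
    have hsing : C.Sing u l := by
      refine ⟨hlne, ?_⟩
      refine (hRange C u l 0 1 le_rfl one_pos le_rfl).1 fun x _ => ?_
      rw [hll, ← hL1]
      exact hlI _ ⟨x, rfl⟩
    have hf1 : ∀ x : Fin (Module.finrank ℝ (K ⧸ N) + 1) → Ctl r, (∀ i, C.Ker u (x i)) →
        ∃ c : Fin (Module.finrank ℝ (K ⧸ N) + 1) → ℝ, c ≠ 0 ∧ ∑ i, c i • x i ∈
          N.map K.subtype := by
      intro x hx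
      have h3 : ¬ LinearIndependent ℝ (fun i => N.mkQ ⟨x i, (hK _).2 (hx i)⟩) := by
        intro hli
        have := hli.fintype_card_le_finrank
        simp at this
      rw [Fintype.not_linearIndependent_iff] at h3
      obtain ⟨c, hc, i, hi⟩ := h3
      refine ⟨c, fun h => hi (congrFun h i), ?_⟩
      refine ⟨∑ i, c i • ⟨x i, (hK _).2 (hx i)⟩, ?_, ?_⟩
      · have h5 : N.mkQ (∑ i, c i • (⟨x i, (hK _).2 (hx i)⟩ : K)) = 0 := by
          rw [map_sum, ← hc]
          exact Finset.sum_congr rfl fun i _ => map_smul _ _ _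
        exact (Submodule.Quotient.mk_eq_zero N).1 h5
      · rw [map_sum]
        exact Finset.sum_congr rfl fun i _ => rfl
    have hf2 : ∀ x ∈ N.map K.subtype, ∀ k : Ctl r, C.Ker u x → C.Ker u k →
        l (C.Q u k x) = 0 := by
      rintro _ ⟨x, hx, rfl⟩ k _ hk
      rw [hll]
      have h4 := hN2 x hx ⟨k, (hK _).2 hk⟩
      rw [hBK] at h4
      exact h4
    refine ⟨l, finite_nprime hBad hLoca hLims hStruc C u l hsing (N.map K.subtype)
      (Module.finrank ℝ (K ⧸ N)) hf1 hf2, ?_⟩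
    obtain ⟨Z, hZ⟩ := hBad C u l (N.map K.subtype) (Module.finrank ℝ (K ⧸ N)) hf1 hf2
    exact ⟨Z, fun t ht htZ y hy z hz => hLoca2 C u l t (hZ t ht htZ) y hy z hz⟩

/-- THE DICHOTOMY in the chart. -/
theorem dichotomy2 (hBad : BadStatement g r) (hLoca : LocaStatement g r)
    (hLoca2 : Loca2Statement g r)
    (hLims : LimsStatement g r) (hStruc : StrucStatement g r) (hBili : BiliStatement g r)
    (hExpb : ExpbStatement g r) (hKappa : KappaStatement g r) (hRange : RangeStatement g r)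
    (hNfun : NfunStatement g r) (hDrop : DropStatement) (hRank : RankStatement)
    (hStrd : StrdStatement g r) (hSupg : SupgStatement) (hNuni : NuniStatement g r)
    (hMini : MiniStatement g r) (hCrit : CritStatement g r) (hLina : LinaStatement)
    (hLinb : LinbStatement) [Nontrivial g] [MeasurableSpace g] [BorelSpace g] (μ : Measure g)
    [μ.IsAddHaarMeasure] (C : Carnot g r) :
    ∀ᵐ b ∂μ, C.SmoothE b ∨ ∃ u : Ctl r, C.EMin u ∧ C.End u = b ∧ (¬ ∃ l, C.Normal u l) ∧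
      ∃ l, C.NPrime u l ∧ Iso C u l := by
  obtain ⟨hmin, hlsc⟩ := hMini C
  have h1 : ∀ᵐ b ∂μ, ¬ DropAt C.f b :=
    measure_eq_zero_iff_ae_notMem.1 (hLina g μ C.f hlsc (f_nonneg C))
  have h2 : ∀ᵐ b ∂μ, ¬ ∃ p p' : g →L[ℝ] ℝ, p ≠ p' ∧ SuperAt C.f b p ∧ SuperAt C.f b p' :=
    measure_eq_zero_iff_ae_notMem.1 (hLinb g μ C.f hlsc)
  have h3 : ∀ᵐ b ∂μ, ¬ ∃ u : Ctl r, C.End u = b ∧ C.ConjE u :=
    measure_eq_zero_iff_ae_notMem.1 (hCrit μ C)
  have h4 : ∀ᵐ b ∂μ, b ≠ 0 := by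
    have h5 : μ {(0 : g)} = 0 := measure_singleton 0
    exact measure_eq_zero_iff_ae_notMem.1 h5
  filter_upwards [h1, h2, h3, h4] with b hb1 hb2 hb3 hb4
  by_cases hN : ∃ u : Ctl r, C.EMin u ∧ C.End u = b ∧ (¬ ∃ l, C.Normal u l) ∧
      ∃ l, C.NPrime u l ∧ Iso C u l
  · exact Or.inr hN
  left
  -- every minimiser is normal
  have hnor : ∀ u : Ctl r, C.EMin u → C.End u = b → ∃ l, C.Normal u l := by
    intro u hu hub
    by_contra hnn
    rcases strict2 hBad hLoca hLoca2 hLims hStruc hBili hExpb hKappa hRange hNfun hDrop hRank C u hu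
      with h | h | h
    · rw [hub] at h
      exact hb1 h
    · exact hnn h
    · exact hN ⟨u, hu, hub, hnn, h⟩
  have hnc : ∀ u : Ctl r, C.End u = b → ¬ C.ConjE u := fun u hub hc => hb3 ⟨u, hub, hc⟩
  have hns : ∀ u : Ctl r, C.EMin u → C.End u = b → ¬ ∃ l, C.Sing u l := by
    intro u hu hub hs
    obtain ⟨l, hl⟩ := hnor u hu hub
    exact hnc u hub (conj_of_sing hNuni C u l hl hs)
  obtain ⟨u, hu, hub⟩ := hmin b
  refine ⟨hb4, u, hu, hub, ?_, hns u hu hub, hnc u hub⟩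
  intro v hv hvb
  obtain ⟨l, hl⟩ := hnor u hu hub
  obtain ⟨m, hm⟩ := hnor v hv hvb
  obtain ⟨p, hp1, hp2⟩ := super hBili hRange hKappa hStrd hNfun hSupg C u hu l hl (hns u hu hub)
  obtain ⟨q, hq1, hq2⟩ := super hBili hRange hKappa hStrd hNfun hSupg C v hv m hm (hns v hv hvb)
  rw [hub] at hp1 hp2
  rw [hvb] at hq1 hq2
  by_cases hpq : p = q
  · have hlm : l = m := by
      ext w
      rw [← hp1, ← hq1, hpq]
    subst hlm
    exact hNuni C v u l hm hl
  · exact absurd ⟨p, q, hpq, hp2, hq2⟩ hb2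


end

namespace Carnot

variable {g : Type} [NormedAddCommGroup g] [NormedSpace ℝ g] [FiniteDimensional ℝ g] {r : ℕ}

/-- The left local span of `Ad_γ V₁` at time `t`. -/
def spanL (C : Carnot g r) (γ : ℝ → Aff g) (t : ℝ) : Submodule ℝ g :=
  ⨅ η : {η : ℝ // 0 < η}, Submodule.span ℝ
    {z | ∃ s ∈ Ioo (t - (η : ℝ)) t ∩ Icc 0 1, ∃ a, z = lin (γ s) (C.X a)}

/-- The right local span of `Ad_γ V₁` at time `t`. -/
def spanR (C : Carnot g r) (γ : ℝ → Aff g) (t : ℝ) : Submodule ℝ g :=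
  ⨅ η : {η : ℝ // 0 < η}, Submodule.span ℝ
    {z | ∃ s ∈ Ioo t (t + (η : ℝ)) ∩ Icc 0 1, ∃ a, z = lin (γ s) (C.X a)}

/-- The curve with control `u` is degenerate with covector `l`: `l ≠ 0` annihilates
`Ad_{γ(t)} V₁`, `Ad_{γ(t)} V₂` for all `t`, `Ad_{γ(t)} [[u(t), V₁], V₁]` for almost all `t`, and
`l [y, z] = 0` for all but finitely many `t`, all `y` in both local spans at `t`, and all `z` in
their sum. -/
def Degenerate (C : Carnot g r) (u : ℝ → EE r) (l : g →L[ℝ] ℝ) : Prop :=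
  l ≠ 0 ∧ ∃ γ, C.IsCurve u γ ∧ (∀ t ∈ Icc (0 : ℝ) 1, ∀ a, l (lin (γ t) (C.X a)) = 0) ∧
    (∀ t ∈ Icc (0 : ℝ) 1, ∀ a b, l (lin (γ t) (C.br (C.X a) (C.X b))) = 0) ∧
    (∀ᵐ t ∂(volume.restrict (Ioc (0 : ℝ) 1)), ∀ a b,
      l (lin (γ t) (C.br (C.br (C.X (u t)) (C.X a)) (C.X b))) = 0) ∧
    ∃ Z : Finset ℝ, ∀ t ∈ Ioo (0 : ℝ) 1, t ∉ Z → ∀ y ∈ C.spanL γ t ⊓ C.spanR γ t,
      ∀ z ∈ C.spanL γ t ⊔ C.spanR γ t, l (C.br y z) = 0

end Carnot

section

variable {g : Type} [NormedAddCommGroup g] [NormedSpace ℝ g] [FiniteDimensional ℝ g] {r : ℕ}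

/-- The dichotomy with isotropy, as a statement. -/
def Dicho2 (g : Type) [NormedAddCommGroup g] [NormedSpace ℝ g] [FiniteDimensional ℝ g]
    (r : ℕ) : Prop :=
  ∀ [Nontrivial g] [MeasurableSpace g] [BorelSpace g] (μ : Measure g)
    [μ.IsAddHaarMeasure] (C : Carnot g r),
    ∀ᵐ b ∂μ, C.SmoothE b ∨ ∃ u : Ctl r, C.EMin u ∧ C.End u = b ∧ (¬ ∃ l, C.Normal u l) ∧
      ∃ l, C.NPrime u l ∧ Iso C u l

variable (H : CurveHyp g r) (hNuni : NuniStatement g r) (hDic : Dicho2 g r)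

include H hNuni hDic

/-- Almost every point is smooth or has a strictly abnormal degenerate minimiser. -/
theorem main_A2 [Nontrivial g] [MeasurableSpace g] [BorelSpace g] (μ : Measure g)
    [μ.IsAddHaarMeasure] (C : Carnot g r) :
    ∀ᵐ x ∂μ, C.Smooth x ∨
      ∃ u, C.IsMin u x ∧ (¬ ∃ l, C.IsNormal u l) ∧ ∃ l, C.Degenerate u l := by
  have h1 := ae_of_chart H C μ _ (hDic μ C)
  filter_upwards [h1] with x hx
  rcases hx with hx | ⟨u, hu, hub, hun, l, hl, hI⟩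
  · exact Or.inl (smooth_of H C hNuni x hx)
  · refine Or.inr ⟨u, isMin_of_eMin H C x u hu hub, ?_, l, hl.1.1, C.Gam u,
      ⟨ctl_int u, gam_sol H C u (ctl_int u)⟩, hl.1.2, hl.2.1, hl.2.2, hI⟩
    rintro ⟨m, hm⟩
    exact hun ⟨m, ((isNormal_iff H C u m).1 hm).2⟩

/-- If the endpoints of degenerate minimisers are a null set then the cut locus is negligible. -/
theorem main_E [Nontrivial g] [MeasurableSpace g] [BorelSpace g] (μ : Measure g)
    [μ.IsAddHaarMeasure] (C : Carnot g r)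
    (hR : μ {b | ∃ u : Ctl r, C.EMin u ∧ C.End u = b ∧ ∃ l, C.NPrime u l ∧ Iso C u l} = 0) :
    μ C.cut = 0 := by
  have h2 := ae_of_chart H C μ _ (hDic μ C)
  have h4 : ∀ᵐ x ∂μ, ¬ ∃ u : Ctl r, C.EMin u ∧ C.End u = Carnot.org (C.pt x) ∧
      ∃ l, C.NPrime u l ∧ Iso C u l :=
    ae_of_chart H C μ (fun b => ¬ ∃ u : Ctl r, C.EMin u ∧ C.End u = b ∧
      ∃ l, C.NPrime u l ∧ Iso C u l)
      (measure_eq_zero_iff_ae_notMem.1 hR)
  have h3 : ∀ᵐ x ∂μ, C.Smooth x := by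
    filter_upwards [h2, h4] with x hx2 hx4
    rcases hx2 with hx2 | ⟨u, hu, hub, _, l, hl⟩
    · exact smooth_of H C hNuni x hx2
    · exact absurd ⟨u, hu, hub, l, hl⟩ hx4
  exact h3

end

end Pool.Agent.CutLoci
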