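import Pool.Agent.Lib.MP_0e3b4a_gt.Asm5

/-! # Assembly 8: the third order criterion -/

set_option autoImplicit false
set_option linter.unusedSectionVars false

namespace Pool.Agent.CutLoci

open MeasureTheory Set Filter Topology

section

variable {g : Type} [NormedAddCommGroup g] [NormedSpace ℝ g] [FiniteDimensional ℝ g] {r : ℕ}

/-- `V₁ + V₂ + [[c, V₁], V₁]`. -/
def Carnot.U3 (C : Carnot g r) (c : EE r) : Submodule ℝ g :=
  C.V 1 ⊔ C.V 2 ⊔ Submodule.span ℝ {z | ∃ a b, z = C.br (C.br (C.X c) (C.X a)) (C.X b)}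

/-- Limits of the third order condition. -/
theorem limit_third (hStruc : StrucStatement g r) (C : Carnot g r) (u : Ctl r)
    (l : g →L[ℝ] ℝ) (R : ℝ)
    (hn : ∀ᵐ t ∂(volume.restrict (Ioc (0 : ℝ) 1)), ‖u t‖ = R)
    (h3 : ∀ᵐ t ∂(volume.restrict (Ioc (0 : ℝ) 1)), ∀ a b,
      l (C.Ad u t (C.br (C.br (C.X (u t)) (C.X a)) (C.X b))) = 0) (t0 : ℝ)
    (ht0 : t0 ∈ Icc (0 : ℝ) 1) :
    ∃ c : EE r, ‖c‖ = R ∧ ∀ a b,
      l (C.Ad u t0 (C.br (C.br (C.X c) (C.X a)) (C.X b))) = 0 := by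
  obtain ⟨-, hAc, -⟩ := hStruc C u (ctl_int u)
  have hae := hn.and h3
  rw [ae_restrict_iff' measurableSet_Ioc] at hae
  -- a sequence of good times
  have hseq : ∀ n : ℕ, ∃ t ∈ Ioo (0 : ℝ) 1, |t - t0| < 1 / ((n : ℝ) + 1) ∧ ‖u t‖ = R ∧
      ∀ a b, l (C.Ad u t (C.br (C.br (C.X (u t)) (C.X a)) (C.X b))) = 0 := by
    intro n
    have hpos : (0 : ℝ) < 1 / ((n : ℝ) + 1) := by positivity
    by_contra hcon
    push Not at hcon
    have h4 : volume (Ioo (max 0 (t0 - 1 / ((n : ℝ) + 1))) (min 1 (t0 + 1 / ((n : ℝ) + 1)))) = 0 := by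
      refine measure_mono_null ?_ hae
      intro t ht hgood
      have ht1 : max 0 (t0 - 1 / ((n : ℝ) + 1)) < t := ht.1
      have ht2 : t < min 1 (t0 + 1 / ((n : ℝ) + 1)) := ht.2
      rw [max_lt_iff] at ht1
      rw [lt_min_iff] at ht2
      obtain ⟨hg1, hg2⟩ := hgood ⟨ht1.1, ht2.1.le⟩
      obtain ⟨a, b, hab⟩ := hcon t ⟨ht1.1, ht2.1⟩
        (abs_lt.2 ⟨by linarith [ht1.2], by linarith [ht2.2]⟩) hg1
      exact hab (hg2 a b)
    rw [Real.volume_Ioo, ENNReal.ofReal_eq_zero] at h4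
    have h5 : max 0 (t0 - 1 / ((n : ℝ) + 1)) < min 1 (t0 + 1 / ((n : ℝ) + 1)) := by
      rw [max_lt_iff, lt_min_iff, lt_min_iff]
      exact ⟨⟨one_pos, by linarith [ht0.1]⟩, by linarith [ht0.2], by linarith⟩
    linarith
  choose t ht htt htn ht3 using hseq
  have hcomp : IsCompact (Metric.closedBall (0 : EE r) R) := isCompact_closedBall 0 R
  obtain ⟨c, -, φ, hφ, hc⟩ := hcomp.tendsto_subseq (x := fun n => (u : ℝ → EE r) (t n))
    (fun n => by rw [mem_closedBall_zero_iff]; exact (htn n).le)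
  refine ⟨c, ?_, fun a b => ?_⟩
  · have h6 : Tendsto (fun n => ‖(u : ℝ → EE r) (t (φ n))‖) atTop (𝓝 ‖c‖) := hc.norm
    have h7 : (fun n => ‖(u : ℝ → EE r) (t (φ n))‖) = fun _ => R := funext fun n => htn _
    rw [h7] at h6
    exact tendsto_nhds_unique h6 tendsto_const_nhds
  · have ht' : Tendsto t atTop (𝓝 t0) := by
      rw [tendsto_iff_dist_tendsto_zero]
      refine squeeze_zero (fun n => dist_nonneg) (fun n => ?_)
        (tendsto_one_div_add_atTop_nhds_zero_nat (𝕜 := ℝ))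
      rw [Real.dist_eq]
      exact (htt n).le
    have ht'' : Tendsto (fun n => t (φ n)) atTop (𝓝[Icc 0 1] t0) := by
      refine tendsto_nhdsWithin_iff.2 ⟨ht'.comp hφ.tendsto_atTop, ?_⟩
      exact Eventually.of_forall fun n => Ioo_subset_Icc_self (ht _)
    have hA : Tendsto (fun n => C.Ad u (t (φ n))) atTop (𝓝 (C.Ad u t0)) :=
      (hAc t0 ht0).tendsto.comp ht''
    have hZ : Tendsto (fun n => C.br (C.br (C.X ((u : ℝ → EE r) (t (φ n)))) (C.X a)) (C.X b))
        atTop (𝓝 (C.br (C.br (C.X c) (C.X a)) (C.X b))) := by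
      have hcont : Continuous fun c : EE r => C.br (C.br (C.X c) (C.X a)) (C.X b) := by fun_prop
      exact (hcont.tendsto c).comp hc
    have h8 : Tendsto (fun n => l (C.Ad u (t (φ n))
        (C.br (C.br (C.X ((u : ℝ → EE r) (t (φ n)))) (C.X a)) (C.X b)))) atTop
        (𝓝 (l (C.Ad u t0 (C.br (C.br (C.X c) (C.X a)) (C.X b))))) :=
      (l.continuous.tendsto _).comp (((isBoundedBilinearMap_apply (𝕜 := ℝ) (E := g)
        (F := g)).continuous.tendsto (C.Ad u t0, C.br (C.br (C.X c) (C.X a)) (C.X b))).comp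
          (hA.prodMk_nhds hZ))
    have h9 : (fun n => l (C.Ad u (t (φ n))
        (C.br (C.br (C.X ((u : ℝ → EE r) (t (φ n)))) (C.X a)) (C.X b)))) = fun _ => 0 :=
      funext fun n => ht3 _ a b
    rw [h9] at h8
    exact tendsto_nhds_unique h8 tendsto_const_nhds

variable (H : CurveHyp g r) (hNuni : NuniStatement g r) (hDic : Dicho g r)

include H hNuni hDic

/-- The third order criterion. -/
theorem main_B3 [Nontrivial g] [MeasurableSpace g] [BorelSpace g]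
    (μ : Measure g) [μ.IsAddHaarMeasure] (C : Carnot g r)
    (hU : ∀ᵐ x ∂μ, ∀ c c' : EE r, c ≠ 0 → c' ≠ 0 →
      C.U3 c ⊔ (C.U3 c').map (Carnot.lin (C.pt x)).toLinearMap = ⊤) :
    μ C.cut = 0 := by
  have h2 := main_A' H hNuni hDic μ C
  have h4 : ∀ᵐ x ∂μ, Carnot.org (C.pt x) ≠ 0 := by
    refine ae_of_chart H C μ (fun b => b ≠ 0) ?_
    have h5 : μ {(0 : g)} = 0 := measure_singleton 0
    exact measure_eq_zero_iff_ae_notMem.1 h5
  have h3 : ∀ᵐ x ∂μ, C.Smooth x := by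
    filter_upwards [hU, h2, h4] with x hx1 hx2 hx4
    rcases hx2 with hx2 | ⟨u, hu, hub, l, hl⟩
    · exact hx2
    exfalso
    have hu0 : ‖u‖ ≠ 0 := by
      intro h0
      rw [norm_eq_zero] at h0
      refine hx4 ?_
      rw [← hub]
      have hz : (u : ℝ → EE r) =ᵐ[volume.restrict (Ioc (0 : ℝ) 1)] fun _ => 0 := by
        rw [h0]
        exact Lp.coeFn_zero _ _ _
      have h01 : IntegrableOn (fun _ : ℝ => (0 : EE r)) (Ioc 0 1) := integrable_zero _ _ _
      show Carnot.org (C.Gam u 1) = 0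
      rw [gam_congr H C u _ (ctl_int u) hz ⟨zero_le_one, le_rfl⟩]
      have hs : Sol C.R (fun _ : ℝ => (0 : EE r)) (fun _ => 1) := by
        refine ⟨continuousOn_const, fun t _ => ?_⟩
        simp
      rw [← sol_unique H C _ h01 hs (gam_sol H C _ h01) ⟨zero_le_one, le_rfl⟩]
      rfl
    obtain ⟨⟨hl0, hs⟩, hg, hth⟩ := hl
    have h01 : (0 : ℝ) ∈ Icc (0 : ℝ) 1 := ⟨le_rfl, zero_le_one⟩
    have h11 : (1 : ℝ) ∈ Icc (0 : ℝ) 1 := ⟨zero_le_one, le_rfl⟩
    have hV1 : ∀ t ∈ Icc (0 : ℝ) 1, ∀ z ∈ C.V 1, l (C.Ad u t z) = 0 := by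
      intro t ht z hz
      rw [← C.X_range] at hz
      obtain ⟨a, rfl⟩ := hz
      exact hs t ht a
    have hV2 : ∀ t ∈ Icc (0 : ℝ) 1, ∀ z ∈ C.V 2, l (C.Ad u t z) = 0 := by
      intro t ht z hz
      rw [C.gen 1 le_rfl] at hz
      refine Submodule.span_induction ?_ ?_ ?_ ?_ hz
      · rintro _ ⟨a, ha, b, hb, rfl⟩
        rw [← C.X_range] at ha hb
        obtain ⟨a, rfl⟩ := ha
        obtain ⟨b, rfl⟩ := hb
        exact hg t ht a b
      · rw [map_zero, map_zero]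
      · intro a b _ _ ha hb
        rw [map_add, map_add, ha, hb, add_zero]
      · intro c a _ ha
        rw [map_smul, map_smul, ha, smul_zero]
    have hU3 : ∀ t ∈ Icc (0 : ℝ) 1, ∃ c : EE r, c ≠ 0 ∧ ∀ z ∈ C.U3 c, l (C.Ad u t z) = 0 := by
      intro t ht
      obtain ⟨c, hc, hc3⟩ := limit_third H.struc C u l ‖u‖ (H.spee C u hu) hth t ht
      refine ⟨c, fun h => hu0 (by rw [← hc, h, norm_zero]), fun z hz => ?_⟩
      obtain ⟨z12, hz12, z3, hz3, rfl⟩ := Submodule.mem_sup.1 hz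
      obtain ⟨z1, hz1, z2, hz2, rfl⟩ := Submodule.mem_sup.1 hz12
      have e3 : l (C.Ad u t z3) = 0 := by
        refine Submodule.span_induction ?_ ?_ ?_ ?_ hz3
        · rintro _ ⟨a, b, rfl⟩
          exact hc3 a b
        · rw [map_zero, map_zero]
        · intro a b _ _ ha hb
          rw [map_add, map_add, ha, hb, add_zero]
        · intro c a _ ha
          rw [map_smul, map_smul, ha, smul_zero]
      rw [map_add, map_add, map_add, map_add, hV1 t ht z1 hz1, hV2 t ht z2 hz2, e3, add_zero,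
        add_zero]
    obtain ⟨c, hc, hc0⟩ := hU3 0 h01
    obtain ⟨c', hc', hc1⟩ := hU3 1 h11
    refine hl0 (ContinuousLinearMap.ext fun z => ?_)
    have hz : z ∈ C.U3 c ⊔ (C.U3 c').map (Carnot.lin (C.pt x)).toLinearMap :=
      hx1 c c' hc hc' ▸ Submodule.mem_top
    obtain ⟨a, ha, _, ⟨b, hb, rfl⟩, rfl⟩ := Submodule.mem_sup.1 hz
    rw [map_add]
    have e1 := hc0 a ha
    rw [ad_zero H] at e1
    have e2 := hc1 b hb
    rw [ad_one H C u x hub] at e2
    rw [e1]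
    show (0 : ℝ) + l (Carnot.lin (C.pt x) b) = 0
    rw [e2, add_zero]
  exact h3

end

end Pool.Agent.CutLoci
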