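import Mathlib

/-! # Carnot groups, horizontal curves, the cut locus: definitions

A Carnot algebra is a finite-dimensional real vector space `g` with a bracket and a
stratification `V 1, ..., V s`; `D` is the derivation which is multiplication by `j` on `V j`;
`X` is an orthonormal frame of `V 1` (a scalar product on `V 1` is the same as such a frame).

The simply connected group `G` of `g` acts on `g` by affine transformations: the Lie algebra acts
by `z ↦ [x, z] + D x`.  This action is faithful and simply transitive.  We write affine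
transformations as linear maps of `g × ℝ`. -/

set_option autoImplicit false

namespace Pool.Agent.CutLoci

open MeasureTheory Set

/-- The horizontal layer in an orthonormal frame. -/
abbrev EE (r : ℕ) : Type := EuclideanSpace ℝ (Fin r)

/-- Square integrable controls on `[0, 1]`. -/
abbrev Ctl (r : ℕ) : Type := Lp (EE r) 2 ((volume : Measure ℝ).restrict (Ioc (0 : ℝ) 1))

section Flow

variable {r : ℕ} {A : Type} [NormedRing A] [NormedAlgebra ℝ A]

/-- Iterated integrals. -/
noncomputable def iter (R : EE r →L[ℝ] A) (u : ℝ → EE r) : ℕ → ℝ → A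
  | 0, _ => 1
  | k + 1, t => ∫ s in (0 : ℝ)..t, iter R u k s * R (u s)

/-- The ordered exponential (for nilpotent `R`: a finite sum). -/
noncomputable def flow (R : EE r →L[ℝ] A) (N : ℕ) (u : ℝ → EE r) (t : ℝ) : A :=
  ∑ k ∈ Finset.range N, iter R u k t

/-- Products of `N` values of `R` vanish. -/
def Nil (R : EE r →L[ℝ] A) (N : ℕ) : Prop :=
  ∀ a : Fin N → EE r, (List.ofFn fun i => R (a i)).prod = 0

/-- Solutions of `Γ' = Γ R(u)`, `Γ(0) = 1`. -/
def Sol (R : EE r →L[ℝ] A) (u : ℝ → EE r) (Γ : ℝ → A) : Prop :=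
  ContinuousOn Γ (Icc 0 1) ∧ ∀ t ∈ Icc (0 : ℝ) 1, Γ t = 1 + ∫ s in (0 : ℝ)..t, Γ s * R (u s)

end Flow

/-- A Carnot algebra with an orthonormal frame of the first layer. -/
structure Carnot (g : Type) [NormedAddCommGroup g] [NormedSpace ℝ g] (r : ℕ) where
  /-- the bracket -/
  br : g →L[ℝ] g →L[ℝ] g
  br_self : ∀ x, br x x = 0
  jacobi : ∀ x y z, br x (br y z) = br (br x y) z + br y (br x z)
  /-- the step -/
  s : ℕ
  /-- the layers -/
  V : ℕ → Submodule ℝ g
  /-- the grading derivation -/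
  D : g →L[ℝ] g
  D_V : ∀ j, ∀ x ∈ V j, D x = (j : ℝ) • x
  V_zero : V 0 = ⊥
  V_big : ∀ j, s < j → V j = ⊥
  V_top : ⨆ j, V j = ⊤
  gen : ∀ j, 1 ≤ j → V (j + 1) = Submodule.span ℝ {z | ∃ x ∈ V 1, ∃ y ∈ V j, z = br x y}
  /-- the orthonormal frame -/
  X : EE r →L[ℝ] g
  X_inj : Function.Injective X
  X_range : LinearMap.range X.toLinearMap = V 1

namespace Carnot

variable {g : Type} [NormedAddCommGroup g] [NormedSpace ℝ g] [FiniteDimensional ℝ g] {r : ℕ}
  (C : Carnot g r)

/-- Linear transformations of `g × ℝ`. -/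
abbrev Aff (g : Type) [NormedAddCommGroup g] [NormedSpace ℝ g] : Type :=
  (g × ℝ) →L[ℝ] (g × ℝ)

/-- The affine representation `(z, c) ↦ ([x, z] + c D x, 0)`. -/
noncomputable def rep : g →L[ℝ] Aff g :=
  LinearMap.toContinuousLinearMap
    { toFun := fun x => (ContinuousLinearMap.inl ℝ g ℝ).comp
        ((C.br x).comp (ContinuousLinearMap.fst ℝ g ℝ) +
          (ContinuousLinearMap.snd ℝ g ℝ).smulRight (C.D x))
      map_add' := fun x y => by
        ext z <;> simp
      map_smul' := fun c x => by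
        ext z <;> simp [smul_smul, mul_comm] }

theorem rep_apply (x : g) (z : g × ℝ) : C.rep x z = (C.br x z.1 + z.2 • C.D x, 0) := by
  simp [rep]

/-- The horizontal part of the representation. -/
noncomputable def R : EE r →L[ℝ] Aff g := C.rep.comp C.X

/-- The horizontal curve in the group with control `u`. -/
noncomputable def Gam (u : ℝ → EE r) (t : ℝ) : Aff g := flow C.R (C.s + 1) u t

/-- The linear part (adjoint action) of an affine transformation. -/
def lin (T : Aff g) : g →L[ℝ] g :=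
  (ContinuousLinearMap.fst ℝ g ℝ).comp (T.comp (ContinuousLinearMap.inl ℝ g ℝ))

/-- The image of the origin. -/
def org (T : Aff g) : g := (T (0, 1)).1

/-- `Ad` along the curve. -/
noncomputable def Ad (u : ℝ → EE r) (t : ℝ) : g →L[ℝ] g := lin (C.Gam u t)

/-- The endpoint map, in the chart `T ↦ T 0` of the group. -/
noncomputable def End (u : ℝ → EE r) : g := org (C.Gam u 1)

/-- The first variation up to time `t` in the right trivialisation. -/
noncomputable def W (u : ℝ → EE r) (x : ℝ → EE r) (t : ℝ) : g :=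
  ∫ s in (0 : ℝ)..t, C.Ad u s (C.X (x s))

/-- `κ_b w = D w + [w, b]`: from the right trivialisation to the chart, at the point `b`. -/
noncomputable def kap (b : g) : g →L[ℝ] g := C.D + C.br.flip b

/-- The second variation in the right trivialisation. -/
noncomputable def Q (u : ℝ → EE r) (x y : ℝ → EE r) : g :=
  ∫ t in (0 : ℝ)..1, C.br (C.W u x t) (C.Ad u t (C.X (y t)))

/-- The kernel of the first variation. -/
def Ker (u : ℝ → EE r) (x : ℝ → EE r) : Prop := C.W u x 1 = 0

/-- Abnormal (singular) controls, with covector `l` in the right trivialisation. -/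
def Sing (u : ℝ → EE r) (l : g →L[ℝ] ℝ) : Prop :=
  l ≠ 0 ∧ ∀ t ∈ Icc (0 : ℝ) 1, ∀ a, l (C.Ad u t (C.X a)) = 0

/-- Normal controls, with covector `l` in the right trivialisation. -/
def Normal (u : ℝ → EE r) (l : g →L[ℝ] ℝ) : Prop :=
  ∀ᵐ t ∂(volume.restrict (Ioc (0 : ℝ) 1)), ∀ a, inner ℝ (u t) a = l (C.Ad u t (C.X a))

/-- The conditions on strictly abnormal minimisers. -/
def NPrime (u : ℝ → EE r) (l : g →L[ℝ] ℝ) : Prop :=
  C.Sing u l ∧ (∀ t ∈ Icc (0 : ℝ) 1, ∀ a b, l (C.Ad u t (C.br (C.X a) (C.X b))) = 0) ∧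
    ∀ᵐ t ∂(volume.restrict (Ioc (0 : ℝ) 1)), ∀ a b,
      l (C.Ad u t (C.br (C.br (C.X (u t)) (C.X a)) (C.X b))) = 0

/-- The energy function in the chart. -/
noncomputable def f (b : g) : ℝ := sInf {c | ∃ u : Ctl r, C.End u = b ∧ c = ‖u‖ ^ 2 / 2}

/-- Energy minimisers. -/
def EMin (u : Ctl r) : Prop := ∀ v : Ctl r, C.End v = C.End u → ‖u‖ ≤ ‖v‖

open Classical in
/-- The normal exponential map in the chart (zero if there is no normal control). -/
noncomputable def nexpE (l : g →L[ℝ] ℝ) : g :=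
  if h : ∃ u : Ctl r, C.Normal u l then C.End h.choose else 0

/-- Conjugate: the endpoint is a critical value of the normal exponential map at a covector of
`u`. -/
def ConjE (u : ℝ → EE r) : Prop :=
  ∃ l, C.Normal u l ∧ ¬ ∃ A : (g →L[ℝ] ℝ) ≃L[ℝ] g,
    HasFDerivAt C.nexpE (A : (g →L[ℝ] ℝ) →L[ℝ] g) l

/-- Smooth points, in the chart. -/
def SmoothE (b : g) : Prop :=
  b ≠ 0 ∧ ∃ u : Ctl r, C.EMin u ∧ C.End u = b ∧ (∀ v : Ctl r, C.EMin v → C.End v = b → v = u) ∧
    (¬ ∃ l, C.Sing u l) ∧ ¬ C.ConjE u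

/-! ## The definitions of the final statements: exponential coordinates -/

/-- `γ` is the horizontal curve with control `u` starting at the identity. -/
def IsCurve (u : ℝ → EE r) (γ : ℝ → Aff g) : Prop :=
  IntegrableOn u (Ioc 0 1) ∧ Sol C.R u γ

/-- The group element with exponential coordinates `x`. -/
noncomputable def pt (x : g) : Aff g := NormedSpace.exp (C.rep x)

/-- `u` is the control of a horizontal curve from the identity to `exp x`. -/
def Joins (u : ℝ → EE r) (x : g) : Prop := ∃ γ, C.IsCurve u γ ∧ γ 1 = C.pt x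

/-- The Carnot-Caratheodory distance of the identity and `exp x`. -/
noncomputable def dist (x : g) : ℝ :=
  sInf {ℓ | ∃ u, C.Joins u x ∧ ℓ = ∫ t in (0 : ℝ)..1, ‖u t‖}

/-- `u` is the control of a length-minimising curve from the identity to `exp x`, parametrised
by constant speed on `[0, 1]`. -/
def IsMin (u : ℝ → EE r) (x : g) : Prop :=
  C.Joins u x ∧ ∀ᵐ t ∂(volume.restrict (Ioc (0 : ℝ) 1)), ‖u t‖ = C.dist x

/-- The curve with control `u` is abnormal: a nonzero covector annihilates `Ad_{γ(t)} V₁` for all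
`t`. -/
def Abnormal (u : ℝ → EE r) : Prop :=
  ∃ γ, C.IsCurve u γ ∧ ∃ l : g →L[ℝ] ℝ, l ≠ 0 ∧ ∀ t ∈ Icc (0 : ℝ) 1, ∀ a,
    l (lin (γ t) (C.X a)) = 0

/-- The curve with control `u` is normal with covector `l`: `⟨u(t), a⟩ = l (Ad_{γ(t)} a)`. -/
def IsNormal (u : ℝ → EE r) (l : g →L[ℝ] ℝ) : Prop :=
  ∃ γ, C.IsCurve u γ ∧ ∀ᵐ t ∂(volume.restrict (Ioc (0 : ℝ) 1)), ∀ a,
    inner ℝ (u t) a = l (lin (γ t) (C.X a))

open Classical in
/-- The normal exponential map, in exponential coordinates. -/
noncomputable def nexp (l : g →L[ℝ] ℝ) : g :=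
  if h : ∃ x, ∃ u, C.IsNormal u l ∧ C.Joins u x then h.choose else 0

/-- `u` is conjugate: a covector of `u` is a critical point of the normal exponential map. -/
def Conjugate (u : ℝ → EE r) : Prop :=
  ∃ l, C.IsNormal u l ∧ ¬ ∃ A : (g →L[ℝ] ℝ) ≃L[ℝ] g,
    HasFDerivAt C.nexp (A : (g →L[ℝ] ℝ) →L[ℝ] g) l

/-- Smooth points for the identity (in exponential coordinates). -/
def Smooth (x : g) : Prop :=
  x ≠ 0 ∧ ∃ u, C.IsMin u x ∧
    (∀ v, C.IsMin v x → v =ᵐ[volume.restrict (Ioc (0 : ℝ) 1)] u) ∧ ¬ C.Abnormal u ∧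
      ¬ C.Conjugate u

/-- The cut locus of the identity (in exponential coordinates). -/
def cut : Set g := {x | ¬ C.Smooth x}

end Carnot

end Pool.Agent.CutLoci
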