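import Pool.Agent.Lib.MP_0e3b4a_gt.Defs

/-! # Statements of the modules -/

set_option autoImplicit false

namespace Pool.Agent.CutLoci

open MeasureTheory Set Filter Topology
open scoped BoundedContinuousFunction

/-! ## F. Ordered exponentials -/

/-- PROD (80 lines). Product rule for primitives. `const_of_ae_hasDerivAt_zero` in
`Mathlib/MeasureTheory/Integral/IntervalIntegral/AbsolutelyContinuousFun.lean` is vector valued;
`IntervalIntegrable.ae_hasDerivAt_integral`; primitives are absolutely continuous. Or Fubini. -/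
def ProdStatement : Prop :=
  ∀ (E F G : Type) [NormedAddCommGroup E] [NormedSpace ℝ E] [CompleteSpace E]
    [NormedAddCommGroup F] [NormedSpace ℝ F] [CompleteSpace F]
    [NormedAddCommGroup G] [NormedSpace ℝ G] [CompleteSpace G]
    (B : E →L[ℝ] F →L[ℝ] G) (x : ℝ → E) (y : ℝ → F) (x0 : E) (y0 : F),
    IntegrableOn x (Ioc 0 1) → IntegrableOn y (Ioc 0 1) → ∀ t ∈ Icc (0 : ℝ) 1,
      B (x0 + ∫ s in (0 : ℝ)..t, x s) (y0 + ∫ s in (0 : ℝ)..t, y s) = B x0 y0 +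
        ∫ s in (0 : ℝ)..t, (B (x s) (y0 + ∫ p in (0 : ℝ)..s, y p) +
          B (x0 + ∫ p in (0 : ℝ)..s, x p) (y s))

/-- GRON (60 lines, uses PROD). Gronwall with an integrable coefficient: with
`K(t) = ∫ κ`, `φ ≤ M` gives `φ(t) ≤ M K(t)^n / n!` by induction (product rule for `K^n`). -/
def GronStatement : Prop :=
  ∀ (φ κ : ℝ → ℝ), ContinuousOn φ (Icc 0 1) → IntegrableOn κ (Ioc 0 1) →
    (∀ t ∈ Icc (0 : ℝ) 1, 0 ≤ φ t) → (∀ t ∈ Ioc (0 : ℝ) 1, 0 ≤ κ t) →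
    (∀ t ∈ Icc (0 : ℝ) 1, φ t ≤ ∫ s in (0 : ℝ)..t, φ s * κ s) → ∀ t ∈ Icc (0 : ℝ) 1, φ t = 0

/-- FLOW (100 lines). For nilpotent `R` the finite sum `flow` solves the equation: `iter R u N`
vanishes (`iter k t * R a_1 * ... * R a_(N-k) = 0` by induction on `k`), `iter k` is continuous. -/
def FlowStatement : Prop :=
  ∀ (r : ℕ) (A : Type) [NormedRing A] [NormedAlgebra ℝ A] [CompleteSpace A] (R : EE r →L[ℝ] A)
    (N : ℕ), Nil R N → ∀ u : ℝ → EE r, IntegrableOn u (Ioc 0 1) → Sol R u (flow R N u)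

/-- UNIQ (50 lines, uses GRON). Uniqueness for `X' = X k` and for `X' = k X` (apply it to the
difference of two solutions). -/
def UniqStatement : Prop :=
  ∀ (A : Type) [NormedRing A] [NormedAlgebra ℝ A] [CompleteSpace A] (k : ℝ → A) (X : ℝ → A),
    IntegrableOn k (Ioc 0 1) → ContinuousOn X (Icc 0 1) →
    ((∀ t ∈ Icc (0 : ℝ) 1, X t = ∫ s in (0 : ℝ)..t, X s * k s) ∨
      (∀ t ∈ Icc (0 : ℝ) 1, X t = ∫ s in (0 : ℝ)..t, k s * X s)) →
    ∀ t ∈ Icc (0 : ℝ) 1, X t = 0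

/-- INV (120 lines, uses PROD, FLOW, UNIQ). The flow is invertible and its inverse solves
`Λ' = - R(u) Λ`. Construct `Λ` as a finite sum of iterated integrals (or as the flow in the
opposite algebra), `Γ Λ` satisfies `(Γ Λ)' = 0` by PROD, `Λ Γ` satisfies a linear equation with the
solution `1`. -/
def InvStatement : Prop :=
  ∀ (r : ℕ) (A : Type) [NormedRing A] [NormedAlgebra ℝ A] [CompleteSpace A] (R : EE r →L[ℝ] A)
    (N : ℕ), Nil R N → ∀ u : ℝ → EE r, IntegrableOn u (Ioc 0 1) → ∃ L : ℝ → A,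
      ContinuousOn L (Icc 0 1) ∧
      ∀ t ∈ Icc (0 : ℝ) 1, flow R N u t * L t = 1 ∧ L t * flow R N u t = 1 ∧
        L t = 1 - ∫ s in (0 : ℝ)..t, R (u s) * L s

/-- EXPA (200 lines, uses FLOW). The flow as a map from controls to bounded continuous curves is
polynomial. The Volterra operator `(Y, u) ↦ (t ↦ ∫_0^(clamp t) Y R(u))` is a bounded bilinear map
`(ℝ →ᵇ A) × Ctl r → (ℝ →ᵇ A)`; induct on `iter`. If
`I_k[u + δ x] = a + δ b(x) + δ² c(δ, x)` then the same holds for `I_(k+1)`, with `b` linear in `x`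
and `c` smooth. -/
def ExpaStatement : Prop :=
  ∀ (r : ℕ) (A : Type) [NormedRing A] [NormedAlgebra ℝ A] [CompleteSpace A] (R : EE r →L[ℝ] A)
    (N : ℕ), Nil R N → ∃ Φ : Ctl r → (ℝ →ᵇ A), ContDiff ℝ 2 Φ ∧
      (∀ u : Ctl r, ∀ t, Φ u t = flow R N u (max 0 (min t 1))) ∧
      ∀ u : Ctl r, ∃ (B : Ctl r →L[ℝ] (ℝ →ᵇ A)) (G : ℝ × Ctl r → (ℝ →ᵇ A)), ContDiff ℝ 1 G ∧
        (∀ (δ : ℝ) (x : Ctl r), Φ (u + δ • x) = Φ u + δ • B x + δ ^ 2 • G (δ, x)) ∧
        (∀ (x : Ctl r), ∀ t ∈ Icc (0 : ℝ) 1, B x t =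
          ∫ s in (0 : ℝ)..t, (B x s * R (u s) + flow R N u s * R (x s))) ∧
        (∀ (x : Ctl r), ∀ t ∈ Icc (0 : ℝ) 1, G (0, x) t =
          ∫ s in (0 : ℝ)..t, (G (0, x) s * R (u s) + B x s * R (x s)))

/-- WEAK (150 lines). Weak continuity: by induction on `k`, `iter R (un n) k t` converges for
every `t` (dominated convergence gives strong convergence in `L²` of the integrand, the controls
are bounded in `L²`). -/
def WeakStatement : Prop :=
  ∀ (r : ℕ) (A : Type) [NormedRing A] [NormedAlgebra ℝ A] [FiniteDimensional ℝ A]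
    (R : EE r →L[ℝ] A) (N : ℕ) (un : ℕ → Ctl r) (u : Ctl r) (M : ℝ), (∀ n, ‖un n‖ ≤ M) →
    (∀ x : Ctl r, Tendsto (fun n => inner ℝ (un n) x) atTop (𝓝 (inner ℝ u x))) →
    ∀ t ∈ Icc (0 : ℝ) 1, Tendsto (fun n => flow R N (un n) t) atTop (𝓝 (flow R N u t))

/-- RESC (80 lines, uses FLOW, UNIQ, INV). Restriction to a subinterval: the flow of
`t ↦ (b - a) u(a + (b - a) t)` is `Γ(a)⁻¹ Γ(a + (b - a) t)`. -/
def RescStatement : Prop :=
  ∀ (r : ℕ) (A : Type) [NormedRing A] [NormedAlgebra ℝ A] [CompleteSpace A] (R : EE r →L[ℝ] A)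
    (N : ℕ), Nil R N → ∀ u : ℝ → EE r, IntegrableOn u (Ioc 0 1) → ∀ a b : ℝ, 0 ≤ a → a ≤ b →
      b ≤ 1 → IntegrableOn (fun t => (b - a) • u (a + (b - a) * t)) (Ioc 0 1) ∧
      ∀ t ∈ Icc (0 : ℝ) 1, flow R N u a * flow R N (fun t => (b - a) • u (a + (b - a) * t)) t =
        flow R N u (a + (b - a) * t)

/-- LINE (80 lines, uses PROD, FLOW, UNIQ, RESC). If `u ∈ ℝ p` on `(a, b)` then
`Γ(b) = Γ(a) exp(R(∫ u))`. On `[0, 1]`: `t ↦ exp(R(∫_0^t u))` solves the equation, since everything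
commutes; `exp (c • R p)` is a polynomial in `c`. -/
def LineStatement : Prop :=
  ∀ (r : ℕ) (A : Type) [NormedRing A] [NormedAlgebra ℝ A] [CompleteSpace A] (R : EE r →L[ℝ] A)
    (N : ℕ), Nil R N → ∀ u : ℝ → EE r, IntegrableOn u (Ioc 0 1) → ∀ (a b : ℝ) (p : EE r), 0 ≤ a →
      a ≤ b → b ≤ 1 → (∀ᵐ t ∂(volume.restrict (Ioc a b)), ∃ c : ℝ, u t = c • p) →
      flow R N u b = flow R N u a * NormedSpace.exp (R (∫ t in a..b, u t))

/-! ## G. The graded algebra -/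

section

variable (g : Type) [NormedAddCommGroup g] [NormedSpace ℝ g] [FiniteDimensional ℝ g] (r : ℕ)

/-- GRADE (100 lines). `[V_i, V_j] ⊆ V_(i+j)`, `D` is a derivation, every element is a sum of
elements of the layers `1, ..., s`. -/
def GradeStatement : Prop :=
  ∀ C : Carnot g r, (∀ i j, ∀ x ∈ C.V i, ∀ y ∈ C.V j, C.br x y ∈ C.V (i + j)) ∧
    (∀ x y, C.D (C.br x y) = C.br (C.D x) y + C.br x (C.D y)) ∧ (∀ a, C.D (C.X a) = C.X a) ∧
    (∀ x, ∃ y : ℕ → g, (∀ j, y j ∈ C.V j) ∧ x = ∑ j ∈ Finset.Icc 1 C.s, y j) ∧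
    ∀ x y, C.br x y = - C.br y x

/-- NILP (80 lines, uses GRADE). `rep` is a homomorphism and `s + 1` factors give zero. -/
def NilpStatement : Prop :=
  ∀ C : Carnot g r, Nil C.R (C.s + 1) ∧
    (∀ a : Fin (C.s + 1) → g, (List.ofFn fun i => C.rep (a i)).prod = 0) ∧
    ∀ x y, C.rep x * C.rep y - C.rep y * C.rep x = C.rep (C.br x y)

/-- KAPPA (60 lines, uses GRADE). `κ_b = D + [·, b]` is bijective (it is triangular). -/
def KappaStatement : Prop := ∀ C : Carnot g r, ∀ b : g, Function.Bijective (C.kap b)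

/-- STRUC (200 lines, uses NILP, GRADE, FLOW, UNIQ, PROD, INV). The structure of the curve.
Everything follows by uniqueness of linear integral equations: for the
automorphism property compare `t ↦ Ad_t [x, y]` and `t ↦ [Ad_t x, Ad_t y]` (PROD) for fixed
`x`, `y` varying, as elements of `(g →L g →L g)`, or directly
`Γ rep(x) Γ⁻¹ = rep(Ad_t x)`: both sides solve the same equation. -/
def StrucStatement : Prop :=
  ∀ C : Carnot g r, ∀ u : ℝ → EE r, IntegrableOn u (Ioc 0 1) →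
    ContinuousOn (C.Gam u) (Icc 0 1) ∧ ContinuousOn (C.Ad u) (Icc 0 1) ∧
    ∀ t ∈ Icc (0 : ℝ) 1,
      (∀ z : g, ∀ c : ℝ, C.Gam u t (z, c) = (C.Ad u t z + c • Carnot.org (C.Gam u t), c)) ∧
      (∀ x y, C.Ad u t (C.br x y) = C.br (C.Ad u t x) (C.Ad u t y)) ∧
      (∀ x, C.Gam u t * C.rep x = C.rep (C.Ad u t x) * C.Gam u t) ∧
      (∀ z, C.Ad u t z = z + ∫ s in (0 : ℝ)..t, C.Ad u s (C.br (C.X (u s)) z)) ∧
      Carnot.org (C.Gam u t) = C.W u u t ∧
      (∃ B : g →L[ℝ] g, B.comp (C.Ad u t) = 1 ∧ (C.Ad u t).comp B = 1)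

/-! ## E. The endpoint map -/

/-- BILI (100 lines, uses STRUC). The first and second variation as continuous (bi)linear maps
of the controls; the first variation with covectors. -/
def BiliStatement : Prop :=
  ∀ C : Carnot g r, ∀ u : Ctl r,
    (∃ L : ℝ → Ctl r →L[ℝ] g, ∀ t ∈ Icc (0 : ℝ) 1, ∀ x : Ctl r, L t x = C.W u x t) ∧
    (∃ B : Ctl r →L[ℝ] Ctl r →L[ℝ] g, ∀ x y : Ctl r, B x y = C.Q u x y) ∧
    (∀ x : Ctl r, ContinuousOn (C.W u x) (Icc 0 1)) ∧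
    (∀ x y : Ctl r, IntegrableOn (fun t => C.br (C.W u x t) (C.Ad u t (C.X (y t)))) (Ioc 0 1))

/-- EXPB (200 lines, uses EXPA, STRUC, UNIQ, PROD, INV, NILP). The first and the second variation
of the endpoint map. In the algebra: `B x t = rep(W_x(t)) Γ(t)` and
`G (0, x) t = (∫_0^t rep(W_x) rep(w_x)) Γ(t)`, `w_x = Ad_t X(x(t))`: both sides solve the same
equation. For `v`, `k` in the kernel the polar form is
`rep(∫ [W_v, w_k]) Γ(1)` (PROD on `[0, 1]`), and `org (rep(w) Γ(1)) = κ_b w`, `b = org Γ(1)`. -/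
def ExpbStatement : Prop :=
  ∀ C : Carnot g r, ∀ u : Ctl r, ∃ G : ℝ × Ctl r → g, ContDiff ℝ 1 G ∧
    (∀ (δ : ℝ) (x : Ctl r), C.End (u + δ • x : Ctl r) =
      C.End u + δ • C.kap (C.End u) (C.W u x 1) + δ ^ 2 • G (δ, x)) ∧
    ∀ v k : Ctl r, C.Ker u v → C.Ker u k →
      fderiv ℝ (fun x => G (0, x)) v k = C.kap (C.End u) (C.Q u v k)

/-- STRD (60 lines, uses EXPA, EXPB, BILI). The endpoint map is `C¹` and its strict derivative. -/
def StrdStatement : Prop :=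
  ∀ C : Carnot g r, ContDiff ℝ 1 (fun u : Ctl r => C.End u) ∧ ∀ u : Ctl r,
    ∃ L : Ctl r →L[ℝ] g, HasStrictFDerivAt (fun v : Ctl r => C.End v) L u ∧
      ∀ x, L x = C.kap (C.End u) (C.W u x 1)

/-- RANGE (80 lines, uses BILI, STRUC). A covector annihilating the first variations of controls
supported in an interval annihilates `Ad_t V₁` there; and conversely. -/
def RangeStatement : Prop :=
  ∀ C : Carnot g r, ∀ (u : Ctl r) (l : g →L[ℝ] ℝ) (a b : ℝ), 0 ≤ a → a < b → b ≤ 1 →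
    ((∀ x : Ctl r, (∀ᵐ t ∂(volume.restrict (Ioc (0 : ℝ) 1)), t ∉ Ioo a b → x t = 0) →
      l (C.W u x 1) = 0) ↔ ∀ t ∈ Icc a b, ∀ c, l (C.Ad u t (C.X c)) = 0)

/-! ## M. Minimisers -/

/-- CONC (150 lines, uses FLOW, UNIQ, INV, RESC, STRUC, NILP). Concatenation and reversal of
controls: `w(t) = 2 u(2 t)` for `t ≤ 1/2`, `w(t) = 2 v(2 t - 1)` for `t > 1/2`;
`w(t) = - u(1 - t)`. -/
def ConcStatement : Prop :=
  ∀ C : Carnot g r, (∀ u v : Ctl r, ∃ w : Ctl r, ∀ t ∈ Icc (0 : ℝ) 1,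
      C.Gam w (t / 2) = C.Gam u t ∧ C.Gam w ((1 + t) / 2) = C.Gam u 1 * C.Gam v t) ∧
    ∀ u : Ctl r, ∃ w : Ctl r, C.Gam w 1 * C.Gam u 1 = 1

/-- DILA (120 lines, uses GRADE, STRUC, UNIQ). Dilations `δ_ρ = ρ^j` on `V_j`, and
`End (ρ u) = δ_ρ (End u)`, by `Ad_(ρ u)(t) δ_ρ = δ_ρ Ad_u(t)`. -/
def DilaStatement : Prop :=
  ∀ C : Carnot g r, ∃ δ : ℝ → g →L[ℝ] g, (∀ b : g, Tendsto (fun ρ => δ ρ b) (𝓝 0) (𝓝 0)) ∧
    (∀ ρ : ℝ, ρ ≠ 0 → ∀ b, δ ρ⁻¹ (δ ρ b) = b) ∧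
    ∀ (ρ : ℝ) (u : Ctl r), C.End (ρ • u : Ctl r) = δ ρ (C.End u)

/-- SPAN (150 lines, uses CONC, STRUC, GRADE, RANGE, BILI). There is a control with surjective
first variation. Take `u` with `dim span(Ad_t V₁)` maximal: by concatenation `Ad_u(1)⁻¹ I(u)`
contains `Ad_v(t) V₁` for all `v`, the span of all these is invariant under `ad V₁`
(constant controls) and contains `V₁`, so it is `g`. -/
def SpanStatement : Prop :=
  ∀ C : Carnot g r, ∃ u : Ctl r, ∀ w : g, ∃ x : Ctl r, C.W u x 1 = w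

/-- CHOW (100 lines, uses CONC, DILA, SPAN, STRD, KAPPA, STRUC). Every point is the endpoint of a
control: open mapping at the control of SPAN, translate to the identity, dilate. -/
def ChowStatement : Prop := ∀ C : Carnot g r, ∀ b : g, ∃ u : Ctl r, C.End u = b

/-- MINI (150 lines, uses WEAK, CHOW, NILP). Existence of minimisers and lower semicontinuity:
`WeakDual.isSeqCompact_closedBall` for the separable Hilbert space `Ctl r`. -/
def MiniStatement : Prop :=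
  ∀ C : Carnot g r, (∀ b : g, ∃ u : Ctl r, C.EMin u ∧ C.End u = b) ∧ LowerSemicontinuous C.f

end

/-! ## C. Abstract lemmas -/

/-- DROP (150 lines). Second order openness. `Θ(δ, k, h) = G(δ, v + k + δ h) + B h` on
`ℝ × ker B × H`, `Ψ = (δ, Θ)` has a surjective strict derivative at `0`, so
(`HasStrictFDerivAt.map_nhds_eq_of_surj`) all `(δ, ξ)` near `(0, G(0, v))` are values with small
`k`, `h`; then `u' = u + δ (v + k + δ h)` has `F u' = F u + δ² ξ` and energy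
`≤ |u|²/2 + δ ⟨u, v⟩ / 2`. Take `s = δ²`. -/
def DropStatement : Prop :=
  ∀ (H : Type) [NormedAddCommGroup H] [InnerProductSpace ℝ H] [CompleteSpace H] (E : Type)
    [NormedAddCommGroup E] [NormedSpace ℝ E] [FiniteDimensional ℝ E] (F : H → E) (u : H)
    (B : H →L[ℝ] E) (G : ℝ × H → E), ContDiff ℝ 1 G →
    (∀ (δ : ℝ) (x : H), F (u + δ • x) = F u + δ • B x + δ ^ 2 • G (δ, x)) → ∀ v : H, B v = 0 →
    inner ℝ u v < 0 →
    (∀ e : E, ∃ k h : H, B k = 0 ∧ fderiv ℝ (fun x => G (0, x)) v k + B h = e) →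
    ∃ (O : Set E) (c s0 : ℝ), IsOpen O ∧ O.Nonempty ∧ 0 < c ∧ 0 < s0 ∧
      ∀ ξ ∈ O, ∀ s ∈ Ioo 0 s0, ∃ u' : H, F u' = F u + s • ξ ∧
        ‖u'‖ ^ 2 / 2 ≤ ‖u‖ ^ 2 / 2 - c * Real.sqrt s

/-- SUPG (100 lines). Supergradients at regular points: `φ(y) = F(u + M y)`, `M` a right inverse
of `B`, has a local inverse (`HasStrictFDerivAt.to_localInverse`). -/
def SupgStatement : Prop :=
  ∀ (H : Type) [NormedAddCommGroup H] [InnerProductSpace ℝ H] [CompleteSpace H] (E : Type)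
    [NormedAddCommGroup E] [NormedSpace ℝ E] [FiniteDimensional ℝ E] (F : H → E) (u : H)
    (B : H →L[ℝ] E) (p : E →L[ℝ] ℝ), HasStrictFDerivAt F B u → Function.Surjective B →
    (∀ x, inner ℝ u x = p (B x)) → ∀ ξ : E, ∀ ε : ℝ, 0 < ε → ∃ s0 : ℝ, 0 < s0 ∧
      ∀ s ∈ Ioo 0 s0, ∃ u' : H, F u' = F u + s • ξ ∧
        ‖u'‖ ^ 2 / 2 ≤ ‖u‖ ^ 2 / 2 + s * (p ξ + ε)

/-- `f` drops at least like `c √s` in an open set of directions. -/
def DropAt {E : Type} [NormedAddCommGroup E] [NormedSpace ℝ E] (f : E → ℝ) (b : E) : Prop :=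
  ∃ (O : Set E) (c s0 : ℝ), IsOpen O ∧ O.Nonempty ∧ 0 < c ∧ 0 < s0 ∧
    ∀ ξ ∈ O, ∀ s ∈ Ioo 0 s0, f (b + s • ξ) ≤ f b - c * Real.sqrt s

/-- `p` is a supergradient (in the sense of directions). -/
def SuperAt {E : Type} [NormedAddCommGroup E] [NormedSpace ℝ E] (f : E → ℝ) (b : E)
    (p : E →L[ℝ] ℝ) : Prop :=
  ∀ ξ : E, ∀ ε : ℝ, 0 < ε → ∃ s0 : ℝ, 0 < s0 ∧ ∀ s ∈ Ioo 0 s0,
    f (b + s • ξ) ≤ f b + s * (p ξ + ε)

/-- LINA (150 lines). Points where `f` drops have measure zero. For rational `ξ` (a countable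
dense set), `c`, `s0` the set is Borel (by lower semicontinuity rational `s` suffice), and on a
line in direction `ξ` it has measure zero: if `x_0 < x_1 < ... < x_m` are in it within distance
`s0`, then `c ∑ √(x_(i+1) - x_i) ≤ f(x_0)`, and if the set had positive measure `δ` one could
choose `m` points with gaps `≥ δ / (2 m)`. Then `ae_mem_of_ae_add_linearMap_mem`. -/
def LinaStatement : Prop :=
  ∀ (E : Type) [NormedAddCommGroup E] [NormedSpace ℝ E] [FiniteDimensional ℝ E]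
    [MeasurableSpace E] [BorelSpace E] (μ : Measure E) [μ.IsAddHaarMeasure] (f : E → ℝ),
    LowerSemicontinuous f → (∀ b, 0 ≤ f b) → μ {b | DropAt f b} = 0

/-- LINB (120 lines). Points with two different supergradients have measure zero: choose rational
`ξ`, `α < β` with `p ξ < α < β < p' ξ`; on a line in direction `ξ` the points with
`f(x + s) ≤ f(x) + α s`, `f(x - s) ≤ f(x) - β s` for `0 < s < s0` have distances `≥ s0`. -/
def LinbStatement : Prop :=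
  ∀ (E : Type) [NormedAddCommGroup E] [NormedSpace ℝ E] [FiniteDimensional ℝ E]
    [MeasurableSpace E] [BorelSpace E] (μ : Measure E) [μ.IsAddHaarMeasure] (f : E → ℝ),
    LowerSemicontinuous f → μ {b | ∃ p p' : E →L[ℝ] ℝ, p ≠ p' ∧ SuperAt f b p ∧
      SuperAt f b p'} = 0

/-- RANK (150 lines). Choose `v` with `φ v < 0` such that `dim (B v K + I)` is maximal. If it is
everything we are in the first case. Otherwise for `x` with `B v x ∈ I` and all `k`: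
`B k x ∈ B v K + I` (else `v + ε k`, `ε` small, has larger rank). Take `l` annihilating
`B v K + I`. -/
def RankStatement : Prop :=
  ∀ (K E : Type) [AddCommGroup K] [Module ℝ K] [AddCommGroup E] [Module ℝ E]
    [FiniteDimensional ℝ E] (B : K →ₗ[ℝ] K →ₗ[ℝ] E) (φ : K →ₗ[ℝ] ℝ) (I : Submodule ℝ E),
    (∃ v, φ v < 0) →
    (∃ v, φ v < 0 ∧ ∀ e : E, ∃ k : K, ∃ i ∈ I, B v k + i = e) ∨
    (∃ l : E →ₗ[ℝ] ℝ, l ≠ 0 ∧ (∀ i ∈ I, l i = 0) ∧ ∃ N : Submodule ℝ K,
      FiniteDimensional ℝ (K ⧸ N) ∧ ∀ x ∈ N, ∀ k : K, l (B k x) = 0)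

/-! ## L. Local analysis -/

section

variable (g : Type) [NormedAddCommGroup g] [NormedSpace ℝ g] [FiniteDimensional ℝ g] (r : ℕ)

/-- A control supported in `(a, b)`. -/
def SuppIn {r : ℕ} (x : ℝ → EE r) (a b : ℝ) : Prop :=
  ∀ᵐ t ∂(volume.restrict (Ioc (0 : ℝ) 1)), t ∉ Ioo a b → x t = 0

/-- `t` is a good time: the second variation vanishes near `t`. -/
def Good {g : Type} [NormedAddCommGroup g] [NormedSpace ℝ g] [FiniteDimensional ℝ g] {r : ℕ}
    (C : Carnot g r) (u : Ctl r) (l : g →L[ℝ] ℝ) (t : ℝ) : Prop :=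
  ∃ ε : ℝ, 0 < ε ∧ ε < t ∧ t + ε < 1 ∧ ∀ x y : Ctl r, C.Ker u x → C.Ker u y →
    SuppIn x (t - ε) (t + ε) → SuppIn y (t - ε) (t + ε) → l (C.Q u x y) = 0

/-- The left local span. -/
def leftS {g : Type} [NormedAddCommGroup g] [NormedSpace ℝ g] [FiniteDimensional ℝ g] {r : ℕ}
    (C : Carnot g r) (u : ℝ → EE r) (t : ℝ) : Submodule ℝ g :=
  ⨅ η : {η : ℝ // 0 < η}, Submodule.span ℝ
    {z | ∃ s ∈ Ioo (t - (η : ℝ)) t ∩ Icc 0 1, ∃ a, z = C.Ad u s (C.X a)}

/-- The right local span. -/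
def rightS {g : Type} [NormedAddCommGroup g] [NormedSpace ℝ g] [FiniteDimensional ℝ g] {r : ℕ}
    (C : Carnot g r) (u : ℝ → EE r) (t : ℝ) : Submodule ℝ g :=
  ⨅ η : {η : ℝ // 0 < η}, Submodule.span ℝ
    {z | ∃ s ∈ Ioo t (t + (η : ℝ)) ∩ Icc 0 1, ∃ a, z = C.Ad u s (C.X a)}

/-- BAD (150 lines, uses BILI). A form of finite rank vanishes locally outside a finite set of
times: `n + 1` disjoint intervals carrying pairs `k_i`, `x_i` in the kernel with
`l (Q k_i x_i) ≠ 0` contradict codimension `n` (`Q k_j x_i = 0` for `i ≠ j`, since `W k_j`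
vanishes outside the `j`-th interval). -/
def BadStatement : Prop :=
  ∀ C : Carnot g r, ∀ (u : Ctl r) (l : g →L[ℝ] ℝ) (N : Submodule ℝ (Ctl r)) (n : ℕ),
    (∀ x : Fin (n + 1) → Ctl r, (∀ i, C.Ker u (x i)) → ∃ c : Fin (n + 1) → ℝ, c ≠ 0 ∧
      ∑ i, c i • x i ∈ N) →
    (∀ x ∈ N, ∀ k : Ctl r, C.Ker u x → C.Ker u k → l (C.Q u k x) = 0) →
    ∃ Z : Finset ℝ, ∀ t ∈ Ioo (0 : ℝ) 1, t ∉ Z → Good C u l t

/-- MULT (120 lines, uses BILI, RANGE). For `x` in the kernel supported in `(a, b)` such that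
`l (Q u x y) = 0` for all `y` in the kernel supported in `(a, b)` there is a multiplier `m`:
`l [W_x(t), Ad_t c] = m (Ad_t c)` for all `t ∈ [a, b]`. (The functional
`y ↦ ∫ l [W_x, Ad_t y(t)]` on controls supported in `(a, b)` vanishes on the kernel of the finite
rank map `y ↦ W u y 1`; so it factors through it. Then vary `y` and use continuity.) -/
def MultStatement : Prop :=
  ∀ C : Carnot g r, ∀ (u : Ctl r) (l : g →L[ℝ] ℝ) (a b : ℝ), 0 ≤ a → a < b → b ≤ 1 →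
    ∀ x : Ctl r, C.Ker u x → SuppIn x a b →
    (∀ y : Ctl r, C.Ker u y → SuppIn y a b → l (C.Q u x y) = 0) →
    ∃ m : g →L[ℝ] ℝ, ∀ t ∈ Icc a b, ∀ c, l (C.br (C.W u x t) (C.Ad u t (C.X c))) =
      m (C.Ad u t (C.X c))

/-- LOCA (150 lines, uses MULT, RANGE, BILI, STRUC, LIMS). At a good time
`l [y, Ad_t c] = 0` for `y` in both local spans. Choose `η` such that the span over `(t - η, t)` is
`leftS` and `η' < η` such that the span over `(t - η, t - η')` is also `leftS`; a control `x`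
supported in `(t - η', t + η')` with `W u x t = y`, `W u x 1 = 0`; the multiplier `m` of MULT
vanishes on `Ad_s V₁` for `s ∈ (t - η, t - η')` since `W_x(s) = 0` there, hence on `leftS`, which
contains `Ad_t c` (continuity). -/
def LocaStatement : Prop :=
  ∀ C : Carnot g r, ∀ (u : Ctl r) (l : g →L[ℝ] ℝ) (t : ℝ), Good C u l t →
    ∀ y ∈ leftS C u t ⊓ rightS C u t, ∀ c, l (C.br y (C.Ad u t (C.X c))) = 0

/-- LIMS (100 lines, uses STRUC). Elements of the local spans: `Ad_t c` for all `t`, and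
`Ad_t [u(t), c]` for almost all `t` (`IntervalIntegrable.ae_hasDerivAt_integral` for the
derivative of `Ad_t c`; a local span is closed and contains the difference quotients). -/
def LimsStatement : Prop :=
  ∀ C : Carnot g r, ∀ u : Ctl r,
    (∀ t ∈ Ioo (0 : ℝ) 1, ∀ c, C.Ad u t (C.X c) ∈ leftS C u t ⊓ rightS C u t) ∧
    ∀ᵐ t ∂(volume.restrict (Ioc (0 : ℝ) 1)), ∀ c,
      C.Ad u t (C.br (C.X (u t)) (C.X c)) ∈ leftS C u t ⊓ rightS C u t

/-! ## N. Normal extremals -/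

/-- NFUN (60 lines, uses BILI, RANGE). A control orthogonal to the kernel of the first variation
is normal; and normality in integrated form. -/
def NfunStatement : Prop :=
  ∀ C : Carnot g r, ∀ u : Ctl r,
    ((∀ x : Ctl r, C.Ker u x → inner ℝ u x = (0 : ℝ)) → ∃ l, C.Normal u l) ∧
    ∀ l, C.Normal u l → ∀ x : Ctl r, inner ℝ u x = l (C.W u x 1)

/-- NUNI (80 lines, uses STRUC, GRON). A normal control is determined by its covector:
`|u(t) - v(t)| ≤ |l| |X| |Ad_u(t) - Ad_v(t)|` and `Ad_u - Ad_v` satisfies a linear integral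
inequality. -/
def NuniStatement : Prop :=
  ∀ C : Carnot g r, ∀ (u v : Ctl r) (l : g →L[ℝ] ℝ), C.Normal u l → C.Normal v l → u = v

/-- VINV (100 lines). Volterra operators: `1 - T` is invertible. `|T^n v|(t)` is bounded by
`M^n t^(n-1)/(n-1)! ∫_0^t |v|`, so `‖T^n‖ < 1` for large `n`, and
`1 - T^n = (1 - T)(1 + T + ... + T^(n-1))`. -/
def VinvStatement : Prop :=
  ∀ (r : ℕ) (T : Ctl r →L[ℝ] Ctl r) (M : ℝ), (∀ v : Ctl r,
    ∀ᵐ t ∂(volume.restrict (Ioc (0 : ℝ) 1)), ‖T v t‖ ≤ M * ∫ s in (0 : ℝ)..t, ‖v s‖) →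
    Function.Bijective (ContinuousLinearMap.id ℝ (Ctl r) - T)

/-- NMAP (200 lines, uses EXPA, STRUC, NILP, UNIQ, PROD, INV). The map
`(u, l) ↦ (t ↦ the vector representing a ↦ l(Ad_u(t) X a))` on controls is `C¹`, and its partial
derivative in `u` is a Volterra operator: it is `v ↦ (t ↦ (a ↦ l [W_v(t), Ad_t X a]))`. -/
def NmapStatement : Prop :=
  ∀ C : Carnot g r, ∃ N : Ctl r × (g →L[ℝ] ℝ) → Ctl r, ContDiff ℝ 1 N ∧
    (∀ (u : Ctl r) (l : g →L[ℝ] ℝ), ∀ᵐ t ∂(volume.restrict (Ioc (0 : ℝ) 1)), ∀ a,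
      inner ℝ (N (u, l) t) a = l (C.Ad u t (C.X a))) ∧
    ∀ (u : Ctl r) (l : g →L[ℝ] ℝ), ∃ M : ℝ, ∀ v : Ctl r,
      ∀ᵐ t ∂(volume.restrict (Ioc (0 : ℝ) 1)),
        ‖(fderiv ℝ N (u, l) (v, 0) : Ctl r) t‖ ≤ M * ∫ s in (0 : ℝ)..t, ‖v s‖

/-- NDIF (100 lines, uses NMAP, VINV, NUNI, STRD). The normal exponential map is differentiable at
the covectors of normal controls: inverse function theorem for `(u, l) ↦ (u - N(u, l), l)`. -/
def NdifStatement : Prop :=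
  ∀ C : Carnot g r, ∀ (u : Ctl r) (l : g →L[ℝ] ℝ), C.Normal u l → DifferentiableAt ℝ C.nexpE l

/-- CRIT (80 lines, uses NDIF, NUNI). Sard (equidimensional, in Mathlib:
`addHaar_image_eq_zero_of_det_fderivWithin_eq_zero`). -/
def CritStatement : Prop :=
  ∀ [MeasurableSpace g] [BorelSpace g] (μ : Measure g) [μ.IsAddHaarMeasure] (C : Carnot g r),
    μ {b | ∃ u : Ctl r, C.End u = b ∧ C.ConjE u} = 0

end

end Pool.Agent.CutLoci
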